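import Pool.Agent.H531.GP.Ph4

set_option autoImplicit false

/-!
# One pattern at one scale: the three phases
-/

open Finset MeasureTheory ProbabilityTheory Filter Topology

namespace Pool.Agent.H531.GP

open Pool.Agent.T2H31.HV Pool.Agent.H531.SI Pool.Agent.H531.MS
open Pool.Agent.H531.CP hiding pos Par low_all ratio_all low_exp
open Pool.Agent.T2H32.BF hiding PI pos

/-- the class modulo the small primes -/
noncomputable def base (k : ℕ) (σ : ℕ → ℕ) (b : ℕ → ℕ) : ℕ :=
  Pool.Agent.T2H32.BF.N0 (wk k) (fun p => b p + σ p)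

theorem base_congr (k : ℕ) (σ b b' : ℕ → ℕ) (h : ∀ p ∈ PN (wk k), b p = b' p) : base k σ b = base k σ b' := by
  unfold base
  refine N0_congr _ _ _ fun p hp => ?_
  have : p ∈ PN (wk k) := by
    unfold PW at hp
    rw [mem_filter, mem_range] at hp
    rw [mem_PN]
    exact ⟨by omega, hp.2⟩
  rw [h p this]

theorem base_mod (k : ℕ) (σ b : ℕ → ℕ) (p : ℕ) (hp : p ≤ wk k) (hpp : p.Prime) :
    base k σ b % p = (b p + σ p) % p := by
  unfold base
  refine N0_mod _ _ p ?_
  unfold PW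
  rw [mem_filter, mem_range]
  exact ⟨by omega, hpp⟩

theorem base_lt (k : ℕ) (σ b : ℕ → ℕ) : base k σ b < primorial (wk k) := N0_lt _ _

/-- the positions -/
noncomputable def ps (k : ℕ) (σ b : ℕ → ℕ) (j : ℕ) : ℕ := base k σ b + primorial (wk k) * j

/-- what the small primes leave of the block at `n`, after the first phase -/
noncomputable def TS1 (k Y : ℕ) (T0 : Finset ℕ) (n : ℕ) (b : ℕ → ℕ) : Finset ℕ :=
  Sw (T0.image fun t => n + t) (PI (wk k) Y) b

/-- the good positions -/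
noncomputable def Gd (k Y s1 : ℕ) (σ : ℕ → ℕ) (H T0 : Finset ℕ) (J : ℕ) (b : ℕ → ℕ) : Finset ℕ :=
  (ST H (base k σ b) (primorial (wk k)) (Ico J (2 * J)) (PI (wk k) Y) b).filter
    fun j => (TS1 k Y T0 (ps k σ b j) b).card ≤ s1

/-- the condition of the second phase -/
def C2 (Y Z : ℕ) (T H : Finset ℕ) (b : ℕ → ℕ) : Prop :=
  (∀ t ∈ T, ∃ p ∈ PI Y Z, t % p = b p) ∧ ∀ p ∈ PI Y Z, ∀ u ∈ H, u % p ≠ b p

open Classical in
/-- the positions that are good after the second phase -/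
noncomputable def S2 (k Y s1 Z : ℕ) (σ : ℕ → ℕ) (H T0 : Finset ℕ) (J : ℕ) (b : ℕ → ℕ) : Finset ℕ :=
  (Gd k Y s1 σ H T0 J b).filter fun j => C2 Y Z (TS1 k Y T0 (ps k σ b j) b) (H.image fun u => ps k σ b j + u) b

/-- the condition of the third phase -/
def C3 (Z Z' : ℕ) (H : Finset ℕ) (b : ℕ → ℕ) : Prop := ∀ p ∈ PI Z Z', ∀ u ∈ H, u % p ≠ b p

theorem ST_congr (H : Finset ℕ) (c q : ℕ) (J L : Finset ℕ) (b b' : ℕ → ℕ) (h : ∀ p ∈ L, b p = b' p) :
    ST H c q J L b = ST H c q J L b' := by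
  unfold ST
  refine filter_congr fun t _ => forall_congr' fun p => forall_congr' fun hp => ?_
  rw [h p hp]

theorem Gd_congr (k Y s1 : ℕ) (σ : ℕ → ℕ) (H T0 : Finset ℕ) (J : ℕ) (b b' : ℕ → ℕ) (hY : wk k ≤ Y)
    (h : ∀ p ∈ PN Y, b p = b' p) : Gd k Y s1 σ H T0 J b = Gd k Y s1 σ H T0 J b' := by
  have h1 : ∀ p ∈ PN (wk k), b p = b' p := fun p hp => by
    refine h p ?_
    rw [mem_PN] at hp ⊢
    exact ⟨hp.1.trans hY, hp.2⟩
  have h2 : ∀ p ∈ PI (wk k) Y, b p = b' p := fun p hp => by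
    refine h p ?_
    rw [mem_PI] at hp
    rw [mem_PN]
    exact ⟨hp.1.2, hp.2⟩
  unfold Gd ps
  rw [base_congr k σ b b' h1, ST_congr _ _ _ _ _ b b' h2]
  refine filter_congr fun j _ => ?_
  unfold TS1
  rw [Sw_congr _ _ b b' h2]

theorem ps_congr (k : ℕ) (σ b b' : ℕ → ℕ) (j : ℕ) (h : ∀ p ∈ PN (wk k), b p = b' p) : ps k σ b j = ps k σ b' j := by
  unfold ps
  rw [base_congr k σ b b' h]

theorem TS1_congr (k Y : ℕ) (T0 : Finset ℕ) (n : ℕ) (b b' : ℕ → ℕ) (h : ∀ p ∈ PI (wk k) Y, b p = b' p) :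
    TS1 k Y T0 n b = TS1 k Y T0 n b' := Sw_congr _ _ b b' h

theorem C2_congr (Y Z : ℕ) (T H : Finset ℕ) (b b' : ℕ → ℕ) (h : ∀ p ∈ PI Y Z, b p = b' p) :
    C2 Y Z T H b ↔ C2 Y Z T H b' := by
  unfold C2
  refine and_congr (forall_congr' fun t => forall_congr' fun _ => exists_congr fun p => and_congr_right fun hp => ?_)
    (forall_congr' fun p => forall_congr' fun hp => ?_)
  · rw [h p hp]
  · rw [h p hp]

theorem C3_congr (Z Z' : ℕ) (H : Finset ℕ) (b b' : ℕ → ℕ) (h : ∀ p ∈ PI Z Z', b p = b' p) :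
    C3 Z Z' H b ↔ C3 Z Z' H b' := by
  unfold C3
  refine forall_congr' fun p => forall_congr' fun hp => ?_
  rw [h p hp]

theorem S2_congr (k Y s1 Z : ℕ) (σ : ℕ → ℕ) (H T0 : Finset ℕ) (J : ℕ) (b b' : ℕ → ℕ) (hY : wk k ≤ Y) (hZ : Y ≤ Z)
    (h : ∀ p ∈ PN Z, b p = b' p) : S2 k Y s1 Z σ H T0 J b = S2 k Y s1 Z σ H T0 J b' := by
  classical
  have h0 : ∀ p ∈ PN Y, b p = b' p := fun p hp => by
    refine h p ?_
    rw [mem_PN] at hp ⊢
    exact ⟨hp.1.trans hZ, hp.2⟩
  have h1 : ∀ p ∈ PN (wk k), b p = b' p := fun p hp => by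
    refine h0 p ?_
    rw [mem_PN] at hp ⊢
    exact ⟨hp.1.trans hY, hp.2⟩
  have h2 : ∀ p ∈ PI (wk k) Y, b p = b' p := fun p hp => by
    refine h0 p ?_
    rw [mem_PI] at hp
    rw [mem_PN]
    exact ⟨hp.1.2, hp.2⟩
  have h3 : ∀ p ∈ PI Y Z, b p = b' p := fun p hp => by
    refine h p ?_
    rw [mem_PI] at hp
    rw [mem_PN]
    exact ⟨hp.1.2, hp.2⟩
  unfold S2
  rw [Gd_congr k Y s1 σ H T0 J b b' hY h0]
  refine filter_congr fun j _ => ?_
  rw [ps_congr k σ b b' j h1, TS1_congr k Y T0 _ b b' h2]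
  exact C2_congr Y Z _ _ b b' h3

theorem PN_PI_disj (m n : ℕ) : Disjoint (PN m) (PI m n) := by
  rw [disjoint_left]
  intro p hp hp'
  rw [mem_PN] at hp
  rw [mem_PI] at hp'
  omega

theorem ps_disj (k : ℕ) (σ b : ℕ → ℕ) (G : ℕ) (hG : G < primorial (wk k)) (i j : ℕ) (hij : i ≠ j) :
    Disjoint (Icc (ps k σ b i) (ps k σ b i + G)) (Icc (ps k σ b j) (ps k σ b j + G)) := by
  rw [disjoint_left]
  intro t ht ht'
  rw [mem_Icc] at ht ht'
  unfold ps at ht ht'
  set q := primorial (wk k)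
  set c := base k σ b
  rcases lt_or_gt_of_ne hij with h | h
  · have h1 : q * i + q ≤ q * j := by
      calc q * i + q = q * (i + 1) := by ring
        _ ≤ q * j := Nat.mul_le_mul_left _ h
    omega
  · have h1 : q * j + q ≤ q * i := by
      calc q * j + q = q * (j + 1) := by ring
        _ ≤ q * i := Nat.mul_le_mul_left _ h
    omega

section prob

variable {Ω : Type} [MeasurableSpace Ω] {P : Measure Ω} {a : ℕ → Ω → ℕ}

omit [MeasurableSpace Ω] in
open Classical in
theorem cnt_eq {ι : Type*} (I : Finset ι) (E : ι → Set Ω) (ω : Ω) :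
    cnt I E ω = ((I.filter fun j => ω ∈ E j).card : ℝ) := by
  unfold cnt
  rw [card_filter, Nat.cast_sum]
  refine sum_congr rfl fun i _ => ?_
  by_cases h : ω ∈ E i
  · rw [Set.indicator_of_mem h, if_pos h]
    simp
  · rw [Set.indicator_of_notMem h, if_neg h]
    simp

open Classical in
/-- **First phase.** -/
theorem claim1 (h : Model P a) (B ν : ℕ) (hB : 1 ≤ B) (hν : 1 ≤ ν) (ε : ℝ) (hε : 0 < ε) (hε1 : ε ≤ 1) (m : ℕ)
    (c1 : ℝ) (hc1 : c1 = 1 / 4 * (1 / (4 * (B : ℝ))) ^ (2 * ν)) :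
    ∀ᶠ k : ℕ in atTop, ∀ (σ : ℕ → ℕ) (H T0 : Finset ℕ) (G J : ℕ), 1 ≤ H.card → H.card ≤ ν → k ^ 2 ≤ J →
      T0 ⊆ range (G + 1) → (G : ℝ) ≤ 2 * k ^ 2 → (T0.card : ℝ) ≤ (1 - ε / 8) * (k ^ 2 * V (wk k)) →
      P.real {ω | ((Gd k (k ^ B) (sB ε B k) σ H T0 J fun p => a p ω).card : ℝ) < c1 * J} ≤
        (1 + 2 / c1) * Real.exp (-(m * Real.log k)) := by
  have := prob h
  have hc10 : 0 < c1 := by
    have hB0 : (1 : ℝ) ≤ B := by exact_mod_cast hB
    rw [hc1]
    positivity
  filter_upwards [bad_one h B hB ε hε hε1 m, surv_many h B ν hB hν m c1 hc1, wk_le, eventually_ge_atTop 1]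
    with k hbad hmany hwk hk1
  intro σ H T0 G J hH1 hHν hkJ hT0 hG hT0c
  have hwY : wk k ≤ k ^ B := hwk.trans (Nat.le_self_pow (by omega) k)
  have hJ1 : 1 ≤ J := by
    have : 1 ≤ k ^ 2 := Nat.one_le_pow _ _ (by omega)
    omega
  have hJ0 : (0 : ℝ) < J := by exact_mod_cast (by omega : 0 < J)
  have hun : PN (wk k) ∪ PI (wk k) (k ^ B) = PN (k ^ B) := (PN_union (wk k) (k ^ B) hwY).symm
  refine cond_one h (PN (wk k)) (PI (wk k) (k ^ B)) (PN_PI_disj _ _)
    (fun b => ((Gd k (k ^ B) (sB ε B k) σ H T0 J b).card : ℝ) < c1 * J) ?_ _ (by positivity) ?_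
  · intro b b' hb
    rw [hun] at hb
    rw [Gd_congr k (k ^ B) (sB ε B k) σ H T0 J b b' hwY hb]
  · intro α
    set c := base k σ α with hc
    set E : ℕ → Set Ω := fun j =>
      {ω | sB ε B k < (Sw (T0.image fun t => (c + primorial (wk k) * j) + t) (PI (wk k) (k ^ B)) fun p => a p ω).card}
      with hE
    have hEm : ∀ j ∈ Ico J (2 * J), MeasurableSet (E j) := by
      intro j _
      have h1 := meas_dep h (fun b => sB ε B k <
        (Sw (T0.image fun t => (c + primorial (wk k) * j) + t) (PI (wk k) (k ^ B)) b).card) (k ^ B + 1) (by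
          intro b b' hb
          rw [Sw_congr _ _ b b' fun p hp => hb p (by
            have := (mem_PI.1 hp).1.2
            omega)])
      exact h1
    have hGdα : ∀ ω, Gd k (k ^ B) (sB ε B k) σ H T0 J (fun i => if i ∈ PN (wk k) then α i else a i ω) =
        (ST H c (primorial (wk k)) (Ico J (2 * J)) (PI (wk k) (k ^ B)) fun p => a p ω).filter
          fun j => (Sw (T0.image fun t => (c + primorial (wk k) * j) + t) (PI (wk k) (k ^ B))
            fun p => a p ω).card ≤ sB ε B k := by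
      intro ω
      have h1 : base k σ (fun i => if i ∈ PN (wk k) then α i else a i ω) = c := by
        rw [hc]
        exact base_congr k σ _ _ fun p hp => if_pos hp
      have h2 : ∀ p ∈ PI (wk k) (k ^ B), (if p ∈ PN (wk k) then α p else a p ω) = a p ω := fun p hp =>
        if_neg fun h3 => disjoint_left.1 (PN_PI_disj _ _) h3 hp
      unfold Gd ps TS1
      rw [h1, ST_congr _ _ _ _ _ _ (fun p => a p ω) h2]
      refine filter_congr fun j _ => ?_
      rw [Sw_congr _ _ _ (fun p => a p ω) h2]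
    have hsub : {ω | ((Gd k (k ^ B) (sB ε B k) σ H T0 J
        (fun i => if i ∈ PN (wk k) then α i else a i ω)).card : ℝ) < c1 * J} ⊆
        {ω | ((ST H c (primorial (wk k)) (Ico J (2 * J)) (PI (wk k) (k ^ B)) fun p => a p ω).card : ℝ) ≤
          2 * c1 * J} ∪ {ω | c1 * J ≤ cnt (Ico J (2 * J)) E ω} := by
      intro ω hω
      have hω : ((Gd k (k ^ B) (sB ε B k) σ H T0 J
        (fun i => if i ∈ PN (wk k) then α i else a i ω)).card : ℝ) < c1 * J := hω
      rw [hGdα ω] at hω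
      rw [Set.mem_union]
      by_contra hcon
      rw [not_or] at hcon
      obtain ⟨h1, h2⟩ := hcon
      have h1 : 2 * c1 * J < ((ST H c (primorial (wk k)) (Ico J (2 * J)) (PI (wk k) (k ^ B)) fun p => a p ω).card : ℝ) :=
        not_le.1 h1
      have h2 : cnt (Ico J (2 * J)) E ω < c1 * J := not_le.1 h2
      rw [cnt_eq] at h2
      have h2 : (((Ico J (2 * J)).filter fun j => ω ∈ E j).card : ℝ) < c1 * J := by
        convert h2
      set S := ST H c (primorial (wk k)) (Ico J (2 * J)) (PI (wk k) (k ^ B)) fun p => a p ω with hS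
      have h3 := card_filter_add_card_filter_not (s := S) (fun j => (Sw (T0.image fun t =>
        (c + primorial (wk k) * j) + t) (PI (wk k) (k ^ B)) fun p => a p ω).card ≤ sB ε B k)
      have h4 : (S.filter fun j => ¬ (Sw (T0.image fun t =>
        (c + primorial (wk k) * j) + t) (PI (wk k) (k ^ B)) fun p => a p ω).card ≤ sB ε B k).card ≤
          ((Ico J (2 * J)).filter fun j => ω ∈ E j).card := by
        refine card_le_card fun j hj => ?_
        rw [mem_filter] at hj ⊢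
        refine ⟨?_, not_le.1 hj.2⟩
        have h5 := hj.1
        rw [hS] at h5
        unfold ST at h5
        exact (mem_filter.1 h5).1
      have h6 : (S.card : ℝ) ≤ ((S.filter fun j => (Sw (T0.image fun t =>
        (c + primorial (wk k) * j) + t) (PI (wk k) (k ^ B)) fun p => a p ω).card ≤ sB ε B k).card : ℝ) +
          (((Ico J (2 * J)).filter fun j => ω ∈ E j).card : ℝ) := by
        rw [← h3]
        push_cast
        have : ((S.filter fun j => ¬ (Sw (T0.image fun t =>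
          (c + primorial (wk k) * j) + t) (PI (wk k) (k ^ B)) fun p => a p ω).card ≤ sB ε B k).card : ℝ) ≤
            (((Ico J (2 * J)).filter fun j => ω ∈ E j).card : ℝ) := by exact_mod_cast h4
        linarith
      linarith
    refine (measureReal_mono hsub (measure_ne_top _ _)).trans ((measureReal_union_le _ _).trans ?_)
    have h1 := hmany H c J hH1 hHν hkJ
    have h2 : P.real {ω | c1 * J ≤ cnt (Ico J (2 * J)) E ω} ≤ 2 / c1 * Real.exp (-(m * Real.log k)) := by
      refine (markov_cnt _ E hEm _ (by positivity)).trans ?_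
      rw [div_le_iff₀ (by positivity)]
      have h3 : ∀ j ∈ Ico J (2 * J), P.real (E j) ≤ 2 * Real.exp (-(m * Real.log k)) := by
        intro j hj
        rw [mem_Ico] at hj
        have hq := primorial_pos (wk k)
        have : 1 ≤ primorial (wk k) * j := Nat.mul_pos hq (by omega)
        exact hbad T0 (c + primorial (wk k) * j) G (by omega) hT0 hG hT0c
      calc ∑ j ∈ Ico J (2 * J), P.real (E j) ≤ ∑ j ∈ Ico J (2 * J), 2 * Real.exp (-(m * Real.log k)) := sum_le_sum h3
        _ = J * (2 * Real.exp (-(m * Real.log k))) := by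
            rw [sum_const, Nat.card_Ico, nsmul_eq_mul]
            congr 2
            omega
        _ = 2 / c1 * Real.exp (-(m * Real.log k)) * (c1 * J) := by
            field_simp
    calc _ ≤ Real.exp (-(m * Real.log k)) + 2 / c1 * Real.exp (-(m * Real.log k)) := add_le_add h1 h2
      _ = _ := by ring

end prob

end Pool.Agent.H531.GP
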