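import Pool.Agent.H531.GP.Asm1

set_option autoImplicit false

/-!
# One pattern at one scale: the second and the third phase
-/

open Finset MeasureTheory ProbabilityTheory Filter Topology

namespace Pool.Agent.H531.GP

open Pool.Agent.T2H31.HV Pool.Agent.H531.SI Pool.Agent.H531.MS
open Pool.Agent.H531.CP hiding pos Par low_all ratio_all low_exp
open Pool.Agent.T2H32.BF hiding PI pos

section prob

variable {Ω : Type} [MeasurableSpace Ω] {P : Measure Ω} {a : ℕ → Ω → ℕ}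

theorem Gd_sub (k Y s1 : ℕ) (σ : ℕ → ℕ) (H T0 : Finset ℕ) (J : ℕ) (b : ℕ → ℕ) {j : ℕ}
    (hj : j ∈ Gd k Y s1 σ H T0 J b) : (J ≤ j ∧ j < 2 * J) ∧ (TS1 k Y T0 (ps k σ b j) b).card ≤ s1 := by
  unfold Gd at hj
  rw [mem_filter] at hj
  obtain ⟨h1, h2⟩ := hj
  unfold ST at h1
  exact ⟨mem_Ico.1 (mem_filter.1 h1).1, h2⟩

theorem ps_le (k : ℕ) (σ b : ℕ → ℕ) (J j G X : ℕ) (hj : j < 2 * J) (hX : primorial (wk k) * (2 * J) + G ≤ X) :
    ps k σ b j + G ≤ X := by
  have h1 := base_lt k σ b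
  unfold ps
  have h2 : primorial (wk k) * j + primorial (wk k) ≤ primorial (wk k) * (2 * J) := by
    calc primorial (wk k) * j + primorial (wk k) = primorial (wk k) * (j + 1) := by ring
      _ ≤ _ := Nat.mul_le_mul_left _ hj
  omega

/-- **Second phase.** -/
theorem claim2 (h : Model P a) (B ν : ℕ) (hB : 1 ≤ B) (ε : ℝ) (c1 : ℝ) (hc1 : 0 < c1) :
    ∀ᶠ k : ℕ in atTop, ∀ (σ : ℕ → ℕ) (H T0 : Finset ℕ) (G J Z X : ℕ), Par B k (k ^ B) Z (sB ε B k + ν) →
      Nat.log 2 X ≤ 3 * k → H.card ≤ ν → 1 ≤ J → T0 ⊆ range (G + 1) → (∀ u ∈ H, u ≤ G) → Disjoint T0 H →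
      G < k ^ B → G < primorial (wk k) → primorial (wk k) * (2 * J) + G ≤ X →
      P.real {ω | c1 * J ≤ ((Gd k (k ^ B) (sB ε B k) σ H T0 J fun p => a p ω).card : ℝ) ∧
          ((S2 k (k ^ B) (sB ε B k) Z σ H T0 J fun p => a p ω).card : ℝ) <
            vB (k ^ B) Z ^ (2 * ν) / 2 * (c1 * J * (1 - dB k (k ^ B) Z) ^ (sB ε B k + ν))} ≤
        2 ^ ν * ((1 / (c1 * J * (1 - dB k (k ^ B) Z) ^ (sB ε B k + ν)) +
          (Real.exp (((sB ε B k + ν : ℕ) : ℝ) ^ 3 * Nat.log 2 X / ((k ^ B : ℕ) : ℝ)) - 1)) /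
          (vB (k ^ B) Z ^ (2 * ν) / 2 ^ (ν + 1)) ^ 2) := by
  classical
  have := prob h
  filter_upwards [ph2_fixed h B ν, wk_le, dB_small B (1 / 2) (by norm_num), eventually_ge_atTop 1]
    with k hph hwk hds hk1
  intro σ H T0 G J Z X hpar hX hH hJ hT0 hHG hTH hGY hGq hqX
  set Y := k ^ B with hY
  set s1 := sB ε B k with hs1
  set s := s1 + ν with hs
  have hwY : wk k ≤ Y := hwk.trans (Nat.le_self_pow (by omega) k)
  have hd := hds Y Z s hpar
  have hd0 := dB_pos k Y Z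
  have hv0 := vB_pos Y Z
  have h1d : 0 < 1 - dB k Y Z := by linarith
  have hJ0 : (0 : ℝ) < J := by exact_mod_cast hJ
  have hY0 : (0 : ℝ) < Y := by
    have : 0 < Y := by rw [hY]; positivity
    exact_mod_cast this
  set ξ := Real.exp ((s : ℝ) ^ 3 * Nat.log 2 X / Y) - 1 with hξ
  have hξ0 : 0 ≤ ξ := by
    have : 1 ≤ Real.exp ((s : ℝ) ^ 3 * Nat.log 2 X / Y) := Real.one_le_exp (by positivity)
    linarith
  set β := vB Y Z ^ (2 * ν) with hβ
  have hβ0 : 0 < β := by positivity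
  set m0 : ℝ := c1 * J * (1 - dB k Y Z) ^ s with hm0
  have hm00 : 0 < m0 := by positivity
  have hbd0 : 0 ≤ 2 ^ ν * ((1 / m0 + ξ) / (β / 2 ^ (ν + 1)) ^ 2) := by positivity
  have hun : PN Y ∪ PI Y Z = PN Z := (PN_union Y Z hpar.hYZ).symm
  refine cond_one h (PN Y) (PI Y Z) (PN_PI_disj _ _)
    (fun b => c1 * J ≤ ((Gd k Y s1 σ H T0 J b).card : ℝ) ∧ ((S2 k Y s1 Z σ H T0 J b).card : ℝ) < β / 2 * m0)
    ?_ _ hbd0 ?_
  · intro b b' hb
    rw [hun] at hb
    rw [S2_congr k Y s1 Z σ H T0 J b b' hwY hpar.hYZ hb, Gd_congr k Y s1 σ H T0 J b b' hwY (fun p hp => hb p (by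
      rw [mem_PN] at hp ⊢
      exact ⟨hp.1.trans hpar.hYZ, hp.2⟩))]
  · intro α
    have hY1 : ∀ ω, ∀ p ∈ PN Y, (if p ∈ PN Y then α p else a p ω) = α p := fun ω p hp => if_pos hp
    have hGdα : ∀ ω, Gd k Y s1 σ H T0 J (fun i => if i ∈ PN Y then α i else a i ω) = Gd k Y s1 σ H T0 J α :=
      fun ω => Gd_congr k Y s1 σ H T0 J _ _ hwY (hY1 ω)
    set I := Gd k Y s1 σ H T0 J α with hI
    set n : ℕ → ℕ := fun j => ps k σ α j with hn
    set T : ℕ → Finset ℕ := fun j => TS1 k Y T0 (n j) α with hT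
    have hS2α : ∀ ω, S2 k Y s1 Z σ H T0 J (fun i => if i ∈ PN Y then α i else a i ω) =
        I.filter fun j => C2 Y Z (T j) (H.image fun u => n j + u) fun p => a p ω := by
      intro ω
      unfold S2
      rw [hGdα ω]
      refine filter_congr fun j _ => ?_
      rw [ps_congr k σ _ α j fun p hp => hY1 ω p (by
        rw [mem_PN] at hp ⊢
        exact ⟨hp.1.trans hwY, hp.2⟩), TS1_congr k Y T0 _ _ α fun p hp => hY1 ω p (by
        rw [mem_PI] at hp
        rw [mem_PN]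
        exact ⟨hp.1.2, hp.2⟩)]
      exact C2_congr Y Z _ _ _ _ fun p hp => if_neg fun h3 => disjoint_left.1 (PN_PI_disj _ _) h3 hp
    by_cases hc : c1 * J ≤ (I.card : ℝ)
    · have hI1 : 1 ≤ I.card := by
        have : (0 : ℝ) < I.card := lt_of_lt_of_le (by positivity) hc
        exact_mod_cast this
      have hTsub : ∀ j, T j ⊆ T0.image fun t => n j + t := fun j => by
        simp only [hT, TS1]
        exact filter_subset _ _
      have key := hph Y Z X s hpar hX H I T n G hH hGY (fun j _ => by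
        refine (hTsub j).trans fun x hx => ?_
        rw [mem_image] at hx
        obtain ⟨t, ht, rfl⟩ := hx
        have := mem_range.1 (hT0 ht)
        rw [mem_Icc]
        omega) hHG (fun j _ => by
        refine disjoint_of_subset_left (hTsub j) ?_
        rw [disjoint_left]
        intro x hx hx'
        rw [mem_image] at hx hx'
        obtain ⟨t, ht, rfl⟩ := hx
        obtain ⟨u, hu, he⟩ := hx'
        have : u = t := by omega
        exact disjoint_left.1 hTH ht (this ▸ hu)) (fun i _ j _ hij => ps_disj k σ α G hGq i j hij)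
        (fun j hj => ps_le k σ α J j G X (Gd_sub k Y s1 σ H T0 J α hj).1.2 hqX) (fun j hj => by
          have := (Gd_sub k Y s1 σ H T0 J α hj).2
          have e : (T j).card = (TS1 k Y T0 (ps k σ α j) α).card := rfl
          omega) hI1
      refine le_trans (measureReal_mono ?_ (measure_ne_top _ _)) (key.trans ?_)
      · intro ω hω
        obtain ⟨-, hω2⟩ := hω
        rw [hS2α ω] at hω2
        show cnt I _ ω < _
        rw [cnt_eq]
        have e : (I.filter fun j => ω ∈ Kill a (T j) (PI Y Z) ∩ Surv a (PI Y Z) (H.image fun u => n j + u)) =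
            I.filter fun j => C2 Y Z (T j) (H.image fun u => n j + u) fun p => a p ω :=
          filter_congr fun j _ => Iff.rfl
        have e2 : (((I.filter fun j => ω ∈ Kill a (T j) (PI Y Z) ∩
            Surv a (PI Y Z) (H.image fun u => n j + u)).card : ℕ) : ℝ) < β / 2 * m0 := by
          rw [e]
          exact hω2
        refine lt_of_lt_of_le (lt_of_eq_of_lt ?_ e2) (show β / 2 * m0 ≤ β / 2 * (I.card * (1 - dB k Y Z) ^ s) by
          rw [hm0]
          gcongr)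
        congr!
      · have h1 : 1 / ((I.card : ℝ) * (1 - dB k Y Z) ^ s) ≤ 1 / m0 := by
          apply one_div_le_one_div_of_le hm00
          rw [hm0]
          gcongr
        gcongr
    · have hempty : {ω | c1 * J ≤ ((Gd k Y s1 σ H T0 J (fun i => if i ∈ PN Y then α i else a i ω)).card : ℝ) ∧
          ((S2 k Y s1 Z σ H T0 J (fun i => if i ∈ PN Y then α i else a i ω)).card : ℝ) < β / 2 * m0} = ∅ := by
        ext ω
        simp only [Set.mem_ofPred_eq, Set.mem_empty_iff_false, iff_false]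
        rintro ⟨h3, -⟩
        rw [hGdα ω] at h3
        exact hc h3
      rw [hempty]
      simp only [measureReal_empty]
      exact hbd0

/-- **Third phase.** -/
theorem claim3 (h : Model P a) (ν : ℕ) (k Y s1 : ℕ) (σ : ℕ → ℕ) (H T0 : Finset ℕ) (G J Z Z' X : ℕ)
    (hwY : wk k ≤ Y) (hYZ : Y ≤ Z) (hZ1 : 1 ≤ Z) (hZZ : Z ≤ Z') (hνZ : 2 * ν ≤ Z) (hH : H.card ≤ ν) (hHG : ∀ u ∈ H, u ≤ G)
    (hGZ : G < Z) (hGq : G < primorial (wk k)) (hqX : primorial (wk k) * (2 * J) + G ≤ X) (m2 : ℝ) (hm2 : 0 < m2) :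
    P.real {ω | m2 ≤ ((S2 k Y s1 Z σ H T0 J fun p => a p ω).card : ℝ) ∧
        ∀ j ∈ S2 k Y s1 Z σ H T0 J fun p => a p ω,
          ¬ C3 Z Z' (H.image fun u => ps k σ (fun p => a p ω) j + u) fun p => a p ω} ≤
      1 / (m2 * (V Z' / V Z) ^ (2 * ν)) + (Real.exp (2 * ν ^ 3 * Nat.log 2 X / Z) - 1) := by
  classical
  have := prob h
  have hVZ := V_pos Z
  have hVZ' := V_pos Z'
  have hZ0 : (0 : ℝ) < Z := by exact_mod_cast hZ1
  have hξ : 0 ≤ Real.exp (2 * (ν : ℝ) ^ 3 * Nat.log 2 X / Z) - 1 := by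
    have : 1 ≤ Real.exp (2 * (ν : ℝ) ^ 3 * Nat.log 2 X / Z) := Real.one_le_exp (by positivity)
    linarith
  have hbd0 : 0 ≤ 1 / (m2 * (V Z' / V Z) ^ (2 * ν)) + (Real.exp (2 * ν ^ 3 * Nat.log 2 X / Z) - 1) := by
    have : 0 ≤ 1 / (m2 * (V Z' / V Z) ^ (2 * ν)) := by positivity
    linarith
  have hun : PN Z ∪ PI Z Z' = PN Z' := (PN_union Z Z' hZZ).symm
  have hPN : ∀ p ∈ PN (wk k), p ∈ PN Z := fun p hp => by
    rw [mem_PN] at hp ⊢
    exact ⟨hp.1.trans (hwY.trans hYZ), hp.2⟩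
  refine cond_one h (PN Z) (PI Z Z') (PN_PI_disj _ _)
    (fun b => m2 ≤ ((S2 k Y s1 Z σ H T0 J b).card : ℝ) ∧
        ∀ j ∈ S2 k Y s1 Z σ H T0 J b, ¬ C3 Z Z' (H.image fun u => ps k σ b j + u) b) ?_ _ hbd0 ?_
  · intro b b' hb
    have hb1 : ∀ p ∈ PN Z, b p = b' p := fun p hp => hb p (mem_union_left _ hp)
    have e1 := S2_congr k Y s1 Z σ H T0 J b b' hwY hYZ hb1
    have e2 : ∀ j, ps k σ b j = ps k σ b' j := fun j => ps_congr k σ b b' j fun p hp => hb1 p (hPN p hp)
    simp only [e1, e2]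
    refine and_congr_right fun _ => forall_congr' fun j => forall_congr' fun _ => not_congr ?_
    exact C3_congr Z Z' _ b b' fun p hp => hb p (mem_union_right _ hp)
  · intro α
    have hY1 : ∀ ω, ∀ p ∈ PN Z, (if p ∈ PN Z then α p else a p ω) = α p := fun ω p hp => if_pos hp
    have e1 : ∀ ω, S2 k Y s1 Z σ H T0 J (fun i => if i ∈ PN Z then α i else a i ω) = S2 k Y s1 Z σ H T0 J α :=
      fun ω => S2_congr k Y s1 Z σ H T0 J _ _ hwY hYZ (hY1 ω)
    have e2 : ∀ ω j, ps k σ (fun i => if i ∈ PN Z then α i else a i ω) j = ps k σ α j := fun ω j =>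
      ps_congr k σ _ _ j fun p hp => hY1 ω p (hPN p hp)
    set I := S2 k Y s1 Z σ H T0 J α with hI
    by_cases hc : m2 ≤ (I.card : ℝ)
    · have key := ph3_fixed h ν Z Z' X hZ1 hZZ hνZ H I (fun j => ps k σ α j) G hH hGZ hHG
        (fun i _ j _ hij => ps_disj k σ α G hGq i j hij) (fun j hj => by
          rw [hI] at hj
          unfold S2 at hj
          exact ps_le k σ α J j G X (Gd_sub k Y s1 σ H T0 J α (mem_filter.1 hj).1).1.2 hqX) m2 hm2 hc
      refine le_trans (measureReal_mono ?_ (measure_ne_top _ _)) key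
      intro ω hω
      obtain ⟨-, hω2⟩ := hω
      rw [e1 ω] at hω2
      intro j hj hS
      have h3 := hω2 j hj
      rw [e2 ω j] at h3
      apply h3
      intro p hp u hu
      show u % p ≠ if p ∈ PN Z then α p else a p ω
      rw [if_neg fun h3 => disjoint_left.1 (PN_PI_disj _ _) h3 hp]
      exact hS p hp u hu
    · have hempty : {ω | m2 ≤ ((S2 k Y s1 Z σ H T0 J (fun i => if i ∈ PN Z then α i else a i ω)).card : ℝ) ∧
          ∀ j ∈ S2 k Y s1 Z σ H T0 J (fun i => if i ∈ PN Z then α i else a i ω),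
            ¬ C3 Z Z' (H.image fun u => ps k σ (fun i => if i ∈ PN Z then α i else a i ω) j + u)
              (fun i => if i ∈ PN Z then α i else a i ω)} = ∅ := by
        ext ω
        simp only [Set.mem_ofPred_eq, Set.mem_empty_iff_false, iff_false]
        rintro ⟨h3, -⟩
        rw [e1 ω] at h3
        exact hc h3
      rw [hempty]
      simp only [measureReal_empty]
      exact hbd0

end prob

end Pool.Agent.H531.GP
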