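import Pool.Agent.H531.GP.Asm2
import Pool.Agent.H531.CP.Fin

set_option autoImplicit false

/-!
# One pattern at one scale: the parameters
-/

open Finset MeasureTheory ProbabilityTheory Filter Topology

namespace Pool.Agent.H531.GP

open Pool.Agent.T2H31.HV Pool.Agent.H531.SI Pool.Agent.H531.MS
open Pool.Agent.H531.CP hiding pos Par low_all ratio_all low_exp
open Pool.Agent.T2H32.BF hiding PI pos

theorem Scl_E : Scl E := by
  constructor
  · filter_upwards with k
    have := log_E_lower k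
    linarith
  · filter_upwards with k
    have := log_E_upper k
    linarith

theorem wk_small (δ : ℝ) (hδ : 0 < δ) : ∀ᶠ k : ℕ in atTop, (wk k : ℝ) ≤ δ * k := by
  have hlog : Tendsto (fun k : ℕ => Real.log k) atTop atTop := Real.tendsto_log_atTop.comp tendsto_natCast_atTop_atTop
  filter_upwards [hlog.eventually_ge_atTop (max 1 (2 / δ)), eventually_ge_atTop 1] with k h1 h2
  have hk1 : (1 : ℝ) ≤ k := by exact_mod_cast h2
  have hl1 : 1 ≤ Real.log k := (le_max_left _ _).trans h1
  have hlδ : 2 / δ ≤ Real.log k := (le_max_right _ _).trans h1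
  obtain ⟨h3, h4⟩ := l1E k
  obtain ⟨h5, -⟩ := l2E k h2
  have h6 : (wk k : ℝ) ≤ l1 (E k) / l2 (E k) := Nat.floor_le (div_nonneg (by linarith) (by linarith))
  refine h6.trans ?_
  rw [div_le_iff₀ (by linarith)]
  rw [div_le_iff₀ hδ] at hlδ
  have h7 : δ * k * Real.log k ≤ δ * k * l2 (E k) := by gcongr
  nlinarith

theorem q_small (δ : ℝ) (hδ : 0 < δ) : ∀ᶠ k : ℕ in atTop, (primorial (wk k) : ℝ) ≤ Real.exp (δ * k) := by
  filter_upwards [wk_small (δ / 2) (by positivity)] with k h1
  have h2 : (primorial (wk k) : ℝ) ≤ (4 : ℝ) ^ (wk k) := by exact_mod_cast primorial_le_four_pow (wk k)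
  refine h2.trans ?_
  have h3 : (4 : ℝ) ^ (wk k) = Real.exp (Real.log 4 * wk k) := by
    rw [mul_comm, Real.exp_nat_mul, Real.exp_log (by norm_num)]
  rw [h3]
  apply Real.exp_le_exp.2
  have h4 : Real.log 4 ≤ 2 := by
    have e : Real.log 4 = 2 * Real.log 2 := by
      rw [show (4 : ℝ) = 2 ^ 2 by norm_num, Real.log_pow]
      norm_num
    rw [e]
    have := Real.log_two_lt_d9
    linarith
  have h5 : Real.log 4 * wk k ≤ 2 * (δ / 2 * k) := by gcongr
  linarith

theorem q_large : ∀ᶠ k : ℕ in atTop, 3 * k ^ 2 < primorial (wk k) := by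
  have hwtop : Tendsto wk atTop atTop := ww_nat.comp E_top
  have h1 := Pool.Agent.Helper601.PNT.theta_div_tendsto.comp (tendsto_natCast_atTop_atTop (R := ℝ))
  have h2 := hwtop.eventually (h1.eventually_const_lt (show (1 : ℝ) / 2 < 1 by norm_num))
  have hlog : Tendsto (fun k : ℕ => Real.log k) atTop atTop := Real.tendsto_log_atTop.comp tendsto_natCast_atTop_atTop
  filter_upwards [h2, hwtop.eventually_ge_atTop 1, wV_large 1 one_pos 10, hlog.eventually_ge_atTop 4,
    eventually_ge_atTop 2] with k h3 h4 h5 h6 h7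
  have hw0 : (0 : ℝ) < wk k := by exact_mod_cast (by omega : 0 < wk k)
  have hk0 : (0 : ℝ) < k := by exact_mod_cast (by omega : 0 < k)
  simp only [Function.comp] at h3
  rw [lt_div_iff₀ hw0, Chebyshev.theta_eq_log_primorial, Nat.floor_natCast] at h3
  have h8 : (0 : ℝ) < primorial (wk k) := by exact_mod_cast primorial_pos (wk k)
  have h9 : (wk k : ℝ) * V (wk k) ≤ wk k := mul_le_of_le_one_right hw0.le (V_le_one _)
  have h10 : 4 * Real.log k < Real.log (primorial (wk k)) := by
    push_cast at h5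
    linarith
  have h11 : (k : ℝ) ^ 4 < primorial (wk k) := by
    have : Real.log ((k : ℝ) ^ 4) < Real.log (primorial (wk k)) := by
      rw [Real.log_pow]
      push_cast
      exact h10
    exact (Real.log_lt_log_iff (by positivity) h8).1 this
  have h12 : 3 * (k : ℝ) ^ 2 ≤ (k : ℝ) ^ 4 := by
    have h13 : (2 : ℝ) ≤ k := by exact_mod_cast h7
    have : (3 : ℝ) ≤ (k : ℝ) ^ 2 := by nlinarith
    nlinarith [sq_nonneg (k : ℝ)]
  have h13 : ((3 * k ^ 2 : ℕ) : ℝ) < primorial (wk k) := by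
    push_cast
    linarith
  exact_mod_cast h13

section limits

variable (z : ℕ → ℕ) (hzV : Tendsto (fun n => V (z n) * Real.log n) atTop (𝓝 1)) (hzt : Tendsto z atTop atTop)

include hzV

theorem YB_le_z (B : ℕ) {n : ℕ → ℕ} (hn : Scl n) : ∀ᶠ k : ℕ in atTop, k ^ B ≤ z (n k) := by
  obtain ⟨n0, hn0⟩ := eventually_atTop.1 V_ge_log
  filter_upwards [V_scl z hzV hn 1 one_pos, eventually_ge_atTop n0, log_small (1 / (8 * (B + 1))) (by positivity),
    eventually_ge_atTop 2] with k h1 h2 h3 h4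
  by_contra hcon
  push Not at hcon
  have hk : (2 : ℝ) ≤ k := by exact_mod_cast h4
  have hB0 : (0 : ℝ) ≤ B := Nat.cast_nonneg B
  have hl : 0 < Real.log k := Real.log_pos (by linarith)
  have hY : k ^ B ≤ k ^ (B + 1) := Nat.pow_le_pow_right (by omega) (by omega)
  have h5 : V (k ^ (B + 1)) ≤ V (z (n k)) := V_anti (hcon.le.trans hY)
  have h6 := hn0 (k ^ (B + 1)) (h2.trans (Nat.le_self_pow (by omega) k))
  have hYl : Real.log ((k ^ (B + 1) : ℕ) : ℝ) = (B + 1) * Real.log k := by
    push_cast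
    rw [Real.log_pow]
    push_cast
    ring
  rw [hYl] at h6
  have h7 : 1 / (2 * ((B + 1) * Real.log k)) ≤ (1 + 1) / (k : ℝ) := (h6.trans h5).trans h1.2
  rw [div_le_div_iff₀ (by positivity) (by linarith)] at h7
  have h8 : Real.log k * (8 * (B + 1)) ≤ k := by
    have := mul_le_mul_of_nonneg_right h3 (show (0 : ℝ) ≤ 8 * (B + 1) by positivity)
    have e : 1 / (8 * ((B : ℝ) + 1)) * k * (8 * (B + 1)) = k := by field_simp
    linarith
  have h9 : 0 < (B + 1) * Real.log k := by positivity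
  linarith

include hzt

theorem par_B (B ν : ℕ) (hB : 20 ≤ B) (ε : ℝ) (hε : 0 < ε) (hε1 : ε ≤ 1) : ∀ᶠ k : ℕ in atTop,
    Par B k (k ^ B) (z (E k / 8)) (sB ε B k + ν) := by
  have hlog : Tendsto (fun k : ℕ => Real.log k) atTop atTop := Real.tendsto_log_atTop.comp tendsto_natCast_atTop_atTop
  obtain ⟨n0, hn0⟩ := eventually_atTop.1 V_ge_log
  have hsq : ∀ᶠ k : ℕ in atTop, 2000 * ((B : ℝ) + 1) * Real.log k ^ 2 ≤ k := by
    have h1 : Tendsto (fun x : ℝ => Real.log x ^ 2 / x) atTop (𝓝 0) := by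
      have := Real.tendsto_pow_log_div_mul_add_atTop 1 0 2 one_ne_zero
      simpa using this
    have h2 := h1.comp tendsto_natCast_atTop_atTop
    have h3 : 0 < 1 / (2000 * ((B : ℝ) + 1)) := by positivity
    filter_upwards [h2.eventually_lt_const h3, eventually_ge_atTop 1] with k h4 h5
    have hk0 : (0 : ℝ) < k := by exact_mod_cast h5
    simp only [Function.comp] at h4
    rw [div_lt_iff₀ hk0] at h4
    have := mul_le_mul_of_nonneg_left h4.le (show (0 : ℝ) ≤ 2000 * (B + 1) by positivity)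
    have e : 2000 * ((B : ℝ) + 1) * (1 / (2000 * (B + 1)) * k) = k := by field_simp
    linarith
  filter_upwards [YB_le_z z hzV B Scl_eighth, log_z_le z hzV Scl_eighth hzt, V_scl z hzV Scl_eighth (1 / 2) (by norm_num),
    eventually_ge_atTop n0, hsq, hlog.eventually_ge_atTop 1, eventually_ge_atTop (4 * ν + 4)] with k h1 h2 h3 h4 h5 h6 h7
  have hkν : (4 * (ν : ℝ) + 4) ≤ k := by exact_mod_cast h7
  have hν0 : (0 : ℝ) ≤ ν := Nat.cast_nonneg ν
  have hk4 : (4 : ℝ) ≤ k := by linarith
  have hk0 : (0 : ℝ) < k := by linarith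
  have hk1 : 1 ≤ k := by omega
  have hB0 : (20 : ℝ) ≤ B := by exact_mod_cast hB
  have hl0 : 0 < Real.log k := by linarith
  set Y := k ^ B with hY
  have hkY : k ≤ Y := Nat.le_self_pow (by omega) k
  have hYl : Real.log (Y : ℝ) = B * Real.log k := by
    rw [hY]
    push_cast
    rw [Real.log_pow]
  have hVY := V_pos Y
  have hVY1 : 1 / (2 * (B * Real.log k)) ≤ V Y := by
    have := hn0 Y (h4.trans hkY)
    rwa [hYl] at this
  -- `k ^ 2 V Y` is large
  have hbig : 400 * k * Real.log k + 1 ≤ (1 - ε / 16) * (k ^ 2 * V Y) := by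
    have h8 : (k : ℝ) ^ 2 * (1 / (2 * (B * Real.log k))) ≤ k ^ 2 * V Y := by gcongr
    have h9 : 400 * k * Real.log k + 1 ≤ 1 / 2 * ((k : ℝ) ^ 2 * (1 / (2 * (B * Real.log k)))) := by
      have e : 1 / 2 * ((k : ℝ) ^ 2 * (1 / (2 * (B * Real.log k)))) = k ^ 2 / (4 * B * Real.log k) := by
        field_simp
        norm_num
      rw [e, le_div_iff₀ (by positivity)]
      have h10 : 400 * (k : ℝ) * Real.log k + 1 ≤ 401 * k * Real.log k := by nlinarith
      calc (400 * (k : ℝ) * Real.log k + 1) * (4 * B * Real.log k) ≤ (401 * k * Real.log k) * (4 * B * Real.log k) := by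
            gcongr
        _ = k * (1604 * B * Real.log k ^ 2) := by ring
        _ ≤ k * (2000 * (B + 1) * Real.log k ^ 2) := by
            gcongr
            · linarith
            · linarith
        _ ≤ k * k := by gcongr
        _ = (k : ℝ) ^ 2 := by ring
    have h10 : 1 / 2 * ((k : ℝ) ^ 2 * (1 / (2 * (B * Real.log k)))) ≤ (1 - ε / 16) * (k ^ 2 * V Y) := by
      apply mul_le_mul (by linarith) h8 (by positivity) (by linarith)
    linarith
  have hsu : ((sB ε B k : ℕ) : ℝ) ≤ (1 - ε / 16) * (k ^ 2 * V Y) := Nat.floor_le (by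
    have : 0 ≤ (k : ℝ) ^ 2 * V Y := by positivity
    have h8 : 0 ≤ 1 - ε / 16 := by linarith
    positivity)
  have hsl : (1 - ε / 16) * (k ^ 2 * V Y) < ((sB ε B k : ℕ) : ℝ) + 1 := Nat.lt_floor_add_one _
  have hkV : (k : ℝ) ≤ k ^ 2 * V Y := by
    have : (1 - ε / 16) * ((k : ℝ) ^ 2 * V Y) ≤ k ^ 2 * V Y := by
      have : 0 ≤ (k : ℝ) ^ 2 * V Y := by positivity
      nlinarith
    nlinarith
  have hV2 : V Y ≤ 1 / 2 := by
    have h8 : V Y ≤ V 2 := V_anti (by omega)
    have h9 : V 2 = 1 / 2 := by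
      have e : (range (2 + 1)).filter Nat.Prime = {2} := by decide
      unfold V
      rw [e, prod_singleton]
      norm_num
    rw [h9] at h8
    exact h8
  have hle : (1 - ε / 16) * ((k : ℝ) ^ 2 * V Y) ≤ k ^ 2 * V Y := by
    have : 0 ≤ (k : ℝ) ^ 2 * V Y := by positivity
    nlinarith
  refine ⟨Nat.pow_le_pow_right (by omega) hB, le_rfl, h1, h2, ?_, ?_, ?_, ?_, ?_⟩
  · refine le_trans (le_of_eq ?_) h3.1
    field_simp
    norm_num
  · refine h3.2.trans ?_
    gcongr
    norm_num
  · push_cast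
    linarith
  · push_cast
    linarith
  · have h8 : ((sB ε B k + ν : ℕ) : ℝ) ≤ (k : ℝ) ^ 2 := by
      push_cast
      have h9 : (k : ℝ) ^ 2 * V Y ≤ k ^ 2 * (1 / 2) := by gcongr
      nlinarith
    exact_mod_cast h8

omit hzt in
/-- the ratio of the last densities -/
theorem ratio_last : ∀ᶠ k : ℕ in atTop, 1 / 4 ≤ V (z (E k)) / V (z (E k / 8)) := by
  filter_upwards [V_scl z hzV Scl_E (1 / 2) (by norm_num), V_scl z hzV Scl_eighth (1 / 2) (by norm_num),
    eventually_ge_atTop 1] with k h1 h2 h3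
  have hk0 : (0 : ℝ) < k := by exact_mod_cast h3
  have hV := V_pos (z (E k / 8))
  rw [le_div_iff₀ hV]
  have h4 := h2.2
  have h5 := h1.1
  have e : (1 - 1 / 2) / (k : ℝ) = 1 / 3 * ((1 + 1 / 2) / k) := by
    field_simp
    norm_num
  rw [e] at h5
  have h6 : 0 < (1 + 1 / 2) / (k : ℝ) := by positivity
  linarith

/-- the number of pairs is large -/
theorem mass (B ν : ℕ) (hB : 20 ≤ B) (ε : ℝ) (hε : 0 < ε) (hε1 : ε ≤ 1) (c1 : ℝ) (hc1 : 0 < c1) :
    ∀ᶠ k : ℕ in atTop, Real.exp (ε / 100 * k) ≤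
      c1 * ((E k / (4 * primorial (wk k)) : ℕ) : ℝ) * (1 - dB k (k ^ B) (z (E k / 8))) ^ (sB ε B k + ν) := by
  filter_upwards [par_B z hzV hzt B ν hB ε hε hε1, low_exp B (ε / 100) (by positivity), q_small (ε / 64) (by positivity),
    vB_small B (1 / (ν + 1)) (by positivity), V_scl z hzV Scl_eighth (ε / 100) (by positivity),
    exp_beats 0 (c1 / 8) (ε / 64 - ε / 100) (by positivity) (by linarith),
    (tendsto_natCast_atTop_atTop (R := ℝ)).eventually_ge_atTop (400 / ε), q_small (1 / 4) (by norm_num),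
    (tendsto_natCast_atTop_atTop (R := ℝ)).eventually_ge_atTop 10]
    with k hpar hlow hq hv hVz hbeat hkε hq4 hk10
  have hk0 : (0 : ℝ) < k := by linarith
  set Y := k ^ B with hY
  set Z := z (E k / 8) with hZ
  set s := sB ε B k + ν with hs
  have hVY := V_pos Y
  have hVZ := V_pos Z
  have hvB0 := vB_pos Y Z
  have h1 := hlow Y Z s hpar
  have h2 := hv Y Z s hpar
  have hsu : ((sB ε B k : ℕ) : ℝ) ≤ (1 - ε / 16) * (k ^ 2 * V Y) := Nat.floor_le (by
    have : 0 ≤ (k : ℝ) ^ 2 * V Y := by positivity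
    have h8 : 0 ≤ 1 - ε / 16 := by linarith
    positivity)
  have h3 : (s : ℝ) * vB Y Z ≤ (1 - ε / 16) * (1 + ε / 100) * k + 1 := by
    have h4 : (ν : ℝ) * vB Y Z ≤ 1 := by
      calc (ν : ℝ) * vB Y Z ≤ (ν + 1) * (1 / (ν + 1)) := by gcongr; linarith
        _ = 1 := by field_simp
    have h5 : ((sB ε B k : ℕ) : ℝ) * vB Y Z ≤ (1 - ε / 16) * (1 + ε / 100) * k := by
      calc ((sB ε B k : ℕ) : ℝ) * vB Y Z ≤ (1 - ε / 16) * (k ^ 2 * V Y) * (V Z / V Y) := by
            unfold vB
            gcongr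
        _ = (1 - ε / 16) * (k ^ 2 * V Z) := by field_simp
        _ ≤ (1 - ε / 16) * (k ^ 2 * ((1 + ε / 100) / k)) := by
            have h6 : 0 ≤ 1 - ε / 16 := by linarith
            have := hVz.2
            gcongr
        _ = (1 - ε / 16) * (1 + ε / 100) * k := by field_simp
    have e : (s : ℝ) * vB Y Z = ((sB ε B k : ℕ) : ℝ) * vB Y Z + ν * vB Y Z := by
      rw [hs]
      push_cast
      ring
    rw [e]
    linarith
  have h4 : (1 + ε / 100) * ((s : ℝ) * vB Y Z) ≤ (1 - ε / 32) * k := by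
    rw [div_le_iff₀ hε] at hkε
    calc (1 + ε / 100) * ((s : ℝ) * vB Y Z) ≤ (1 + ε / 100) * ((1 - ε / 16) * (1 + ε / 100) * k + 1) := by gcongr
      _ ≤ (1 - ε / 32) * k := by nlinarith [mul_pos hε hk0, mul_pos (mul_pos hε hε) hk0, mul_pos (mul_pos (mul_pos hε hε) hε) hk0]
  have h5 : Real.exp (-((1 - ε / 32) * k)) ≤ (1 - dB k Y Z) ^ s := by
    refine le_trans ?_ h1
    apply Real.exp_le_exp.2
    linarith
  -- the number of positions
  have hqpos : 0 < primorial (wk k) := primorial_pos _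
  have hq0 : (0 : ℝ) < primorial (wk k) := by exact_mod_cast hqpos
  have hEl := E_lower k
  have hJ : Real.exp ((1 - ε / 64) * k) / 8 ≤ ((E k / (4 * primorial (wk k)) : ℕ) : ℝ) := by
    have h6 : (E k : ℝ) / (4 * primorial (wk k)) < ((E k / (4 * primorial (wk k)) : ℕ) : ℝ) + 1 := by
      have := Nat.lt_floor_add_one ((E k : ℝ) / ((4 * primorial (wk k) : ℕ) : ℝ))
      rw [Nat.floor_div_eq_div] at this
      push_cast at this
      exact this
    have h7 : 2 ≤ (E k : ℝ) / (4 * primorial (wk k)) := by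
      rw [le_div_iff₀ (by positivity)]
      have h8 : 8 * Real.exp (1 / 4 * k) ≤ Real.exp k := by
        have e : Real.exp (k : ℝ) = Real.exp (3 / 4 * k) * Real.exp (1 / 4 * k) := by
          rw [← Real.exp_add]
          congr 1
          ring
        rw [e]
        apply mul_le_mul_of_nonneg_right _ (Real.exp_pos _).le
        have h9 := Real.add_one_le_exp (3 / 4 * (k : ℝ))
        linarith
      linarith
    have h8 : Real.exp ((1 - ε / 64) * k) / 4 ≤ (E k : ℝ) / (4 * primorial (wk k)) := by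
      rw [div_le_div_iff₀ (by norm_num) (by positivity)]
      have e : Real.exp ((1 - ε / 64) * k) * Real.exp (ε / 64 * k) = Real.exp k := by
        rw [← Real.exp_add]
        congr 1
        ring
      calc Real.exp ((1 - ε / 64) * k) * (4 * (primorial (wk k) : ℝ)) ≤
            Real.exp ((1 - ε / 64) * k) * (4 * Real.exp (ε / 64 * k)) := by gcongr
        _ = Real.exp k * 4 := by rw [← e]; ring
        _ ≤ E k * 4 := by gcongr
    linarith
  have h6 : (1 : ℝ) ≤ c1 / 8 * Real.exp ((ε / 64 - ε / 100) * k) := by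
    have := hbeat
    rwa [pow_zero] at this
  calc Real.exp (ε / 100 * k) ≤ Real.exp (ε / 100 * k) * (c1 / 8 * Real.exp ((ε / 64 - ε / 100) * k)) :=
        le_mul_of_one_le_right (Real.exp_pos _).le h6
    _ = c1 / 8 * Real.exp (ε / 64 * k) := by
        have e : Real.exp (ε / 64 * k) = Real.exp (ε / 100 * k) * Real.exp ((ε / 64 - ε / 100) * k) := by
          rw [← Real.exp_add]
          congr 1
          ring
        rw [e]
        ring
    _ = c1 * (Real.exp ((1 - ε / 64) * k) / 8) * Real.exp (-((1 - ε / 32) * k)) := by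
        have e : Real.exp (ε / 64 * k) = Real.exp ((1 - ε / 64) * k) * Real.exp (-((1 - ε / 32) * k)) := by
          rw [← Real.exp_add]
          congr 1
          ring
        rw [e]
        ring
    _ ≤ _ := by gcongr

end limits

end Pool.Agent.H531.GP
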