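import Pool.Agent.H531.GP.Asm3

set_option autoImplicit false

/-!
# One pattern at one scale
-/

open Finset MeasureTheory ProbabilityTheory Filter Topology

namespace Pool.Agent.H531.GP

open Pool.Agent.T2H31.HV Pool.Agent.H531.SI Pool.Agent.H531.MS
open Pool.Agent.H531.CP hiding pos Par low_all ratio_all low_exp
open Pool.Agent.T2H32.BF hiding PI pos

/-- the pattern `H` occurs at the scale `k`: for some `n`, the elements of `R` in `[n, n + G]` are the `n + h`, `h ∈ H` -/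
def PatAt (z : ℕ → ℕ) (b : ℕ → ℕ) (H : Finset ℕ) (G k : ℕ) : Prop :=
  ∃ n, E k / 8 ≤ n ∧ n + G ≤ E k ∧ ∀ m ≤ G, (n + m ∈ R z b ↔ m ∈ H)

/-- what the small primes leave -/
noncomputable def T00 (k : ℕ) (σ : ℕ → ℕ) (H : Finset ℕ) (G : ℕ) : Finset ℕ :=
  open Classical in ((range (G + 1)).filter fun t => ∀ p ≤ wk k, p.Prime → ¬ p ∣ t + σ p) \ H

theorem found {z : ℕ → ℕ} (hz : Monotone z) (k Y s1 J G : ℕ) (σ : ℕ → ℕ) (H : Finset ℕ) (b : ℕ → ℕ)
    (hwY : wk k ≤ Y) (hYZ : Y ≤ z (E k / 8)) (hσ : ∀ p ≤ wk k, p.Prime → ∀ h ∈ H, ¬ p ∣ h + σ p)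
    (hb : ∀ p, p.Prime → b p < p) (hE : 3 ≤ E k / 8) (h1 : E k / 8 ≤ primorial (wk k) * J)
    (h2 : primorial (wk k) * (2 * J) + G ≤ E k) (j : ℕ)
    (hj : j ∈ S2 k Y s1 (z (E k / 8)) σ H (T00 k σ H G) J b)
    (h3 : C3 (z (E k / 8)) (z (E k)) (H.image fun u => ps k σ b j + u) b) : PatAt z b H G k := by
  classical
  have hj' := hj
  unfold S2 at hj'
  rw [mem_filter] at hj'
  obtain ⟨hjG, hC2⟩ := hj'
  obtain ⟨⟨hJ1, hJ2⟩, -⟩ := Gd_sub _ _ _ _ _ _ _ _ hjG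
  set n := ps k σ b j with hn
  have hnE : E k / 8 ≤ n := by
    refine h1.trans ?_
    rw [hn]
    unfold ps
    have : primorial (wk k) * J ≤ primorial (wk k) * j := Nat.mul_le_mul_left _ hJ1
    omega
  have hnG : n + G ≤ E k := ps_le k σ b J j G (E k) hJ2 h2
  refine ⟨n, hnE, hnG, fun m hm => ?_⟩
  have hnmod : ∀ p ≤ wk k, p.Prime → n % p = (b p + σ p) % p := by
    intro p hp hpp
    rw [hn]
    unfold ps
    have hd : p ∣ primorial (wk k) * j := by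
      apply Dvd.dvd.mul_right
      unfold primorial
      exact dvd_prod_of_mem _ (mem_filter.2 ⟨mem_range.2 (by omega), hpp⟩)
    rw [Nat.add_mod, Nat.mod_eq_zero_of_dvd hd, add_zero, Nat.mod_mod, base_mod k σ b p hp hpp]
  have hkey : ∀ p ≤ wk k, p.Prime → ((n + m) % p = b p ↔ p ∣ m + σ p) := by
    intro p hp hpp
    have e1 : n + m ≡ b p + (m + σ p) [MOD p] := by
      have : n ≡ b p + σ p [MOD p] := hnmod p hp hpp
      have h4 := this.add_right m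
      have e : b p + σ p + m = b p + (m + σ p) := by ring
      rwa [e] at h4
    constructor
    · intro h4
      have h5 : b p + (m + σ p) ≡ b p + 0 [MOD p] := by
        refine e1.symm.trans ?_
        rw [add_zero]
        unfold Nat.ModEq
        rw [h4, Nat.mod_eq_of_lt (hb p hpp)]
      exact (Nat.modEq_zero_iff_dvd).1 (Nat.ModEq.add_left_cancel' _ h5)
    · intro h4
      have h5 : n + m ≡ b p [MOD p] := by
        refine e1.trans ?_
        have := (Nat.modEq_zero_iff_dvd.2 h4).add_left (b p)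
        rwa [add_zero] at this
      unfold Nat.ModEq at h5
      rw [h5, Nat.mod_eq_of_lt (hb p hpp)]
  constructor
  · rintro ⟨-, h4⟩
    by_contra hmH
    -- `n + m` is sieved out
    have hkill : ∃ p, p ≤ z (E k / 8) ∧ p.Prime ∧ (n + m) % p = b p := by
      by_cases hT : m ∈ T00 k σ H G
      · by_cases hTS : n + m ∈ TS1 k Y (T00 k σ H G) n b
        · obtain ⟨p, hp, he⟩ := hC2.1 _ hTS
          rw [mem_PI] at hp
          exact ⟨p, hp.1.2, hp.2, he⟩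
        · unfold TS1 Sw at hTS
          rw [mem_filter, not_and] at hTS
          have h5 := hTS (mem_image.2 ⟨m, hT, rfl⟩)
          push Not at h5
          obtain ⟨p, hp, he⟩ := h5
          rw [mem_PI] at hp
          exact ⟨p, hp.1.2.trans hYZ, hp.2, he⟩
      · unfold T00 at hT
        rw [Finset.mem_sdiff, not_and_not_right] at hT
        have h5 : ¬ ∀ p ≤ wk k, p.Prime → ¬ p ∣ m + σ p := fun h6 =>
          hmH (hT (mem_filter.2 ⟨mem_range.2 (by omega), h6⟩))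
        push Not at h5
        obtain ⟨p, hp, hpp, hd⟩ := h5
        exact ⟨p, hp.trans (hwY.trans hYZ), hpp, (hkey p hp hpp).2 hd⟩
    obtain ⟨p, hp, hpp, he⟩ := hkill
    exact h4 p (hp.trans (hz (by omega))) hpp he
  · intro hmH
    refine ⟨by omega, fun p hp hpp he => ?_⟩
    have hpz : p ≤ z (E k) := hp.trans (hz (by omega))
    have hmem : n + m ∈ H.image fun u => n + u := mem_image.2 ⟨m, hmH, rfl⟩
    rcases le_or_gt p (wk k) with h5 | h5
    · exact hσ p h5 hpp m hmH ((hkey p h5 hpp).1 he)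
    rcases le_or_gt p Y with h6 | h6
    · have h7 := hjG
      unfold Gd ST at h7
      rw [mem_filter, mem_filter] at h7
      exact h7.1.2 p (mem_PI.2 ⟨⟨h5, h6⟩, hpp⟩) m hmH he
    rcases le_or_gt p (z (E k / 8)) with h7 | h7
    · exact hC2.2 p (mem_PI.2 ⟨⟨h6, h7⟩, hpp⟩) _ hmem he
    · exact h3 p (mem_PI.2 ⟨⟨h7, hpz⟩, hpp⟩) _ hmem he

theorem exp_sub_one_le (x : ℝ) (hx0 : 0 ≤ x) (hx1 : x ≤ 1) : Real.exp x - 1 ≤ 2 * x := by
  have h1 := exp_quad x (by rw [abs_of_nonneg hx0]; exact hx1)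
  nlinarith

section prob

variable {Ω : Type} [MeasurableSpace Ω] {P : Measure Ω} {a : ℕ → Ω → ℕ}

/-- **One pattern at one scale.** -/
theorem one_pattern (h : Model P a) (z : ℕ → ℕ) (hz : Monotone z)
    (hzV : Tendsto (fun n => V (z n) * Real.log n) atTop (𝓝 1)) (hzt : Tendsto z atTop atTop)
    (ε : ℝ) (hε : 0 < ε) (hε1 : ε ≤ 1) (ν A : ℕ) (hν : 1 ≤ ν) :
    ∀ᶠ k : ℕ in atTop, ∀ (H : Finset ℕ) (G : ℕ), 1 ≤ H.card → H.card ≤ ν → Adm H → (∀ u ∈ H, u ≤ G) →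
      (G : ℝ) ≤ (2 * gE - ε) * k ^ 2 →
      P.real {ω | (∀ p, p.Prime → a p ω < p) ∧ ¬ PatAt z (fun p => a p ω) H G k} ≤ 1 / (k : ℝ) ^ A := by
  classical
  have := prob h
  set B := 4 * ν + A + 20 with hB
  have hB20 : 20 ≤ B := by omega
  have hB1 : 1 ≤ B := by omega
  set c1 : ℝ := 1 / 4 * (1 / (4 * (B : ℝ))) ^ (2 * ν) with hc1
  have hBR : (20 : ℝ) ≤ B := by exact_mod_cast hB20
  have hc10 : 0 < c1 := by rw [hc1]; positivity
  have hg1 := gE_lt
  -- constants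
  set C2' : ℝ := 2 ^ ν * (4 ^ (ν + 1) * 2 ^ (4 * ν)) with hC2'
  have hC20 : 0 < C2' := by positivity
  set C3' : ℝ := 2 * 2 ^ (2 * ν) * 4 ^ (2 * ν) with hC3'
  have hC30 : 0 < C3' := by positivity
  have hνR : (1 : ℝ) ≤ ν := by exact_mod_cast hν
  filter_upwards [cnt_small ν ε hε hε1, claim1 h B ν hB1 hν ε hε hε1 (A + 1) c1 hc1, claim2 h B ν hB1 ε c1 hc10,
    par_B z hzV hzt B ν hB20 ε hε hε1, ratio_last z hzV, mass z hzV hzt B ν hB20 ε hε hε1 c1 hc10,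
    (wk_le.and (q_large.and (q_small (1 / 4) (by norm_num)))),
    (exp_beats (B) 1 (ε / 100) one_pos (by positivity)).and ((exp_beats 3 1 (1 / 2) one_pos (by norm_num)).and
      (V_scl z hzV Scl_eighth (1 / 2) (by norm_num))),
    (E_top.eventually_ge_atTop 24).and ((tendsto_natCast_atTop_atTop (R := ℝ)).eventually_ge_atTop (4 * (1 + 2 / c1))),
    (tendsto_natCast_atTop_atTop (R := ℝ)).eventually_ge_atTop (28 * C2' + 8 * C3' + 96 * (ν : ℝ) ^ 3 + 100),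
    dB_small B (1 / 2) (by norm_num), eventually_ge_atTop (2 * ν + 4)]
    with k hcnt hcl1 hcl2 hpar hrat hmass hwq hbeats hEc hkC hds hkν
  obtain ⟨hwk, hql, hq4⟩ := hwq
  obtain ⟨hbeatB, hbeat3, hVz⟩ := hbeats
  obtain ⟨hE24, hkc1⟩ := hEc
  intro H G hH1 hHν hadm hHG hG
  obtain ⟨σ, hσ1, hσ2⟩ := hcnt H hHν hadm
  set Y := k ^ B with hY
  set Z := z (E k / 8) with hZ
  set Z' := z (E k) with hZ'
  set q := primorial (wk k) with hq
  set J := E k / (4 * q) with hJ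
  set s1 := sB ε B k with hs1
  set T0 := T00 k σ H G with hT0d
  have hkR : (100 : ℝ) ≤ k := by
    have : 0 ≤ 28 * C2' + 8 * C3' + 96 * (ν : ℝ) ^ 3 := by positivity
    linarith
  have hk0 : (0 : ℝ) < k := by linarith
  have hk1 : 1 ≤ k := by omega
  have hqpos : 0 < q := primorial_pos _
  have hG2 : (G : ℝ) ≤ 2 * k ^ 2 := by
    refine hG.trans ?_
    have : 0 ≤ (k : ℝ) ^ 2 := by positivity
    nlinarith
  have hG2N : G ≤ 2 * k ^ 2 := by exact_mod_cast hG2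
  have hGq : G < q := by omega
  have hwY : wk k ≤ Y := hwk.trans (Nat.le_self_pow (by omega) k)
  have hGY : G < Y := by
    have h1 : 2 * k ^ 2 < k ^ 3 := by
      have h2 : 2 < k := by omega
      calc 2 * k ^ 2 < k * k ^ 2 := Nat.mul_lt_mul_of_pos_right h2 (by positivity)
        _ = k ^ 3 := by ring
    have h2 : k ^ 3 ≤ k ^ B := Nat.pow_le_pow_right (by omega) (by omega)
    omega
  have hYZ : Y ≤ Z := hpar.hYZ
  have hZZ : Z ≤ Z' := hz (Nat.div_le_self _ _)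
  have hkY : k ≤ Y := Nat.le_self_pow (by omega) k
  have hZ1 : 1 ≤ Z := by omega
  -- the range of the positions
  have hqE : (q : ℝ) * 8 ≤ E k := by
    have h1 : 8 * Real.exp (1 / 4 * k) ≤ Real.exp k := by
      have e : Real.exp (k : ℝ) = Real.exp (3 / 4 * k) * Real.exp (1 / 4 * k) := by
        rw [← Real.exp_add]
        ring_nf
      rw [e]
      apply mul_le_mul_of_nonneg_right _ (Real.exp_pos _).le
      have h9 := Real.add_one_le_exp (3 / 4 * (k : ℝ))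
      linarith
    have := E_lower k
    linarith
  have hqEN : q * 8 ≤ E k := by exact_mod_cast hqE
  have hJq : 4 * q * J ≤ E k := Nat.mul_div_le _ _
  have hJq2 : E k < 4 * q * J + 4 * q := by
    have := Nat.lt_mul_div_succ (E k) (show 0 < 4 * q by omega)
    rw [mul_add, mul_one] at this
    exact this
  have hJ8 : E k / 8 ≤ q * J := by
    have e : 4 * q * J = 4 * (q * J) := by ring
    rw [e] at hJq2
    omega
  have hGE : G ≤ E k / 2 := by omega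
  have hJG : q * (2 * J) + G ≤ E k := by
    have e : 4 * q * J = 2 * (q * (2 * J)) := by ring
    rw [e] at hJq
    omega
  have hkJ : k ^ 2 ≤ J := by
    -- `E k ≥ 4 q (k ^ 2 + 1)`
    rw [hJ, Nat.le_div_iff_mul_le (by omega)]
    have h1 : ((k ^ 2 * (4 * q) : ℕ) : ℝ) ≤ E k := by
      push_cast
      have h2 : (k : ℝ) ^ 3 ≤ Real.exp (1 / 2 * k) := by
        have := hbeat3
        rwa [one_mul] at this
      have h3 : 4 * (k : ℝ) ^ 2 ≤ (k : ℝ) ^ 3 := by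
        have : (4 : ℝ) ≤ k := by linarith
        nlinarith [sq_nonneg (k : ℝ)]
      calc (k : ℝ) ^ 2 * (4 * q) = 4 * k ^ 2 * q := by ring
        _ ≤ Real.exp (1 / 2 * k) * Real.exp (1 / 4 * k) := by
            apply mul_le_mul (h3.trans h2) hq4 (Nat.cast_nonneg _) (Real.exp_pos _).le
        _ = Real.exp (3 / 4 * k) := by
            rw [← Real.exp_add]
            ring_nf
        _ ≤ Real.exp k := Real.exp_le_exp.2 (by linarith)
        _ ≤ E k := E_lower k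
    exact_mod_cast h1
  have hJ1 : 1 ≤ J := by
    have : 1 ≤ k ^ 2 := Nat.one_le_pow _ _ (by omega)
    omega
  -- the small primes
  have hT0sub : T0 ⊆ range (G + 1) := by
    rw [hT0d]
    unfold T00
    exact sdiff_subset.trans (filter_subset _ _)
  have hT0H : Disjoint T0 H := by
    rw [hT0d]
    unfold T00
    exact sdiff_disjoint
  have hT0c : (T0.card : ℝ) ≤ (1 - ε / 8) * (k ^ 2 * V (wk k)) := by
    refine le_trans ?_ (hσ2 G hG)
    have : T0.card ≤ ((range (G + 1)).filter fun t => ∀ p ≤ wk k, p.Prime → ¬ p ∣ t + σ p).card := by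
      refine card_le_card fun t ht => ?_
      rw [hT0d] at ht
      unfold T00 at ht
      have := (Finset.mem_sdiff.1 ht).1
      rw [mem_filter] at this ⊢
      exact this
    exact_mod_cast this
  -- the three bounds
  have b1 := hcl1 σ H T0 G J hH1 hHν hkJ hT0sub hG2 hT0c
  have b2 := hcl2 σ H T0 G J Z (E k) hpar (log2_E k (by omega)) hHν hJ1 hT0sub hHG hT0H hGY hGq hJG
  set β := vB Y Z ^ (2 * ν) with hβ
  set m0 : ℝ := c1 * J * (1 - dB k Y Z) ^ (s1 + ν) with hm0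
  have hm0l : Real.exp (ε / 100 * k) ≤ m0 := hmass
  have hm00 : 0 < m0 := (Real.exp_pos _).trans_le hm0l
  have hvB0 := vB_pos Y Z
  have hβ0 : 0 < β := by positivity
  have b3 := claim3 h ν k Y s1 σ H T0 G J Z Z' (E k) hwY hYZ hZ1 hZZ (by omega) hHν hHG (lt_of_lt_of_le hGY hYZ) hGq hJG
    (β / 2 * m0) (by positivity)
  -- the union
  have hsub : {ω | (∀ p, p.Prime → a p ω < p) ∧ ¬ PatAt z (fun p => a p ω) H G k} ⊆
      ({ω | ((Gd k Y s1 σ H T0 J fun p => a p ω).card : ℝ) < c1 * J} ∪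
      {ω | c1 * J ≤ ((Gd k Y s1 σ H T0 J fun p => a p ω).card : ℝ) ∧
          ((S2 k Y s1 Z σ H T0 J fun p => a p ω).card : ℝ) < β / 2 * m0}) ∪
      {ω | β / 2 * m0 ≤ ((S2 k Y s1 Z σ H T0 J fun p => a p ω).card : ℝ) ∧
        ∀ j ∈ S2 k Y s1 Z σ H T0 J fun p => a p ω,
          ¬ C3 Z Z' (H.image fun u => ps k σ (fun p => a p ω) j + u) fun p => a p ω} := by
    rintro ω ⟨hb, hω⟩
    by_contra hcon
    simp only [Set.mem_union, Set.mem_ofPred_eq, not_or, not_and, not_lt, not_forall, not_not] at hcon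
    obtain ⟨⟨h1, h2⟩, h3⟩ := hcon
    obtain ⟨j, hj, hC⟩ := h3 (h2 h1)
    exact hω (found hz k Y s1 J G σ H _ hwY hYZ hσ1 hb (by omega) hJ8 hJG j hj hC)
  refine (measureReal_mono hsub (measure_ne_top _ _)).trans ((measureReal_union_le _ _).trans
    (add_le_add_left (measureReal_union_le _ _) _) |>.trans ?_)
  -- the numerical bounds
  have hkA : (0 : ℝ) < (k : ℝ) ^ A := by positivity
  have n1 : (1 + 2 / c1) * Real.exp (-(((A + 1 : ℕ) : ℝ) * Real.log k)) ≤ 1 / 4 * (1 / (k : ℝ) ^ A) := by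
    have e : Real.exp (-(((A + 1 : ℕ) : ℝ) * Real.log k)) = 1 / (k : ℝ) ^ (A + 1) := by
      rw [Real.exp_neg, ← Real.log_pow, Real.exp_log (by positivity), one_div]
    rw [e, pow_succ]
    have e2 : (1 + 2 / c1) * (1 / ((k : ℝ) ^ A * k)) = (1 + 2 / c1) / k * (1 / (k : ℝ) ^ A) := by
      field_simp
    rw [e2]
    apply mul_le_mul_of_nonneg_right _ (by positivity)
    rw [div_le_iff₀ hk0]
    linarith
  -- the exponential
  have hexpB : 1 / m0 ≤ 1 / (k : ℝ) ^ B := by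
    apply one_div_le_one_div_of_le (by positivity)
    refine le_trans ?_ hm0l
    have := hbeatB
    rwa [one_mul] at this
  have hvl : 1 / (2 * (k : ℝ)) ≤ vB Y Z := by
    refine hpar.hV1.trans ?_
    unfold vB
    have hVY := V_pos Y
    have hVY1 := V_le_one Y
    have hVZ := V_pos Z
    rw [le_div_iff₀ hVY]
    nlinarith
  have hβl : 1 / (2 * (k : ℝ)) ^ (2 * ν) ≤ β := by
    rw [hβ, ← one_div_pow]
    exact pow_le_pow_left₀ (by positivity) hvl _
  have hkB : (k : ℝ) ^ B = (k : ℝ) ^ (4 * ν) * ((k : ℝ) ^ A * (k : ℝ) ^ 20) := by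
    rw [hB, pow_add, pow_add]
    ring
  have hYR : ((Y : ℕ) : ℝ) = (k : ℝ) ^ B := by rw [hY]; push_cast; rfl
  have hlog2 : ((Nat.log 2 (E k) : ℕ) : ℝ) ≤ 3 * k := by exact_mod_cast log2_E k (by omega)
  have n2 : 2 ^ ν * ((1 / m0 + (Real.exp (((s1 + ν : ℕ) : ℝ) ^ 3 * Nat.log 2 (E k) / ((Y : ℕ) : ℝ)) - 1)) /
      (β / 2 ^ (ν + 1)) ^ 2) ≤ 1 / 4 * (1 / (k : ℝ) ^ A) := by
    set x : ℝ := ((s1 + ν : ℕ) : ℝ) ^ 3 * Nat.log 2 (E k) / ((Y : ℕ) : ℝ) with hx
    have hx0 : 0 ≤ x := by positivity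
    have hxu : x ≤ 3 * k ^ 7 / (k : ℝ) ^ B := by
      rw [hx, hYR]
      apply div_le_div_of_nonneg_right _ (by positivity)
      have h1 : ((s1 + ν : ℕ) : ℝ) ≤ (k : ℝ) ^ 2 := by exact_mod_cast hpar.hs3
      calc ((s1 + ν : ℕ) : ℝ) ^ 3 * ((Nat.log 2 (E k) : ℕ) : ℝ) ≤ ((k : ℝ) ^ 2) ^ 3 * (3 * (k : ℝ)) := by gcongr
        _ = 3 * (k : ℝ) ^ 7 := by ring
    have hk7 : 3 * (k : ℝ) ^ 7 / (k : ℝ) ^ B ≤ 3 / ((k : ℝ) ^ (4 * ν) * ((k : ℝ) ^ A * (k : ℝ))) := by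
      rw [hkB, div_le_div_iff₀ (by positivity) (by positivity)]
      have h1 : (k : ℝ) ^ 7 * k ≤ (k : ℝ) ^ 20 := by
        calc (k : ℝ) ^ 7 * k = (k : ℝ) ^ 8 := by ring
          _ ≤ (k : ℝ) ^ 20 := pow_le_pow_right₀ (by linarith) (by norm_num)
      have h2 : 0 ≤ (k : ℝ) ^ (4 * ν) * (k : ℝ) ^ A := by positivity
      calc 3 * (k : ℝ) ^ 7 * ((k : ℝ) ^ (4 * ν) * ((k : ℝ) ^ A * k)) =
            3 * (((k : ℝ) ^ (4 * ν) * (k : ℝ) ^ A) * ((k : ℝ) ^ 7 * k)) := by ring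
        _ ≤ 3 * (((k : ℝ) ^ (4 * ν) * (k : ℝ) ^ A) * (k : ℝ) ^ 20) := by gcongr
        _ = 3 * ((k : ℝ) ^ (4 * ν) * ((k : ℝ) ^ A * (k : ℝ) ^ 20)) := by ring
    set w : ℝ := 1 / ((k : ℝ) ^ (4 * ν) * ((k : ℝ) ^ A * (k : ℝ))) with hw
    have hw0 : 0 < w := by positivity
    have hxw : x ≤ 3 * w := by
      refine hxu.trans (hk7.trans (le_of_eq ?_))
      rw [hw]
      ring
    have hw1 : 3 * w ≤ 1 := by
      rw [hw, mul_one_div, div_le_one (by positivity)]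
      have h1 : 1 ≤ (k : ℝ) ^ (4 * ν) := one_le_pow₀ (by linarith)
      have h2 : 1 ≤ (k : ℝ) ^ A := one_le_pow₀ (by linarith)
      have h3 : 1 * (1 * 3) ≤ (k : ℝ) ^ (4 * ν) * ((k : ℝ) ^ A * k) := by
        apply mul_le_mul h1 (mul_le_mul h2 (by linarith) (by norm_num) (by positivity)) (by norm_num) (by positivity)
      linarith
    have hξ := exp_sub_one_le x hx0 (hxw.trans hw1)
    have hm1 : 1 / m0 ≤ w := by
      refine hexpB.trans ?_
      rw [hw, hkB]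
      apply one_div_le_one_div_of_le (by positivity)
      have h1 : (k : ℝ) ≤ (k : ℝ) ^ 20 := le_self_pow₀ (by linarith) (by norm_num)
      gcongr
    have hnum : 1 / m0 + (Real.exp x - 1) ≤ 7 * w := by linarith
    have hden : 1 / (β / 2 ^ (ν + 1)) ^ 2 ≤ 4 ^ (ν + 1) * 2 ^ (4 * ν) * (k : ℝ) ^ (4 * ν) := by
      have h1 : (1 / (2 * (k : ℝ)) ^ (2 * ν) / 2 ^ (ν + 1)) ^ 2 ≤ (β / 2 ^ (ν + 1)) ^ 2 := by gcongr
      have h2 := one_div_le_one_div_of_le (by positivity) h1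
      refine h2.trans (le_of_eq ?_)
      have e4 : (4 : ℝ) ^ (ν + 1) = (2 ^ (ν + 1)) ^ 2 := by
        rw [← pow_mul, mul_comm (ν + 1) 2, pow_mul]
        norm_num
      have e5 : (2 : ℝ) ^ (4 * ν) * (k : ℝ) ^ (4 * ν) = ((2 * (k : ℝ)) ^ (2 * ν)) ^ 2 := by
        rw [← mul_pow, ← pow_mul]
        congr 1
        ring
      rw [mul_assoc, e5, e4]
      field_simp
    have hnum0 : 0 ≤ 1 / m0 + (Real.exp x - 1) := by
      have : 1 ≤ Real.exp x := Real.one_le_exp hx0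
      have : 0 < 1 / m0 := by positivity
      linarith
    calc 2 ^ ν * ((1 / m0 + (Real.exp x - 1)) / (β / 2 ^ (ν + 1)) ^ 2)
        = 2 ^ ν * ((1 / m0 + (Real.exp x - 1)) * (1 / (β / 2 ^ (ν + 1)) ^ 2)) := by ring
      _ ≤ 2 ^ ν * ((7 * w) * (4 ^ (ν + 1) * 2 ^ (4 * ν) * (k : ℝ) ^ (4 * ν))) := by
          apply mul_le_mul_of_nonneg_left _ (by positivity)
          exact mul_le_mul hnum hden (by positivity) (by positivity)
      _ = 7 * C2' / k * (1 / (k : ℝ) ^ A) := by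
          rw [hw, hC2']
          field_simp
      _ ≤ 1 / 4 * (1 / (k : ℝ) ^ A) := by
          apply mul_le_mul_of_nonneg_right _ (by positivity)
          rw [div_le_iff₀ hk0]
          have : 0 ≤ 8 * C3' + 96 * (ν : ℝ) ^ 3 + 100 := by positivity
          linarith
  have hVZ := V_pos Z
  have hVZ' := V_pos Z'
  have n3 : 1 / (β / 2 * m0 * (V Z' / V Z) ^ (2 * ν)) ≤ 1 / 8 * (1 / (k : ℝ) ^ A) := by
    have h1 : 1 / (2 * (k : ℝ)) ^ (2 * ν) / 2 * (k : ℝ) ^ B * (1 / 4) ^ (2 * ν) ≤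
        β / 2 * m0 * (V Z' / V Z) ^ (2 * ν) := by
      have h2 : (k : ℝ) ^ B ≤ m0 := by
        refine le_trans ?_ hm0l
        have := hbeatB
        rwa [one_mul] at this
      gcongr
    refine (one_div_le_one_div_of_le (by positivity) h1).trans ?_
    have e : 1 / (1 / (2 * (k : ℝ)) ^ (2 * ν) / 2 * (k : ℝ) ^ B * (1 / 4) ^ (2 * ν)) =
        C3' * (k : ℝ) ^ (2 * ν) / (k : ℝ) ^ B := by
      rw [hC3', one_div_pow, mul_pow]
      field_simp
    rw [e, hkB]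
    have h2 : C3' * (k : ℝ) ^ (2 * ν) / ((k : ℝ) ^ (4 * ν) * ((k : ℝ) ^ A * (k : ℝ) ^ 20)) ≤ C3' / k * (1 / (k : ℝ) ^ A) := by
      have e2 : C3' / k * (1 / (k : ℝ) ^ A) = C3' / (k * (k : ℝ) ^ A) := by
        rw [div_mul_div_comm, mul_one]
      rw [e2, div_le_div_iff₀ (by positivity) (by positivity)]
      have h3 : (k : ℝ) ^ (2 * ν) ≤ (k : ℝ) ^ (4 * ν) := pow_le_pow_right₀ (by linarith) (by omega)
      have h4 : (k : ℝ) ≤ (k : ℝ) ^ 20 := le_self_pow₀ (by linarith) (by norm_num)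
      calc C3' * (k : ℝ) ^ (2 * ν) * (k * (k : ℝ) ^ A) ≤ C3' * (k : ℝ) ^ (4 * ν) * ((k : ℝ) ^ 20 * (k : ℝ) ^ A) := by gcongr
        _ = _ := by ring
    refine h2.trans ?_
    apply mul_le_mul_of_nonneg_right _ (by positivity)
    rw [div_le_iff₀ hk0]
    have : 0 ≤ 28 * C2' + 96 * (ν : ℝ) ^ 3 + 100 := by positivity
    linarith
  have n4 : Real.exp (2 * (ν : ℝ) ^ 3 * Nat.log 2 (E k) / Z) - 1 ≤ 1 / 8 * (1 / (k : ℝ) ^ A) := by
    set x : ℝ := 2 * (ν : ℝ) ^ 3 * Nat.log 2 (E k) / Z with hx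
    have hZR : (k : ℝ) ^ B ≤ Z := by
      rw [← hYR]
      exact_mod_cast hYZ
    have hZ0 : (0 : ℝ) < Z := by exact_mod_cast hZ1
    have hx0 : 0 ≤ x := by positivity
    have hxu : x ≤ 6 * (ν : ℝ) ^ 3 / k * (1 / (k : ℝ) ^ A) := by
      have h1 : x ≤ 2 * (ν : ℝ) ^ 3 * (3 * k) / (k : ℝ) ^ B := by
        rw [hx]
        gcongr
      refine h1.trans ?_
      have e2 : 6 * (ν : ℝ) ^ 3 / k * (1 / (k : ℝ) ^ A) = 6 * (ν : ℝ) ^ 3 / (k * (k : ℝ) ^ A) := by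
        rw [div_mul_div_comm, mul_one]
      rw [e2, div_le_div_iff₀ (by positivity) (by positivity)]
      have h2 : (k : ℝ) * (k * (k : ℝ) ^ A) ≤ (k : ℝ) ^ B := by
        have e3 : (k : ℝ) * (k * (k : ℝ) ^ A) = (k : ℝ) ^ (A + 2) := by ring
        rw [e3]
        exact pow_le_pow_right₀ (by linarith) (by omega)
      calc 2 * (ν : ℝ) ^ 3 * (3 * k) * (k * (k : ℝ) ^ A) = 6 * (ν : ℝ) ^ 3 * (k * (k * (k : ℝ) ^ A)) := by ring
        _ ≤ 6 * (ν : ℝ) ^ 3 * (k : ℝ) ^ B := by gcongr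
    have hkA1 : 1 / (k : ℝ) ^ A ≤ 1 := by
      rw [div_le_one hkA]
      exact one_le_pow₀ (by linarith)
    have h96 : 6 * (ν : ℝ) ^ 3 / k ≤ 1 / 16 := by
      rw [div_le_iff₀ hk0]
      have : 0 ≤ 28 * C2' + 8 * C3' + 100 := by positivity
      linarith
    have hx1 : x ≤ 1 := by
      have : 6 * (ν : ℝ) ^ 3 / k * (1 / (k : ℝ) ^ A) ≤ 1 / 16 * 1 := by gcongr
      linarith
    have h1 := exp_sub_one_le x hx0 hx1
    have h2 : 6 * (ν : ℝ) ^ 3 / k * (1 / (k : ℝ) ^ A) ≤ 1 / 16 * (1 / (k : ℝ) ^ A) := by gcongr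
    linarith
  have h5 := b1.trans n1
  have h6 := b2.trans n2
  have h7 := b3.trans (add_le_add n3 n4)
  have e : 1 / 4 * (1 / (k : ℝ) ^ A) + 1 / 4 * (1 / (k : ℝ) ^ A) +
      (1 / 8 * (1 / (k : ℝ) ^ A) + 1 / 8 * (1 / (k : ℝ) ^ A)) ≤ 1 / (k : ℝ) ^ A := by
    have : 0 < 1 / (k : ℝ) ^ A := by positivity
    linarith
  exact (add_le_add (add_le_add h5 h6) h7).trans e

end prob

end Pool.Agent.H531.GP
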