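import Pool.Agent.H531.CP.Zf
import Pool.Graph.R_pool_sql_team_seeded_707910d6.T2H32.BF.Count

set_option autoImplicit false

/-!
# The small primes: a block sieved as much as possible, except for prescribed elements
-/

open Finset MeasureTheory ProbabilityTheory Filter Topology

namespace Pool.Agent.H531.GP

open Pool.Agent.T2H31.HV Pool.Agent.H531.SI Pool.Agent.H531.MS
open Pool.Agent.H531.CP hiding pos
open Pool.Agent.T2H32.BF hiding PI pos

/-- admissible sets -/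
def Adm (H : Finset ℕ) : Prop := ∀ p, p.Prime → ∃ r, ∀ h ∈ H, ¬ p ∣ h + r

/-- multiples of a prime in a progression -/
theorem prog_card (u q I p : ℕ) (hq : 0 < q) (hp : 0 < p) (hpq : Nat.Coprime p q) :
    ((Icc 1 I).filter fun m => p ∣ u + q * m).card ≤ I / p + 1 := by
  have h1 := Wd_class u q I p 0 hq hp hpq
  refine le_trans (le_of_eq ?_) h1
  unfold Wd
  rw [filter_image, card_image_of_injective _ (Wd_inj u q hq)]
  congr 1
  exact filter_congr fun m _ => Nat.dvd_iff_mod_eq_zero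

/-- the primes above `w1` dividing some `h + r` -/
noncomputable def Ex (H : Finset ℕ) (w1 w r : ℕ) : Finset ℕ := (PI w1 w).filter fun p => ∃ h ∈ H, p ∣ h + r

/-- averaging -/
theorem avg (H : Finset ℕ) (w1 w ρ I : ℕ) (hI : 1 ≤ I) (A B τ : ℝ)
    (hA : ∑ p ∈ PI w1 w, 1 / (p : ℝ) ^ 2 ≤ A) (hB : ∑ p ∈ PI w1 w, 1 / (p : ℝ) ≤ B)
    (hτ : H.card * (I * A + B) ≤ I * τ) :
    ∃ m ∈ Icc 1 I, ∑ p ∈ Ex H w1 w (ρ + primorial w1 * m), 1 / (p : ℝ) ≤ τ := by
  by_contra hcon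
  push Not at hcon
  have h1 : ∑ m ∈ Icc 1 I, τ < ∑ m ∈ Icc 1 I, ∑ p ∈ Ex H w1 w (ρ + primorial w1 * m), 1 / (p : ℝ) :=
    sum_lt_sum_of_nonempty ⟨1, mem_Icc.2 ⟨le_rfl, hI⟩⟩ hcon
  rw [sum_const, Nat.card_Icc, Nat.add_sub_cancel, nsmul_eq_mul] at h1
  have h2 : ∀ m, ∑ p ∈ Ex H w1 w (ρ + primorial w1 * m), 1 / (p : ℝ) ≤
      ∑ p ∈ PI w1 w, ∑ h ∈ H, if p ∣ (h + ρ) + primorial w1 * m then 1 / (p : ℝ) else 0 := by
    intro m
    unfold Ex
    rw [sum_filter]
    refine sum_le_sum fun p _ => ?_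
    split_ifs with h3
    · obtain ⟨h, hh, hd⟩ := h3
      set g : ℕ → ℝ := fun h => if p ∣ (h + ρ) + primorial w1 * m then 1 / (p : ℝ) else 0 with hg
      have hg0 : ∀ h ∈ H, 0 ≤ g h := by
        intro h _
        simp only [hg]
        split_ifs
        · positivity
        · exact le_rfl
      have h4 : g h = 1 / (p : ℝ) := if_pos (by rwa [add_assoc])
      rw [← h4]
      exact single_le_sum hg0 hh
    · refine sum_nonneg fun h _ => ?_
      split_ifs
      · positivity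
      · exact le_rfl
  have h3 : ∑ m ∈ Icc 1 I, ∑ p ∈ Ex H w1 w (ρ + primorial w1 * m), 1 / (p : ℝ) ≤ H.card * (I * A + B) := by
    calc ∑ m ∈ Icc 1 I, ∑ p ∈ Ex H w1 w (ρ + primorial w1 * m), 1 / (p : ℝ)
        ≤ ∑ m ∈ Icc 1 I, ∑ p ∈ PI w1 w, ∑ h ∈ H, if p ∣ (h + ρ) + primorial w1 * m then 1 / (p : ℝ) else 0 :=
          sum_le_sum fun m _ => h2 m
      _ = ∑ p ∈ PI w1 w, ∑ h ∈ H, ∑ m ∈ Icc 1 I, if p ∣ (h + ρ) + primorial w1 * m then 1 / (p : ℝ) else 0 := by
          rw [sum_comm]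
          exact sum_congr rfl fun p _ => sum_comm
      _ ≤ ∑ p ∈ PI w1 w, ∑ h ∈ H, (I * (1 / (p : ℝ) ^ 2) + 1 / p) := by
          refine sum_le_sum fun p hp => sum_le_sum fun h _ => ?_
          have hpp := (mem_PI.1 hp).2
          have hp0 : (0 : ℝ) < p := by exact_mod_cast hpp.pos
          rw [← sum_filter, sum_const, nsmul_eq_mul]
          have h4 := prog_card (h + ρ) (primorial w1) I p (primorial_pos w1) hpp.pos
            (coprime_primorial hpp (mem_PI.1 hp).1.1)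
          have h5 : (((Icc 1 I).filter fun m => p ∣ (h + ρ) + primorial w1 * m).card : ℝ) ≤ I / p + 1 := by
            have h6 : (((Icc 1 I).filter fun m => p ∣ (h + ρ) + primorial w1 * m).card : ℝ) ≤
                ((I / p + 1 : ℕ) : ℝ) := by exact_mod_cast h4
            push_cast at h6
            have h8 : ((I / p : ℕ) : ℝ) ≤ I / p := Nat.cast_div_le
            linarith
          calc (((Icc 1 I).filter fun m => p ∣ (h + ρ) + primorial w1 * m).card : ℝ) * (1 / p)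
              ≤ (I / p + 1) * (1 / p) := by gcongr
            _ = I * (1 / (p : ℝ) ^ 2) + 1 / p := by
                field_simp
      _ = H.card * (I * ∑ p ∈ PI w1 w, 1 / (p : ℝ) ^ 2 + ∑ p ∈ PI w1 w, 1 / (p : ℝ)) := by
          simp only [sum_const, nsmul_eq_mul]
          rw [← mul_sum, sum_add_distrib, ← mul_sum]
      _ ≤ _ := by gcongr
  linarith

/-- sum of the reciprocals of the primes -/
theorem sum_recip_le (w1 w : ℕ) (hw : 1 ≤ w) : ∑ p ∈ PI w1 w, 1 / (p : ℝ) ≤ 1 + Real.log w := by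
  have h1 : ∑ p ∈ PI w1 w, 1 / (p : ℝ) ≤ ∑ n ∈ Icc 1 w, ((n : ℝ))⁻¹ := by
    have : PI w1 w ⊆ Icc 1 w := by
      intro p hp
      rw [mem_PI] at hp
      rw [mem_Icc]
      exact ⟨hp.2.one_le, hp.1.2⟩
    refine le_trans (le_of_eq (sum_congr rfl fun p _ => one_div _)) (sum_le_sum_of_subset_of_nonneg this fun p _ _ => by positivity)
  refine h1.trans ?_
  have h2 := harmonic_floor_le_one_add_log (w : ℝ) (by exact_mod_cast hw)
  rw [Nat.floor_natCast, harmonic_eq_sum_Icc] at h2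
  push_cast at h2
  exact h2

/-- **The common shift.** -/
theorem shift (ν : ℕ) (δ : ℝ) (hδ : 0 < δ) : ∀ᶠ k : ℕ in atTop, ∀ w : ℕ, w ≤ k → ∀ H : Finset ℕ, H.card ≤ ν →
    Adm H → ∃ w1 r : ℕ, 2 ≤ w1 ∧ r ≤ k ∧ (∀ p ≤ w1, p.Prime → ∀ h ∈ H, ¬ p ∣ h + r) ∧
      ∑ p ∈ Ex H w1 w r, 1 / (p : ℝ) ≤ δ / Real.log k := by
  set η : ℝ := δ / (32 * (ν + 1)) with hη
  have hη0 : 0 < η := by positivity
  obtain ⟨w0, hw02, hw0⟩ := sum_sq η hη0
  have hlog : Tendsto (fun k : ℕ => Real.log k) atTop atTop := Real.tendsto_log_atTop.comp tendsto_natCast_atTop_atTop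
  have hbig := hlog.eventually_ge_atTop (max (8 * ((w0 : ℝ) + 1)) 16)
  -- `log ^ 2` against the square root
  have hsq : ∀ᶠ k : ℕ in atTop, 8 * ((ν : ℝ) + 1) * (1 + Real.log k) * Real.log k ≤ δ * (k : ℝ) ^ (1 / 2 : ℝ) := by
    have h1 : Tendsto (fun x : ℝ => Real.log x ^ (2 : ℝ) / x ^ (1 / 2 : ℝ)) atTop (𝓝 0) :=
      (isLittleO_log_rpow_rpow_atTop 2 (by norm_num : (0 : ℝ) < 1 / 2)).tendsto_div_nhds_zero
    have h2 := h1.comp tendsto_natCast_atTop_atTop
    have h3 : 0 < δ / (16 * ((ν : ℝ) + 1)) := by positivity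
    filter_upwards [h2.eventually_lt_const h3, hbig, eventually_ge_atTop 1] with k h4 h5 h6
    have hk0 : (0 : ℝ) < k := by exact_mod_cast h6
    have h7 : 0 < (k : ℝ) ^ (1 / 2 : ℝ) := Real.rpow_pos_of_pos hk0 _
    simp only [Function.comp] at h4
    rw [div_lt_iff₀ h7] at h4
    have hl : 16 ≤ Real.log k := (le_max_right _ _).trans h5
    rw [show (2 : ℝ) = ((2 : ℕ) : ℝ) by norm_num, Real.rpow_natCast] at h4
    have h8 : Real.log k ^ 2 * (16 * ((ν : ℝ) + 1)) ≤ δ * (k : ℝ) ^ (1 / 2 : ℝ) := by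
      have h9 := mul_le_mul_of_nonneg_right h4.le (show 0 ≤ 16 * ((ν : ℝ) + 1) by positivity)
      have e : δ / (16 * ((ν : ℝ) + 1)) * (k : ℝ) ^ (1 / 2 : ℝ) * (16 * (ν + 1)) = δ * (k : ℝ) ^ (1 / 2 : ℝ) := by
        field_simp
      linarith
    have h10 : 8 * ((ν : ℝ) + 1) * (1 + Real.log k) * Real.log k ≤ Real.log k ^ 2 * (16 * ((ν : ℝ) + 1)) := by
      have h11 : 1 + Real.log k ≤ 2 * Real.log k := by linarith
      calc 8 * ((ν : ℝ) + 1) * (1 + Real.log k) * Real.log k ≤ 8 * ((ν : ℝ) + 1) * (2 * Real.log k) * Real.log k := by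
            gcongr
        _ = Real.log k ^ 2 * (16 * ((ν : ℝ) + 1)) := by ring
    linarith
  -- the sizes
  have hsz : ∀ᶠ k : ℕ in atTop, (k : ℝ) ^ (7 / 20 : ℝ) * (2 * (k : ℝ) ^ (1 / 2 : ℝ) + 1) ≤ k := by
    have h1 : Tendsto (fun k : ℕ => (k : ℝ) ^ (3 / 20 : ℝ)) atTop atTop :=
      (tendsto_rpow_atTop (by norm_num : (0 : ℝ) < 3 / 20)).comp tendsto_natCast_atTop_atTop
    filter_upwards [h1.eventually_ge_atTop 3, eventually_ge_atTop 1] with k h2 h3
    have hk1 : (1 : ℝ) ≤ k := by exact_mod_cast h3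
    have hk0 : (0 : ℝ) < k := by linarith
    have h4 : 1 ≤ (k : ℝ) ^ (1 / 2 : ℝ) := Real.one_le_rpow hk1 (by norm_num)
    have h5 : 0 < (k : ℝ) ^ (7 / 20 : ℝ) := Real.rpow_pos_of_pos hk0 _
    have e : (k : ℝ) ^ (7 / 20 : ℝ) * (k : ℝ) ^ (1 / 2 : ℝ) * (k : ℝ) ^ (3 / 20 : ℝ) = k := by
      rw [← Real.rpow_add hk0, ← Real.rpow_add hk0]
      norm_num
    calc (k : ℝ) ^ (7 / 20 : ℝ) * (2 * (k : ℝ) ^ (1 / 2 : ℝ) + 1)
        ≤ (k : ℝ) ^ (7 / 20 : ℝ) * (3 * (k : ℝ) ^ (1 / 2 : ℝ)) := by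
          apply mul_le_mul_of_nonneg_left _ h5.le
          linarith
      _ = (k : ℝ) ^ (7 / 20 : ℝ) * (k : ℝ) ^ (1 / 2 : ℝ) * 3 := by ring
      _ ≤ (k : ℝ) ^ (7 / 20 : ℝ) * (k : ℝ) ^ (1 / 2 : ℝ) * (k : ℝ) ^ (3 / 20 : ℝ) := by gcongr
      _ = k := e
  filter_upwards [hbig, hsq, hsz, eventually_ge_atTop 2] with k hk hksq hksz hk2
  intro w hwk H hH hadm
  have hkR : (2 : ℝ) ≤ k := by exact_mod_cast hk2
  have hk0 : (0 : ℝ) < k := by linarith
  have hl16 : 16 ≤ Real.log k := (le_max_right _ _).trans hk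
  have hlw0 : 8 * ((w0 : ℝ) + 1) ≤ Real.log k := (le_max_left _ _).trans hk
  have hl0 : 0 < Real.log k := by linarith
  set w1 := ⌊Real.log k / 4⌋₊ with hw1
  have hw1u : (w1 : ℝ) ≤ Real.log k / 4 := Nat.floor_le (by positivity)
  have hw1l : Real.log k / 4 < w1 + 1 := Nat.lt_floor_add_one _
  have hw1l' : Real.log k / 8 ≤ w1 := by linarith
  have hw12 : 2 ≤ w1 := by
    have : (2 : ℝ) ≤ w1 := by linarith
    exact_mod_cast this
  have hw1w0 : w0 ≤ w1 := by
    have : (w0 : ℝ) ≤ w1 := by linarith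
    exact_mod_cast this
  have hw10 : (0 : ℝ) < w1 := by linarith
  set I := ⌈(k : ℝ) ^ (1 / 2 : ℝ)⌉₊ with hI
  have hs1 : 1 ≤ (k : ℝ) ^ (1 / 2 : ℝ) := Real.one_le_rpow (by linarith) (by norm_num)
  have hIl : (k : ℝ) ^ (1 / 2 : ℝ) ≤ I := Nat.le_ceil _
  have hIu : (I : ℝ) ≤ 2 * (k : ℝ) ^ (1 / 2 : ℝ) := by
    have := (Nat.ceil_lt_add_one (by linarith : 0 ≤ (k : ℝ) ^ (1 / 2 : ℝ))).le
    linarith
  have hI0 : (0 : ℝ) < I := by linarith
  have hI1 : 1 ≤ I := by
    have : (1 : ℝ) ≤ I := hs1.trans hIl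
    exact_mod_cast this
  -- the class
  choose! σ hσ using hadm
  obtain ⟨ρ, hρ, hρm⟩ := exists_N0 w1 σ
  have hprim : (primorial w1 : ℝ) ≤ (k : ℝ) ^ (7 / 20 : ℝ) := by
    have h1 : (primorial w1 : ℝ) ≤ (4 : ℝ) ^ w1 := by exact_mod_cast primorial_le_four_pow w1
    refine h1.trans ?_
    have h2 : (4 : ℝ) ^ w1 = Real.exp (Real.log 4 * w1) := by
      rw [mul_comm, Real.exp_nat_mul, Real.exp_log (by norm_num)]
    rw [h2, Real.rpow_def_of_pos hk0]
    apply Real.exp_le_exp.2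
    have h3 : Real.log 4 ≤ 1.4 := by
      have e : Real.log 4 = 2 * Real.log 2 := by
        rw [show (4 : ℝ) = 2 ^ 2 by norm_num, Real.log_pow]
        norm_num
      rw [e]
      have := Real.log_two_lt_d9
      linarith
    calc Real.log 4 * w1 ≤ 1.4 * (Real.log k / 4) := by gcongr
      _ = Real.log k * (7 / 20) := by ring
  rcases Nat.eq_zero_or_pos w with hw0' | hwpos
  · -- no primes at all
    refine ⟨w1, ρ, hw12, ?_, ?_, ?_⟩
    · have h1 : (ρ : ℝ) ≤ k := by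
        have h2 : (ρ : ℝ) ≤ primorial w1 := by exact_mod_cast hρ.le
        have h3 : (k : ℝ) ^ (7 / 20 : ℝ) ≤ k := by
          conv_rhs => rw [← Real.rpow_one (k : ℝ)]
          exact Real.rpow_le_rpow_of_exponent_le (by linarith) (by norm_num)
        linarith
      exact_mod_cast h1
    · intro p hp hpp h hh hd
      have h1 : ρ % p = σ p % p := hρm p (by
        unfold PW
        rw [mem_filter, mem_range]
        exact ⟨by omega, hpp⟩)
      exact hσ p hpp h hh ((Nat.ModEq.dvd_iff (Nat.ModEq.add_left h h1) dvd_rfl).1 hd)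
    · have : Ex H w1 w ρ = ∅ := by
        unfold Ex
        rw [hw0']
        ext p
        simp only [mem_filter, mem_PI, notMem_empty, iff_false]
        rintro ⟨⟨⟨h1, h2⟩, h3⟩, -⟩
        have := h3.pos
        omega
      rw [this, sum_empty]
      positivity
  obtain ⟨m, hm, hmτ⟩ := avg H w1 w ρ I hI1 (η / w1) (1 + Real.log k) (δ / Real.log k) (hw0 w1 w hw1w0)
    ((sum_recip_le w1 w hwpos).trans (by
      have : Real.log w ≤ Real.log k := Real.log_le_log (by exact_mod_cast hwpos) (by exact_mod_cast hwk)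
      linarith)) (by
    have hν : (H.card : ℝ) ≤ ν + 1 := by
      have : (H.card : ℝ) ≤ ν := by exact_mod_cast hH
      linarith
    have h1 : (ν + 1) * (I * (η / w1)) ≤ I * (δ / Real.log k) / 4 := by
      have h2 : η / w1 ≤ η / (Real.log k / 8) := by gcongr
      calc ((ν : ℝ) + 1) * (I * (η / w1)) ≤ (ν + 1) * (I * (η / (Real.log k / 8))) := by gcongr
        _ = I * (δ / Real.log k) / 4 := by
            rw [hη]
            field_simp
            norm_num
    have h2 : ((ν : ℝ) + 1) * (1 + Real.log k) ≤ I * (δ / Real.log k) / 4 := by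
      have h3 : 8 * ((ν : ℝ) + 1) * (1 + Real.log k) * Real.log k ≤ δ * I := by
        refine hksq.trans ?_
        gcongr
      have h4 : ((ν : ℝ) + 1) * (1 + Real.log k) ≤ δ * I / (8 * Real.log k) := by
        rw [le_div_iff₀ (by positivity)]
        linarith
      refine h4.trans ?_
      have e : (I : ℝ) * (δ / Real.log k) / 4 = 2 * (δ * I / (8 * Real.log k)) := by
        field_simp
        norm_num
      rw [e]
      have : 0 ≤ δ * I / (8 * Real.log k) := by positivity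
      linarith
    have h3 : 0 ≤ (I : ℝ) * (η / w1) + (1 + Real.log k) := by positivity
    calc (H.card : ℝ) * (I * (η / w1) + (1 + Real.log k)) ≤ (ν + 1) * (I * (η / w1) + (1 + Real.log k)) :=
          mul_le_mul_of_nonneg_right hν h3
      _ = (ν + 1) * (I * (η / w1)) + (ν + 1) * (1 + Real.log k) := by ring
      _ ≤ I * (δ / Real.log k) := by
        have : 0 ≤ (I : ℝ) * (δ / Real.log k) := by positivity
        linarith)
  rw [mem_Icc] at hm
  refine ⟨w1, ρ + primorial w1 * m, hw12, ?_, ?_, hmτ⟩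
  · have h1 : ((ρ + primorial w1 * m : ℕ) : ℝ) ≤ k := by
      push_cast
      have h2 : (ρ : ℝ) ≤ primorial w1 := by exact_mod_cast hρ.le
      have h3 : (m : ℝ) ≤ I := by exact_mod_cast hm.2
      have h4 : (0 : ℝ) ≤ primorial w1 := Nat.cast_nonneg _
      calc (ρ : ℝ) + primorial w1 * m ≤ primorial w1 + primorial w1 * I := by gcongr
        _ = primorial w1 * (I + 1) := by ring
        _ ≤ (k : ℝ) ^ (7 / 20 : ℝ) * (2 * (k : ℝ) ^ (1 / 2 : ℝ) + 1) := by gcongr
        _ ≤ k := hksz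
    exact_mod_cast h1
  · intro p hp hpp h hh hd
    have h1 : ρ % p = σ p % p := hρm p (by
      unfold PW
      rw [mem_filter, mem_range]
      exact ⟨by omega, hpp⟩)
    have h2 : p ∣ primorial w1 * m := by
      apply Dvd.dvd.mul_right
      unfold primorial
      exact dvd_prod_of_mem _ (mem_filter.2 ⟨mem_range.2 (by omega), hpp⟩)
    rw [← add_assoc] at hd
    have h3 : p ∣ h + ρ := (Nat.dvd_add_left h2).1 hd
    exact hσ p hpp h hh ((Nat.ModEq.dvd_iff (Nat.ModEq.add_left h h1) dvd_rfl).1 h3)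

end Pool.Agent.H531.GP
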