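import Pool.Agent.H531.GP.Cnt

set_option autoImplicit false

/-!
# The number of integers left by the small primes
-/

open Finset MeasureTheory ProbabilityTheory Filter Topology

namespace Pool.Agent.H531.GP

open Pool.Agent.T2H31.HV Pool.Agent.H531.SI Pool.Agent.H531.MS
open Pool.Agent.H531.CP hiding pos
open Pool.Agent.T2H32.BF hiding PI pos

/-- `e ^ (-γ)` -/
noncomputable def gE : ℝ := Real.exp (-Real.eulerMascheroniConstant)

theorem gE_pos : 0 < gE := Real.exp_pos _

theorem gE_lt : gE < 1 := by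
  unfold gE
  rw [← Real.exp_zero]
  apply Real.exp_lt_exp.2
  have := Real.one_half_lt_eulerMascheroniConstant
  linarith

theorem gE_gt : 1 / 2 < gE := by
  unfold gE
  rw [Real.exp_neg, one_div, inv_lt_inv₀ (by norm_num) (Real.exp_pos _)]
  have := expg
  linarith

/-- the first sieving limit -/
noncomputable def wk (k : ℕ) : ℕ := Pool.Agent.T2H32.BF.ww (E k)

theorem l1E (k : ℕ) : (k : ℝ) ≤ l1 (E k) ∧ l1 (E k) ≤ k + 1 := ⟨log_E_lower k, log_E_upper k⟩

theorem l2E (k : ℕ) (hk : 1 ≤ k) : Real.log k ≤ l2 (E k) ∧ l2 (E k) ≤ Real.log k + 1 / k := by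
  have hk0 : (0 : ℝ) < k := by exact_mod_cast hk
  obtain ⟨h1, h2⟩ := l1E k
  have e : l2 (E k) = Real.log (l1 (E k)) := rfl
  rw [e]
  constructor
  · exact Real.log_le_log hk0 h1
  · refine (Real.log_le_log (by linarith) h2).trans ?_
    have e2 : (k : ℝ) + 1 = k * (1 + 1 / k) := by field_simp
    rw [e2, Real.log_mul hk0.ne' (by positivity)]
    have := Real.log_le_sub_one_of_pos (show 0 < 1 + 1 / (k : ℝ) by positivity)
    linarith

theorem wk_le : ∀ᶠ k : ℕ in atTop, wk k ≤ k := by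
  have hlog : Tendsto (fun k : ℕ => Real.log k) atTop atTop := Real.tendsto_log_atTop.comp tendsto_natCast_atTop_atTop
  filter_upwards [hlog.eventually_ge_atTop 2, eventually_ge_atTop 1] with k h1 h2
  have hk1 : (1 : ℝ) ≤ k := by exact_mod_cast h2
  obtain ⟨h3, h4⟩ := l1E k
  obtain ⟨h5, -⟩ := l2E k h2
  unfold wk Pool.Agent.T2H32.BF.ww
  apply Nat.floor_le_of_le
  rw [div_le_iff₀ (by linarith)]
  nlinarith

theorem TT_le (c δ : ℝ) (hc : 0 < c) (hc2 : c ≤ 2) (hδ : 0 < δ) (hδ1 : δ ≤ 1) : ∀ᶠ k : ℕ in atTop,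
    ((TT c (E k)).card : ℝ) ≤ (c / 2 + 2 * δ) * (k ^ 2 / Real.log k) := by
  have hlog : Tendsto (fun k : ℕ => Real.log k) atTop atTop := Real.tendsto_log_atTop.comp tendsto_natCast_atTop_atTop
  have h1 := ((TT_lim c hc).comp E_top).eventually_lt_const (show c / 2 < c / 2 + δ by linarith)
  filter_upwards [h1, hlog.eventually_ge_atTop 1, eventually_ge_atTop 1,
    (tendsto_natCast_atTop_atTop (R := ℝ)).eventually_ge_atTop (6 / δ)] with k h2 h3 h4 h5
  have hk0 : (0 : ℝ) < k := by exact_mod_cast h4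
  have hk1 : (1 : ℝ) ≤ k := by exact_mod_cast h4
  have hl0 : 0 < Real.log k := by linarith
  obtain ⟨h6, h7⟩ := l1E k
  obtain ⟨h8, -⟩ := l2E k h4
  have hl1 : 0 < l1 (E k) := by linarith
  have hl2 : 0 < l2 (E k) := by linarith
  simp only [Function.comp] at h2
  rw [div_lt_iff₀ (by positivity)] at h2
  have h9 : ((TT c (E k)).card : ℝ) * Real.log k ≤ (c / 2 + δ) * (k + 1) ^ 2 := by
    calc ((TT c (E k)).card : ℝ) * Real.log k ≤ (TT c (E k)).card * l2 (E k) := by gcongr
      _ ≤ (c / 2 + δ) * l1 (E k) ^ 2 := h2.le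
      _ ≤ (c / 2 + δ) * (k + 1) ^ 2 := by gcongr
  have h10 : (c / 2 + δ) * ((k : ℝ) + 1) ^ 2 ≤ (c / 2 + 2 * δ) * k ^ 2 := by
    rw [div_le_iff₀ hδ] at h5
    have h11 : (c / 2 + δ) * (2 * k + 1) ≤ δ * k ^ 2 := by
      calc (c / 2 + δ) * (2 * (k : ℝ) + 1) ≤ 2 * (3 * k) := by
            apply mul_le_mul _ _ (by positivity) (by norm_num)
            · linarith
            · linarith
        _ = 6 * k := by ring
        _ ≤ k * δ * k := by gcongr
        _ = δ * k ^ 2 := by ring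
    nlinarith
  rw [← mul_div_assoc, le_div_iff₀ hl0]
  linarith

theorem V_wk_ge (δ : ℝ) (hδ : 0 < δ) : ∀ᶠ k : ℕ in atTop, (gE - 2 * δ) / Real.log k ≤ V (wk k) := by
  have hlog : Tendsto (fun k : ℕ => Real.log k) atTop atTop := Real.tendsto_log_atTop.comp tendsto_natCast_atTop_atTop
  have h1 := (V_ww.comp E_top).eventually_const_lt (show gE - δ < Real.exp (-Real.eulerMascheroniConstant) by
    unfold gE
    linarith)
  filter_upwards [h1, hlog.eventually_ge_atTop 1, eventually_ge_atTop 1,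
    (tendsto_natCast_atTop_atTop (R := ℝ)).eventually_ge_atTop (1 / δ)] with k h2 h3 h4 h5
  have hk0 : (0 : ℝ) < k := by exact_mod_cast h4
  have hl0 : 0 < Real.log k := by linarith
  obtain ⟨h8, h9⟩ := l2E k h4
  simp only [Function.comp] at h2
  have hV := V_pos (wk k)
  have h2' : gE - δ < V (wk k) * l2 (E k) := h2
  rw [div_le_iff₀ hl0]
  have h6 : l2 (E k) ≤ (1 + δ) * Real.log k := by
    have h7 : 1 / (k : ℝ) ≤ δ := by
      rw [div_le_iff₀ hk0]
      rw [div_le_iff₀ hδ] at h5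
      linarith
    nlinarith
  have h7 : gE - δ < V (wk k) * Real.log k * (1 + δ) := by
    have := mul_le_mul_of_nonneg_left h6 hV.le
    linarith
  have hg1 := gE_lt
  by_contra hcon
  push Not at hcon
  have h10 : V (wk k) * Real.log k * (1 + δ) < (gE - 2 * δ) * (1 + δ) := by gcongr
  have e : (gE - 2 * δ) * (1 + δ) = gE - δ - δ * (1 - gE) - 2 * δ ^ 2 := by ring
  rw [e] at h10
  have : 0 ≤ δ * (1 - gE) := mul_nonneg hδ.le (by linarith)
  nlinarith [sq_nonneg δ]

/-- multiples -/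
theorem mult_card (D p : ℕ) : ((Ioc 0 D).filter fun l => p ∣ l).card = D / p := Nat.Ioc_filter_dvd_card_eq_div D p

/-- **The number of integers left by the small primes.** -/
theorem cnt_small (ν : ℕ) (ε : ℝ) (hε : 0 < ε) (hε1 : ε ≤ 1) : ∀ᶠ k : ℕ in atTop, ∀ H : Finset ℕ, H.card ≤ ν →
    Adm H → ∃ σ : ℕ → ℕ, (∀ p ≤ wk k, p.Prime → ∀ h ∈ H, ¬ p ∣ h + σ p) ∧
      ∀ G : ℕ, (G : ℝ) ≤ (2 * gE - ε) * k ^ 2 →
        (((range (G + 1)).filter fun t => ∀ p ≤ wk k, p.Prime → ¬ p ∣ t + σ p).card : ℝ) ≤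
          (1 - ε / 8) * (k ^ 2 * V (wk k)) := by
  set δ : ℝ := ε / 100 with hδ
  have hδ0 : 0 < δ := by positivity
  have hg1 := gE_lt
  have hg2 := gE_gt
  have hlog : Tendsto (fun k : ℕ => Real.log k) atTop atTop := Real.tendsto_log_atTop.comp tendsto_natCast_atTop_atTop
  filter_upwards [shift ν δ hδ0, wk_le, TT_le (2 * gE - ε / 2) δ (by linarith) (by linarith) hδ0 (by linarith),
    V_wk_ge δ hδ0, hlog.eventually_ge_atTop 1, eventually_ge_atTop 10,
    (tendsto_natCast_atTop_atTop (R := ℝ)).eventually_ge_atTop (2 / ε),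
    (tendsto_natCast_atTop_atTop (R := ℝ)).eventually_ge_atTop (1 / δ)] with k hsh hwk hTT hVw hl1 hk10 hkε hkδ
  intro H hH hadm
  have hk : (10 : ℝ) ≤ k := by exact_mod_cast hk10
  have hk0 : (0 : ℝ) < k := by linarith
  have hl0 : 0 < Real.log k := by linarith
  obtain ⟨w1, r, hw12, hrk, hr1, hr2⟩ := hsh (wk k) hwk H hH hadm
  choose! σ0 hσ0 using hadm
  refine ⟨fun p => if ∃ h ∈ H, p ∣ h + r then σ0 p else r, ?_, ?_⟩
  · intro p _ hpp h hh
    simp only
    split_ifs with h1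
    · exact hσ0 p hpp h hh
    · intro hd
      exact h1 ⟨h, hh, hd⟩
  · intro G hG
    set σ : ℕ → ℕ := fun p => if ∃ h ∈ H, p ∣ h + r then σ0 p else r with hσ
    set A := (range (G + 1)).filter fun t => ∀ p ≤ wk k, p.Prime → ¬ p ∣ t + σ p with hA
    set c : ℝ := 2 * gE - ε / 2 with hc
    set D := yy c (E k) with hD
    have hDl : c * (k : ℝ) ^ 2 ≤ D := by
      have h1 : c * l1 (E k) ^ 2 ≤ D := Nat.le_ceil _
      refine le_trans ?_ h1
      have := (l1E k).1
      have hc0 : 0 ≤ c := by rw [hc]; linarith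
      gcongr
    have hDu : (D : ℝ) ≤ 4 * k ^ 2 := by
      have h1 : (D : ℝ) ≤ c * l1 (E k) ^ 2 + 1 := (Nat.ceil_lt_add_one (by
        have hc0 : 0 ≤ c := by rw [hc]; linarith
        positivity)).le
      have h2 := (l1E k).2
      have h3 := (l1E k).1
      have h4 : c * l1 (E k) ^ 2 ≤ 2 * (k + 1) ^ 2 := by
        have hc2 : c ≤ 2 := by rw [hc]; linarith
        have h0 : 0 ≤ l1 (E k) := by linarith
        gcongr
      nlinarith
    have hGD : G + r ≤ D := by
      have h1 : ((G + r : ℕ) : ℝ) ≤ D := by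
        push_cast
        have h2 : (r : ℝ) ≤ k := by exact_mod_cast hrk
        have h3 : (k : ℝ) ≤ ε / 2 * k ^ 2 := by
          rw [div_le_iff₀ hε] at hkε
          nlinarith
        have e : c * (k : ℝ) ^ 2 = (2 * gE - ε) * k ^ 2 + ε / 2 * k ^ 2 := by
          rw [hc]
          ring
        linarith
      exact_mod_cast h1
    have hsub : A.image (fun t => t + r) ⊆ {0} ∪ TT c (E k) ∪
        (Ex H w1 (wk k) r).biUnion fun p => (Ioc 0 D).filter fun l => p ∣ l := by
      intro l hl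
      rw [mem_image] at hl
      obtain ⟨t, ht, rfl⟩ := hl
      rw [hA, mem_filter, mem_range] at ht
      obtain ⟨ht1, ht2⟩ := ht
      rw [mem_union, mem_union, mem_singleton]
      by_cases h0 : t + r = 0
      · exact Or.inl (Or.inl h0)
      have hlD : t + r ∈ Ioc 0 D := mem_Ioc.2 ⟨by omega, by omega⟩
      by_cases hro : ∀ p ≤ wk k, p.Prime → ¬ p ∣ t + r
      · left
        right
        unfold TT rough
        exact mem_filter.2 ⟨hlD, hro⟩
      · right
        push Not at hro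
        obtain ⟨p, hpw, hpp, hpd⟩ := hro
        have hex : ∃ h ∈ H, p ∣ h + r := by
          by_contra hne
          have h1 := ht2 p hpw hpp
          simp only [hσ] at h1
          rw [if_neg hne] at h1
          exact h1 hpd
        rw [mem_biUnion]
        refine ⟨p, ?_, mem_filter.2 ⟨hlD, hpd⟩⟩
        unfold Ex
        rw [mem_filter, mem_PI]
        refine ⟨⟨⟨?_, hpw⟩, hpp⟩, hex⟩
        by_contra hle
        obtain ⟨h, hh, hd⟩ := hex
        exact hr1 p (by omega) hpp h hh hd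
    have h1 := (card_le_card hsub).trans ((card_union_le _ _).trans
      (Nat.add_le_add (card_union_le _ _) card_biUnion_le))
    rw [card_image_of_injective _ (add_left_injective r), card_singleton] at h1
    simp only [mult_card] at h1
    have h2 : (A.card : ℝ) ≤ 1 + (TT c (E k)).card + ∑ p ∈ Ex H w1 (wk k) r, (D : ℝ) / p := by
      have h3 : (A.card : ℝ) ≤ ((1 + (TT c (E k)).card + ∑ p ∈ Ex H w1 (wk k) r, D / p : ℕ) : ℝ) := by
        exact_mod_cast h1
      refine h3.trans ?_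
      push_cast
      apply add_le_add le_rfl
      exact sum_le_sum fun p _ => Nat.cast_div_le
    have h3 : ∑ p ∈ Ex H w1 (wk k) r, (D : ℝ) / p ≤ 4 * δ * (k ^ 2 / Real.log k) := by
      have e : ∑ p ∈ Ex H w1 (wk k) r, (D : ℝ) / p = D * ∑ p ∈ Ex H w1 (wk k) r, 1 / (p : ℝ) := by
        rw [mul_sum]
        exact sum_congr rfl fun p _ => by ring
      rw [e]
      calc (D : ℝ) * ∑ p ∈ Ex H w1 (wk k) r, 1 / (p : ℝ) ≤ 4 * k ^ 2 * (δ / Real.log k) := by
            apply mul_le_mul hDu hr2 (sum_nonneg fun p _ => by positivity) (by positivity)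
        _ = 4 * δ * (k ^ 2 / Real.log k) := by ring
    set U : ℝ := (k : ℝ) ^ 2 / Real.log k with hU
    have hU0 : 0 < U := by positivity
    have h4 : 1 ≤ δ * U := by
      have h5 : (k : ℝ) ≤ U := by
        rw [hU, le_div_iff₀ hl0]
        have h6 : Real.log k ≤ k := (Real.log_le_sub_one_of_pos hk0).trans (by linarith)
        nlinarith
      rw [div_le_iff₀ hδ0] at hkδ
      nlinarith
    have h5 : (A.card : ℝ) ≤ (gE - ε / 4 + 7 * δ) * U := by
      have e : (gE - ε / 4 + 7 * δ) * U = δ * U + (c / 2 + 2 * δ) * U + 4 * δ * U := by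
        rw [hc]
        ring
      rw [e]
      linarith
    have h6 : (gE - 2 * δ) * U ≤ (k : ℝ) ^ 2 * V (wk k) := by
      have h7 := mul_le_mul_of_nonneg_left hVw (sq_nonneg (k : ℝ))
      have e : (k : ℝ) ^ 2 * ((gE - 2 * δ) / Real.log k) = (gE - 2 * δ) * U := by
        rw [hU]
        ring
      rwa [e] at h7
    refine h5.trans ?_
    have h7 : (1 - ε / 8) * ((gE - 2 * δ) * U) ≤ (1 - ε / 8) * ((k : ℝ) ^ 2 * V (wk k)) :=
      mul_le_mul_of_nonneg_left h6 (by linarith)
    refine le_trans ?_ h7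
    have e : (1 - ε / 8) * ((gE - 2 * δ) * U) = (gE - 2 * δ - ε / 8 * (gE - 2 * δ)) * U := by ring
    rw [e]
    apply mul_le_mul_of_nonneg_right _ hU0.le
    have h8 : ε / 8 * (gE - 2 * δ) ≤ ε / 8 := by
      have : gE - 2 * δ ≤ 1 := by linarith
      have h9 := mul_le_mul_of_nonneg_left this (show 0 ≤ ε / 8 by positivity)
      linarith
    have h9 : 9 * δ ≤ ε / 8 := by
      rw [hδ]
      linarith
    linarith

end Pool.Agent.H531.GP
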