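import Pool.Agent.H531.CP.Sec

set_option autoImplicit false

/-!
# Blocks that are sieved out except for prescribed elements
-/

open Finset MeasureTheory ProbabilityTheory Filter Topology

namespace Pool.Agent.H531.GP

open Pool.Agent.T2H31.HV Pool.Agent.H531.SI Pool.Agent.H531.MS Pool.Agent.H531.CP
open Pool.Agent.T2H32.BF hiding PI

section prob

variable {Ω : Type} [MeasurableSpace Ω] {P : Measure Ω} {a : ℕ → Ω → ℕ}

/-- **Recursion.** -/
theorem KS_insert (h : Model P a) (T H L : Finset ℕ) (p : ℕ) (hp : p.Prime) (hpL : p ∉ L) :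
    P.real (Kill a T (insert p L) ∩ Surv a (insert p L) H) =
      (1 / p) * ∑ r ∈ range p, if r ∈ H.image (fun u => u % p) then 0 else
        P.real (Kill a (T.filter (fun u => u % p ≠ r)) L ∩ Surv a L H) := by
  have := prob h
  rw [split_class h p hp _ ((Kill_meas h _ _).inter (Surv_meas h _ _)), mul_sum]
  refine sum_congr rfl fun r hr => ?_
  by_cases hrH : r ∈ H.image (fun u => u % p)
  · rw [if_pos hrH, mul_zero]
    have e : {ω | a p ω = r} ∩ (Kill a T (insert p L) ∩ Surv a (insert p L) H) = ∅ := by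
      ext ω
      simp only [Set.mem_inter_iff, Set.mem_ofPred_eq, Set.mem_empty_iff_false, iff_false]
      rintro ⟨h1, -, h2⟩
      obtain ⟨u, hu, he⟩ := mem_image.1 hrH
      exact h2 p (mem_insert_self _ _) u hu (he.trans h1.symm)
    rw [e]
    simp
  · rw [if_neg hrH]
    have e : {ω | a p ω = r} ∩ (Kill a T (insert p L) ∩ Surv a (insert p L) H) =
        {ω | a p ω ∈ ({r} : Set ℕ)} ∩ (Kill a (T.filter (fun u => u % p ≠ r)) L ∩ Surv a L H) := by
      ext ω
      simp only [Set.mem_inter_iff, Kill, Surv, Set.mem_ofPred_eq, mem_insert, Set.mem_singleton_iff, mem_filter]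
      constructor
      · rintro ⟨h1, h2, h3⟩
        refine ⟨h1, fun u hu => ?_, fun q hq => h3 q (Or.inr hq)⟩
        obtain ⟨q, hq | hq, h4⟩ := h2 u hu.1
        · subst hq
          exact absurd (h4.trans h1) hu.2
        · exact ⟨q, hq, h4⟩
      · rintro ⟨h1, h2, h3⟩
        refine ⟨h1, fun u hu => ?_, fun q hq => ?_⟩
        · by_cases h4 : u % p = r
          · exact ⟨p, Or.inl rfl, h4.trans h1.symm⟩
          · obtain ⟨q, hq, h5⟩ := h2 u ⟨hu, h4⟩
            exact ⟨q, Or.inr hq, h5⟩
        · rcases hq with rfl | hq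
          · intro u hu he
            exact hrH (mem_image.2 ⟨u, hu, he.trans h1⟩)
          · exact h3 q hq
    rw [e, measureReal_def, indep_sg h {p} L (by
        rw [Set.disjoint_singleton_left]
        exact_mod_cast hpL) _ _ (sg_meas a {p} p rfl _)
        (@MeasurableSet.inter _ (sg a L) _ _ (Kill_sg a _ L) (Surv_sg a L H)), ENNReal.toReal_mul]
    have h1 : (P {ω | a p ω ∈ ({r} : Set ℕ)}).toReal = 1 / p := by
      have := h.uniform p hp r (mem_range.1 hr)
      rw [measureReal_def] at this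
      exact this
    rw [h1, measureReal_def]

theorem Surv_insert (h : Model P a) (H L : Finset ℕ) (hL : ∀ p ∈ L, p.Prime) (p : ℕ) (hp : p.Prime) (hpL : p ∉ L) :
    P.real (Surv a (insert p L) H) = (1 - ((H.image (fun u => u % p)).card : ℝ) / p) * P.real (Surv a L H) := by
  rw [Surv_prob h H (insert p L) (fun q hq => by
    rcases mem_insert.1 hq with rfl | hq
    · exact hp
    · exact hL q hq), Surv_prob h H L hL, prod_insert hpL]

/-- **Correlation.** -/
theorem kill_surv (h : Model P a) (H L : Finset ℕ) (hL : ∀ p ∈ L, p.Prime) :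
    ∀ T : Finset ℕ, (∀ p ∈ L, ∀ t ∈ T, ∀ u ∈ H, t % p ≠ u % p) →
      P.real (Kill a T L) * P.real (Surv a L H) ≤ P.real (Kill a T L ∩ Surv a L H) := by
  have := prob h
  induction L using Finset.induction_on with
  | empty =>
    intro T _
    have e : Surv a ∅ H = Set.univ := by
      ext ω
      simp [Surv]
    rw [e, Set.inter_univ]
    simp
  | insert p L hp ih =>
    intro T hT
    have hpp : p.Prime := hL p (mem_insert_self _ _)
    have hp0 : (0 : ℝ) < p := by exact_mod_cast hpp.pos
    have ih' := ih (fun q hq => hL q (mem_insert_of_mem hq))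
    rw [KS_insert h T H L p hpp hp, Kill_insert h T L p hpp hp,
      Surv_insert h H L (fun q hq => hL q (mem_insert_of_mem hq)) p hpp hp]
    set m : ℝ := ((H.image (fun u => u % p)).card : ℝ) with hm
    set S := P.real (Surv a L H) with hS
    have hS0 : 0 ≤ S := measureReal_nonneg
    set F : ℕ → ℝ := fun r => P.real (Kill a (T.filter (fun u => u % p ≠ r)) L) with hF
    set F0 := P.real (Kill a T L) with hF0
    have hF00 : 0 ≤ F0 := measureReal_nonneg
    have hFge : ∀ r, F0 ≤ F r := fun r =>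
      measureReal_mono (Kill_anti a _ _ _ (filter_subset _ _)) (measure_ne_top _ _)
    have hFeq : ∀ r ∈ H.image (fun u => u % p), F r = F0 := by
      intro r hr
      obtain ⟨u, hu, rfl⟩ := mem_image.1 hr
      have : T.filter (fun v => v % p ≠ u % p) = T :=
        filter_true_of_mem fun v hv => hT p (mem_insert_self _ _) v hv u hu
      simp only [hF, this, hF0]
    have hstep : ∀ r ∈ range p, (if r ∈ H.image (fun u => u % p) then (0 : ℝ) else F r * S) ≤
        (if r ∈ H.image (fun u => u % p) then 0 else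
          P.real (Kill a (T.filter (fun u => u % p ≠ r)) L ∩ Surv a L H)) := by
      intro r _
      split_ifs
      · exact le_rfl
      · exact ih' _ fun q hq t ht u hu => hT q (mem_insert_of_mem hq) t (mem_filter.1 ht).1 u hu
    refine le_trans ?_ (mul_le_mul_of_nonneg_left (sum_le_sum hstep) (by positivity))
    have hsub : H.image (fun u => u % p) ⊆ range p := by
      intro r hr
      obtain ⟨u, _, rfl⟩ := mem_image.1 hr
      exact mem_range.2 (Nat.mod_lt _ hpp.pos)
    have e1 : ∑ r ∈ range p, (if r ∈ H.image (fun u => u % p) then (0 : ℝ) else F r * S) =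
        (∑ r ∈ range p \ H.image (fun u => u % p), F r) * S := by
      rw [sum_mul, ← sum_sdiff hsub]
      have h1 : ∑ r ∈ H.image (fun u => u % p), (if r ∈ H.image (fun u => u % p) then (0 : ℝ) else F r * S) = 0 :=
        sum_eq_zero fun r hr => if_pos hr
      rw [h1, add_zero]
      exact sum_congr rfl fun r hr => if_neg (mem_sdiff.1 hr).2
    have e2 : ∑ r ∈ range p, F r = ∑ r ∈ range p \ H.image (fun u => u % p), F r + m * F0 := by
      rw [← sum_sdiff hsub]
      congr 1
      rw [sum_congr rfl hFeq, sum_const, nsmul_eq_mul]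
    have hA : ((p : ℝ) - m) * F0 ≤ ∑ r ∈ range p \ H.image (fun u => u % p), F r := by
      have h1 : ∑ r ∈ range p \ H.image (fun u => u % p), F0 ≤ ∑ r ∈ range p \ H.image (fun u => u % p), F r :=
        sum_le_sum fun r _ => hFge r
      rw [sum_const, nsmul_eq_mul, card_sdiff_of_subset hsub, card_range, Nat.cast_sub (by
        have := card_le_card hsub
        rwa [card_range] at this)] at h1
      exact h1
    rw [e1, e2]
    set A := ∑ r ∈ range p \ H.image (fun u => u % p), F r with hAd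
    have hm0 : 0 ≤ m := Nat.cast_nonneg _
    have e3 : 1 / (p : ℝ) * (A + m * F0) * ((1 - m / p) * S) =
        1 / (p : ℝ) * (A * S) - (m / p) * (1 / p) * S * (A - (p - m) * F0) := by
      field_simp
      ring
    rw [e3]
    have h2 : 0 ≤ (m / p) * (1 / p) * S * (A - (p - m) * F0) := by
      apply mul_nonneg (by positivity)
      linarith
    linarith

omit [MeasurableSpace Ω] in
theorem ind_inter_prod {ι : Type*} (A : Set Ω) (S : Finset ι) (B : ι → Set Ω) (ω : Ω) :
    (A ∩ ⋂ i ∈ S, B i).indicator (fun _ => (1 : ℝ)) ω =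
      A.indicator (fun _ => (1 : ℝ)) ω * ∏ i ∈ S, (B i).indicator (fun _ => (1 : ℝ)) ω := by
  classical
  by_cases hA : ω ∈ A
  · by_cases hB : ∀ i ∈ S, ω ∈ B i
    · rw [Set.indicator_of_mem (show ω ∈ A ∩ ⋂ i ∈ S, B i from ⟨hA, Set.mem_iInter₂.2 hB⟩),
        Set.indicator_of_mem hA, prod_congr rfl fun i hi => Set.indicator_of_mem (hB i hi) _]
      simp
    · have h1 : ω ∉ A ∩ ⋂ i ∈ S, B i := fun h => hB fun i hi => Set.mem_iInter₂.1 h.2 i hi
      rw [Set.indicator_of_notMem h1]
      push Not at hB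
      obtain ⟨i, hi, hn⟩ := hB
      rw [prod_eq_zero hi (Set.indicator_of_notMem hn _), mul_zero]
  · have h1 : ω ∉ A ∩ ⋂ i ∈ S, B i := fun h => hA h.1
    rw [Set.indicator_of_notMem h1, Set.indicator_of_notMem hA, zero_mul]

omit [MeasurableSpace Ω] in
/-- **Inclusion and exclusion.** -/
theorem ind_id (a : ℕ → Ω → ℕ) (T H L : Finset ℕ) (f : ℕ → ℕ) (ω : Ω) :
    (Kill a T L ∩ Surv a L (H.image f)).indicator (fun _ => (1 : ℝ)) ω =
      ∑ S ∈ H.powerset, (-1) ^ S.card * (Kill a (T ∪ S.image f) L).indicator (fun _ => (1 : ℝ)) ω := by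
  classical
  have e1 : Kill a T L ∩ Surv a L (H.image f) = Kill a T L ∩ ⋂ u ∈ H, (Kill a {f u} L)ᶜ := by
    congr 1
    ext ω
    simp only [Surv, Kill, Set.mem_ofPred_eq, Set.mem_iInter, Set.mem_compl_iff, mem_image, mem_singleton,
      forall_eq, not_exists, not_and]
    constructor
    · intro h u hu p hp
      exact h p hp (f u) ⟨u, hu, rfl⟩
    · rintro h p hp v ⟨u, hu, rfl⟩
      exact h u hu p hp
  have e2 : ∀ S : Finset ℕ, Kill a (T ∪ S.image f) L = Kill a T L ∩ ⋂ u ∈ S, Kill a {f u} L := by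
    intro S
    ext ω
    simp only [Kill, Set.mem_ofPred_eq, Set.mem_inter_iff, Set.mem_iInter, mem_union, mem_image, mem_singleton,
      forall_eq]
    constructor
    · intro h
      exact ⟨fun u hu => h u (Or.inl hu), fun u hu => h (f u) (Or.inr ⟨u, hu, rfl⟩)⟩
    · rintro ⟨h1, h2⟩ v (hv | ⟨u, hu, rfl⟩)
      · exact h1 v hv
      · exact h2 u hu
  rw [e1, ind_inter_prod]
  have e3 : ∀ u ∈ H, (Kill a {f u} L)ᶜ.indicator (fun _ => (1 : ℝ)) ω =
      -(Kill a {f u} L).indicator (fun _ => (1 : ℝ)) ω + 1 := by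
    intro u _
    by_cases h : ω ∈ Kill a {f u} L
    · rw [Set.indicator_of_mem h, Set.indicator_of_notMem (fun h' : ω ∈ (Kill a {f u} L)ᶜ => h' h)]
      ring
    · rw [Set.indicator_of_notMem h, Set.indicator_of_mem (show ω ∈ (Kill a {f u} L)ᶜ from h)]
      ring
  rw [prod_congr rfl e3, prod_add, mul_sum]
  refine sum_congr rfl fun S _ => ?_
  rw [e2, ind_inter_prod, prod_const_one, mul_one, prod_neg]
  ring

/-- **Counting with signs.** -/
theorem signed [IsProbabilityMeasure P] {ι : Type*} (I : Finset ι) (H : Finset ℕ) (G : ι → Set Ω)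
    (K : Finset ℕ → ι → Set Ω) (hG : ∀ i ∈ I, MeasurableSet (G i)) (hK : ∀ S, ∀ i ∈ I, MeasurableSet (K S i))
    (hid : ∀ i ∈ I, ∀ ω, (G i).indicator (fun _ => (1 : ℝ)) ω =
      ∑ S ∈ H.powerset, (-1) ^ S.card * (K S i).indicator (fun _ => (1 : ℝ)) ω)
    (M ξ β θ : ℝ) (hM : 0 < M) (hξ : 0 ≤ ξ) (hθ : 0 < θ)
    (hS : ∀ S ∈ H.powerset, ∑ i ∈ I, P.real (K S i) ≤ M)
    (hpair : ∀ S ∈ H.powerset, ∀ i ∈ I, ∀ j ∈ I, i ≠ j →
      P.real (K S i ∩ K S j) ≤ (1 + ξ) * (P.real (K S i) * P.real (K S j)))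
    (hβ : β * M ≤ ∑ i ∈ I, P.real (G i)) :
    P.real {ω | cnt I G ω < (β - 2 ^ H.card * θ) * M} ≤ 2 ^ H.card * ((1 / M + ξ) / θ ^ 2) := by
  classical
  have hint : ∀ (A : Set Ω), MeasurableSet A → ∫ ω, A.indicator (fun _ => (1 : ℝ)) ω ∂P = P.real A := by
    intro A hA
    rw [integral_indicator_const _ hA]
    simp
  have hGS : ∀ i ∈ I, P.real (G i) = ∑ S ∈ H.powerset, (-1) ^ S.card * P.real (K S i) := by
    intro i hi
    rw [← hint _ (hG i hi)]
    have e : (fun ω => (G i).indicator (fun _ => (1 : ℝ)) ω) =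
        fun ω => ∑ S ∈ H.powerset, (-1) ^ S.card * (K S i).indicator (fun _ => (1 : ℝ)) ω := funext (hid i hi)
    have e' : ∫ ω, (G i).indicator (fun _ => (1 : ℝ)) ω ∂P =
        ∫ ω, ∑ S ∈ H.powerset, (-1) ^ S.card * (K S i).indicator (fun _ => (1 : ℝ)) ω ∂P := by
      rw [e]
    rw [e', integral_finsetSum _ fun S _ => ((integrable_const (1 : ℝ)).indicator (hK S i hi)).const_mul _]
    refine sum_congr rfl fun S _ => ?_
    rw [integral_const_mul, hint _ (hK S i hi)]
  set E : Finset ℕ → ℝ := fun S => ∑ i ∈ I, P.real (K S i) with hE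
  have hcnt : ∀ ω, cnt I G ω - ∑ i ∈ I, P.real (G i) =
      ∑ S ∈ H.powerset, (-1) ^ S.card * (cnt I (K S) ω - E S) := by
    intro ω
    have e1 : cnt I G ω = ∑ S ∈ H.powerset, (-1) ^ S.card * cnt I (K S) ω := by
      unfold cnt
      rw [sum_congr rfl fun i hi => hid i hi ω, sum_comm]
      exact sum_congr rfl fun S _ => (mul_sum _ _ _).symm
    have e2 : ∑ i ∈ I, P.real (G i) = ∑ S ∈ H.powerset, (-1) ^ S.card * E S := by
      rw [sum_congr rfl hGS, sum_comm]
      exact sum_congr rfl fun S _ => (mul_sum _ _ _).symm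
    rw [e1, e2, ← sum_sub_distrib]
    exact sum_congr rfl fun S _ => by ring
  have hsub : {ω | cnt I G ω < (β - 2 ^ H.card * θ) * M} ⊆
      ⋃ S ∈ H.powerset, {ω | θ * M ≤ |cnt I (K S) ω - E S|} := by
    intro ω hω
    have hω : cnt I G ω < (β - 2 ^ H.card * θ) * M := hω
    by_contra hcon
    simp only [Set.mem_iUnion, Set.mem_ofPred_eq, not_exists, not_le] at hcon
    have h1 : |cnt I G ω - ∑ i ∈ I, P.real (G i)| ≤ 2 ^ H.card * (θ * M) := by
      rw [hcnt ω]
      refine (abs_sum_le_sum_abs _ _).trans ?_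
      calc ∑ S ∈ H.powerset, |(-1) ^ S.card * (cnt I (K S) ω - E S)| ≤ ∑ S ∈ H.powerset, θ * M := by
            refine sum_le_sum fun S hS' => ?_
            rw [abs_mul, abs_pow, abs_neg, abs_one, one_pow, one_mul]
            exact (hcon S hS').le
        _ = 2 ^ H.card * (θ * M) := by
            rw [sum_const, card_powerset, nsmul_eq_mul]
            push_cast
            ring
    have h2 := (abs_le.1 h1).1
    have h3 : (β - 2 ^ H.card * θ) * M = β * M - 2 ^ H.card * (θ * M) := by ring
    linarith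
  refine (measureReal_mono hsub (measure_ne_top _ _)).trans ((measureReal_biUnion_finset_le _ _).trans ?_)
  have h1 : ∀ S ∈ H.powerset, P.real {ω | θ * M ≤ |cnt I (K S) ω - E S|} ≤ (1 / M + ξ) / θ ^ 2 := by
    intro S hS'
    refine (cheb (P := P) I (K S) (hK S) (θ * M) (by positivity)).trans ?_
    have h2 := hS S hS'
    have hE0 : 0 ≤ E S := sum_nonneg fun i _ => measureReal_nonneg
    have h4 : ∑ i ∈ I, ∑ j ∈ I, P.real (K S i ∩ K S j) ≤ E S + (1 + ξ) * E S ^ 2 := by
      have h5 : ∀ i ∈ I, ∀ j ∈ I, P.real (K S i ∩ K S j) ≤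
          (if i = j then P.real (K S i) else 0) + (1 + ξ) * (P.real (K S i) * P.real (K S j)) := by
        intro i hi j hj
        by_cases hij : i = j
        · subst hij
          rw [if_pos rfl, Set.inter_self]
          have h8 : 0 ≤ P.real (K S i) := measureReal_nonneg
          have : 0 ≤ (1 + ξ) * (P.real (K S i) * P.real (K S i)) := by positivity
          linarith
        · rw [if_neg hij, zero_add]
          exact hpair S hS' i hi j hj hij
      calc ∑ i ∈ I, ∑ j ∈ I, P.real (K S i ∩ K S j)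
          ≤ ∑ i ∈ I, ∑ j ∈ I, ((if i = j then P.real (K S i) else 0) + (1 + ξ) * (P.real (K S i) * P.real (K S j))) :=
            sum_le_sum fun i hi => sum_le_sum fun j hj => h5 i hi j hj
        _ = E S + (1 + ξ) * E S ^ 2 := by
            simp only [sum_add_distrib]
            congr 1
            · simp only [hE]
              refine sum_congr rfl fun i hi => ?_
              rw [sum_ite_eq, if_pos hi]
            · simp only [hE]
              rw [sq, sum_mul_sum, mul_sum]
              refine sum_congr rfl fun i _ => ?_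
              rw [mul_sum]
    calc (∑ i ∈ I, ∑ j ∈ I, P.real (K S i ∩ K S j) - (∑ i ∈ I, P.real (K S i)) ^ 2) / (θ * M) ^ 2
        ≤ (E S + ξ * E S ^ 2) / (θ * M) ^ 2 := by
          apply div_le_div_of_nonneg_right _ (by positivity)
          simp only [hE] at h4 ⊢
          linarith
      _ ≤ (M + ξ * M ^ 2) / (θ * M) ^ 2 := by
          apply div_le_div_of_nonneg_right _ (by positivity)
          have h6 : E S ^ 2 ≤ M ^ 2 := by gcongr
          have h7 : ξ * E S ^ 2 ≤ ξ * M ^ 2 := mul_le_mul_of_nonneg_left h6 hξ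
          linarith
      _ = (1 / M + ξ) / θ ^ 2 := by
          field_simp
  refine (sum_le_sum h1).trans (le_of_eq ?_)
  rw [sum_const, card_powerset, nsmul_eq_mul]
  push_cast
  rfl

end prob

end Pool.Agent.H531.GP
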