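import Pool.Agent.H531.GP.Asm4
import Pool.Agent.H531.CP.Fin

set_option autoImplicit false

/-!
# All the patterns
-/

open Finset MeasureTheory ProbabilityTheory Filter Topology

namespace Pool.Agent.H531.GP

open Pool.Agent.T2H31.HV Pool.Agent.H531.SI Pool.Agent.H531.MS
open Pool.Agent.H531.CP hiding pos Par low_all ratio_all low_exp
open Pool.Agent.T2H32.BF hiding PI pos

/-- all the patterns at the scale `k` -/
def AllPat (z : ℕ → ℕ) (ε : ℝ) (ν : ℕ) (k : ℕ) (b : ℕ → ℕ) : Prop :=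
  ∀ (H : Finset ℕ) (G : ℕ), 1 ≤ H.card → H.card ≤ ν → Adm H → (∀ u ∈ H, u ≤ G) →
    (G : ℝ) ≤ (2 * gE - ε) * k ^ 2 → PatAt z b H G k

section prob

variable {Ω : Type} [MeasurableSpace Ω] {P : Measure Ω} {a : ℕ → Ω → ℕ}

theorem all_prob (h : Model P a) (z : ℕ → ℕ) (hz : Monotone z)
    (hzV : Tendsto (fun n => V (z n) * Real.log n) atTop (𝓝 1)) (hzt : Tendsto z atTop atTop)
    (ε : ℝ) (hε : 0 < ε) (hε1 : ε ≤ 1) (ν : ℕ) (hν : 1 ≤ ν) :
    ∀ᶠ k : ℕ in atTop, P.real {ω | ¬ ((∀ p, p.Prime → a p ω < p) → AllPat z ε ν k fun p => a p ω)} ≤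
      1 / (k : ℝ) ^ 2 := by
  classical
  have := prob h
  filter_upwards [one_pattern h z hz hzV hzt ε hε hε1 ν (2 * ν + 5) hν, eventually_ge_atTop (3 ^ (ν + 1)),
    eventually_ge_atTop 1] with k hk hk3 hk1
  set M := 2 * k ^ 2 + 1 with hM
  set bad : (Fin ν → Fin M) × Fin M → Set Ω := fun x =>
    if (1 ≤ (univ.image fun i => (x.1 i : ℕ)).card ∧ (univ.image fun i => (x.1 i : ℕ)).card ≤ ν ∧
        Adm (univ.image fun i => (x.1 i : ℕ)) ∧ (∀ u ∈ (univ.image fun i => (x.1 i : ℕ)), u ≤ (x.2 : ℕ)) ∧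
        ((x.2 : ℕ) : ℝ) ≤ (2 * gE - ε) * k ^ 2) then
      {ω | (∀ p, p.Prime → a p ω < p) ∧ ¬ PatAt z (fun p => a p ω) (univ.image fun i => (x.1 i : ℕ)) x.2 k}
    else ∅ with hbad
  have hsub : {ω | ¬ ((∀ p, p.Prime → a p ω < p) → AllPat z ε ν k fun p => a p ω)} ⊆
      ⋃ x ∈ (univ : Finset ((Fin ν → Fin M) × Fin M)), bad x := by
    intro ω hω
    simp only [Set.mem_ofPred_eq, Classical.not_imp] at hω
    obtain ⟨hω1, hω2⟩ := hω
    unfold AllPat at hω2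
    push Not at hω2
    obtain ⟨H, G, h1, h2, h3, h4, h5, h6⟩ := hω2
    have hg1 := gE_lt
    have hGM : G < M := by
      have h7 : (G : ℝ) ≤ 2 * k ^ 2 := by
        refine h5.trans ?_
        have : (0 : ℝ) ≤ (k : ℝ) ^ 2 := by positivity
        nlinarith
      have h8 : G ≤ 2 * k ^ 2 := by exact_mod_cast h7
      omega
    -- a parametrisation
    obtain ⟨f, hf⟩ : ∃ f : Fin ν → ℕ, univ.image f = H := by
      set e := H.equivFin with he
      have hpos : 0 < H.card := h1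
      refine ⟨fun i => if hi : (i : ℕ) < H.card then (e.symm ⟨i, hi⟩ : ℕ) else (e.symm ⟨0, hpos⟩ : ℕ), ?_⟩
      ext u
      simp only [mem_image, mem_univ, true_and]
      constructor
      · rintro ⟨i, rfl⟩
        split_ifs
        · exact (e.symm _).2
        · exact (e.symm _).2
      · intro hu
        have h7 := (e ⟨u, hu⟩).2
        refine ⟨⟨e ⟨u, hu⟩, lt_of_lt_of_le h7 h2⟩, ?_⟩
        rw [dif_pos h7]
        simp
    have hfM : ∀ i, f i < M := fun i => by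
      have h7 : f i ∈ H := by
        rw [← hf]
        exact mem_image_of_mem _ (mem_univ i)
      exact lt_of_le_of_lt (h4 _ h7) hGM
    rw [Set.mem_iUnion₂]
    refine ⟨(fun i => ⟨f i, hfM i⟩, ⟨G, hGM⟩), mem_univ _, ?_⟩
    have hfH : (univ.image fun i : Fin ν => f i) = H := hf
    simp only [hbad]
    rw [hfH, if_pos ⟨h1, h2, h3, h4, h5⟩]
    exact ⟨hω1, h6⟩
  have hbd : ∀ x ∈ (univ : Finset ((Fin ν → Fin M) × Fin M)), P.real (bad x) ≤ 1 / (k : ℝ) ^ (2 * ν + 5) := by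
    intro x _
    simp only [hbad]
    split_ifs with hc
    · exact hk _ _ hc.1 hc.2.1 hc.2.2.1 hc.2.2.2.1 hc.2.2.2.2
    · rw [measureReal_empty]
      positivity
  have hk0 : (0 : ℝ) < k := by exact_mod_cast hk1
  have hk3' : (3 : ℝ) ^ (ν + 1) ≤ k := by exact_mod_cast hk3
  calc P.real {ω | ¬ ((∀ p, p.Prime → a p ω < p) → AllPat z ε ν k fun p => a p ω)}
      ≤ P.real (⋃ x ∈ (univ : Finset ((Fin ν → Fin M) × Fin M)), bad x) := measureReal_mono hsub (measure_ne_top P _)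
    _ ≤ ∑ x ∈ (univ : Finset ((Fin ν → Fin M) × Fin M)), P.real (bad x) := measureReal_biUnion_finset_le _ _
    _ ≤ ∑ x ∈ (univ : Finset ((Fin ν → Fin M) × Fin M)), 1 / (k : ℝ) ^ (2 * ν + 5) := sum_le_sum hbd
    _ = (M : ℝ) ^ (ν + 1) * (1 / (k : ℝ) ^ (2 * ν + 5)) := by
        rw [sum_const, nsmul_eq_mul]
        congr 1
        rw [card_univ, Fintype.card_prod, Fintype.card_fun, Fintype.card_fin, Fintype.card_fin]
        push_cast
        ring
    _ ≤ (3 * (k : ℝ) ^ 2) ^ (ν + 1) * (1 / (k : ℝ) ^ (2 * ν + 5)) := by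
        have hM3 : (M : ℝ) ≤ 3 * (k : ℝ) ^ 2 := by
          have h7 : 1 ≤ k ^ 2 := Nat.one_le_pow _ _ hk1
          have h8 : M ≤ 3 * k ^ 2 := by omega
          exact_mod_cast h8
        gcongr
    _ = 3 ^ (ν + 1) / (k : ℝ) ^ 3 := by
        rw [mul_pow, ← pow_mul]
        have e : 2 * ν + 5 = 2 * (ν + 1) + 3 := by ring
        rw [e, pow_add (k : ℝ)]
        have h7 : (k : ℝ) ^ (2 * (ν + 1)) ≠ 0 := by positivity
        rw [mul_one_div, mul_comm ((3 : ℝ) ^ (ν + 1)), mul_div_mul_left _ _ h7]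
    _ ≤ k / (k : ℝ) ^ 3 := by gcongr
    _ = 1 / (k : ℝ) ^ 2 := by
        field_simp

/-- **All the patterns.** -/
theorem main (h : Model P a) (z : ℕ → ℕ) (hz : Monotone z)
    (hzV : Tendsto (fun n => V (z n) * Real.log n) atTop (𝓝 1)) :
    ∀ᵐ ω ∂P, ∀ (ν : ℕ) (δ : ℝ), 0 < δ → ∀ᶠ X : ℕ in atTop, ∀ (H : Finset ℕ) (G : ℕ), H.Nonempty → H.card ≤ ν →
      Adm H → (∀ u ∈ H, u ≤ G) → (G : ℝ) ≤ (2 * gE - δ) * Real.log X ^ 2 →
      ∃ n, 1 ≤ n ∧ n + G ≤ X ∧ ∀ m ≤ G, (n + m ∈ (R z fun p => a p ω) ↔ m ∈ H) := by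
  have hzt := z_top z hzV
  set e : ℕ → ℝ := fun n => 1 / ((n : ℝ) + 2) with he
  have he0 : ∀ n, 0 < e n := fun n => by simp only [he]; positivity
  have he1 : ∀ n, e n ≤ 1 := fun n => by
    simp only [he]
    rw [div_le_one (by positivity)]
    have : (0 : ℝ) ≤ n := Nat.cast_nonneg n
    linarith
  have hae : ∀ᵐ ω ∂P, ∀ ν n : ℕ, ∀ᶠ k : ℕ in atTop,
      ((∀ p, p.Prime → a p ω < p) → AllPat z (e n) (ν + 1) k fun p => a p ω) := by
    rw [ae_all_iff]
    intro ν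
    rw [ae_all_iff]
    intro n
    exact bc h (fun k b => (∀ p, p.Prime → b p < p) → AllPat z (e n) (ν + 1) k b)
      (all_prob h z hz hzV hzt (e n) (he0 n) (he1 n) (ν + 1) (by omega))
  filter_upwards [hae, ae_lt h] with ω hω hlt ν δ hδ
  obtain ⟨n, hn⟩ := exists_nat_gt (2 / δ)
  set ε := e n with hε
  have hε0 := he0 n
  rw [← hε] at hε0
  have hεδ : ε ≤ δ / 2 := by
    simp only [hε, he]
    rw [div_le_div_iff₀ (by positivity) (by norm_num)]
    rw [div_lt_iff₀ hδ] at hn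
    nlinarith
  have hg1 := gE_lt
  have hg0 := gE_pos
  obtain ⟨k1, hk1⟩ := eventually_atTop.1 ((hω ν n).and (E_top.eventually_ge_atTop 8))
  have hlog : Tendsto (fun X : ℕ => Real.log X) atTop atTop := Real.tendsto_log_atTop.comp tendsto_natCast_atTop_atTop
  filter_upwards [hlog.eventually_ge_atTop (max ((k1 : ℝ) + 1) (100 / δ + 2)), eventually_ge_atTop 1] with X hX hX1
  intro H G hH1 hH2 hAdm hHG hG
  have hX0 : (0 : ℝ) < X := by exact_mod_cast hX1
  set L := Real.log X with hLdef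
  have hLk1 : (k1 : ℝ) + 1 ≤ L := (le_max_left _ _).trans hX
  have hLδ : 100 / δ + 2 ≤ L := (le_max_right _ _).trans hX
  have hδ100 : 0 < 100 / δ := by positivity
  have hL0 : 0 < L := by linarith
  set k := ⌊L⌋₊ with hk
  have hkL : (k : ℝ) ≤ L := Nat.floor_le hL0.le
  have hLk : L < k + 1 := Nat.lt_floor_add_one L
  have hkk1 : k1 ≤ k := Nat.le_floor (by linarith)
  have hEX : E k ≤ X := by
    unfold E
    apply Nat.ceil_le.2
    rw [← Real.exp_log hX0]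
    exact Real.exp_le_exp.2 hkL
  obtain ⟨hall, hE8⟩ := hk1 k hkk1
  have hGk : (G : ℝ) ≤ (2 * gE - ε) * k ^ 2 := by
    refine hG.trans ?_
    have hkδ : 100 ≤ δ * k := by
      have h1 : 100 / δ ≤ k := by linarith
      rw [div_le_iff₀ hδ] at h1
      linarith
    have hk1' : (1 : ℝ) ≤ k := by linarith
    rcases le_or_gt (2 * gE - δ) 0 with h1 | h1
    · have h2 : (2 * gE - δ) * L ^ 2 ≤ (2 * gE - δ) * k ^ 2 := by
        apply mul_le_mul_of_nonpos_left _ h1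
        gcongr
      refine h2.trans ?_
      apply mul_le_mul_of_nonneg_right _ (by positivity)
      linarith
    · have h2 : (2 * gE - δ) * L ^ 2 ≤ (2 * gE - δ) * (k + 1) ^ 2 := by gcongr
      refine h2.trans ?_
      have h3 : 4 * (k : ℝ) + 2 ≤ δ / 2 * k ^ 2 := by nlinarith
      have h4 : (2 * gE - δ) * (2 * k + 1) ≤ 2 * (2 * k + 1) := by
        apply mul_le_mul_of_nonneg_right _ (by positivity)
        linarith
      nlinarith
  obtain ⟨n0, hn1, hn2, hn3⟩ := hall hlt H G (card_pos.2 hH1) (by omega) hAdm hHG hGk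
  refine ⟨n0, ?_, hn2.trans hEX, hn3⟩
  have : 1 ≤ E k / 8 := by omega
  omega

end prob

end Pool.Agent.H531.GP
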