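import Pool.Agent.H531.CP.LowK

set_option autoImplicit false

/-!
# Lower bounds for the probability that a block is sieved out
-/

open Finset MeasureTheory ProbabilityTheory Filter Topology

namespace Pool.Agent.H531.GP

open Pool.Agent.T2H31.HV Pool.Agent.H531.SI Pool.Agent.H531.MS
open Pool.Agent.H531.CP (log_small recip_ge)
open Pool.Agent.T2H32.BF hiding PI

/-- the density of the second phase -/
noncomputable def vB (Y Z : ℕ) : ℝ := V Z / V Y

/-- a slightly larger number -/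
noncomputable def dB (k Y Z : ℕ) : ℝ := vB Y Z * Real.exp (1 / (100 * k))

/-- the conditions on the parameters -/
structure Par (B k Y Z s : ℕ) : Prop where
  hYk : k ^ 20 ≤ Y
  hYB : Y ≤ k ^ B
  hYZ : Y ≤ Z
  hZ : Real.log Z ≤ 2 * k
  hV1 : 1 / (2 * (k : ℝ)) ≤ V Z
  hV2 : V Z ≤ 2 / (k : ℝ)
  hs1 : 400 * k * Real.log k ≤ (s : ℝ)
  hs2 : (s : ℝ) ≤ 2 * (k ^ 2 * V Y)
  hs3 : s ≤ k ^ 2

theorem vB_pos (Y Z : ℕ) : 0 < vB Y Z := div_pos (V_pos _) (V_pos _)

theorem dB_pos (k Y Z : ℕ) : 0 < dB k Y Z := mul_pos (vB_pos _ _) (Real.exp_pos _)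

theorem vB_le_dB (k Y Z : ℕ) : vB Y Z ≤ dB k Y Z := by
  unfold dB
  have h1 : 1 ≤ Real.exp (1 / (100 * (k : ℝ))) := Real.one_le_exp (by positivity)
  have := vB_pos Y Z
  nlinarith

/-- `v_k` is small -/
theorem vB_small (B : ℕ) (ε : ℝ) (hε : 0 < ε) : ∀ᶠ k : ℕ in atTop, ∀ Y Z s : ℕ, Par B k Y Z s → vB Y Z ≤ ε := by
  obtain ⟨n0, hn0⟩ := eventually_atTop.1 Pool.Agent.H531.CP.V_ge_log
  filter_upwards [eventually_ge_atTop n0, log_small (ε / (4 * (B + 1))) (by positivity), eventually_ge_atTop 2] with k h1 h2 h3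
  intro Y Z s hp
  have hk : (2 : ℝ) ≤ k := by exact_mod_cast h3
  have hl : 0 < Real.log k := Real.log_pos (by linarith)
  have hkY : k ≤ Y := (Nat.le_self_pow (by norm_num) k).trans hp.hYk
  have hY2 : (2 : ℝ) ≤ Y := hk.trans (by exact_mod_cast hkY)
  have hYl : Real.log Y ≤ B * Real.log k := by
    have h5 : (Y : ℝ) ≤ (k : ℝ) ^ B := by exact_mod_cast hp.hYB
    have h6 := Real.log_le_log (by linarith) h5
    rwa [Real.log_pow] at h6
  have hYl0 : 0 < Real.log Y := Real.log_pos (by linarith)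
  have h1' := hn0 Y (h1.trans hkY)
  have hVY := V_pos Y
  unfold vB
  rw [div_le_iff₀ hVY]
  have hB0 : (0 : ℝ) ≤ B := Nat.cast_nonneg B
  have h7 : 1 / (2 * ((B + 1) * Real.log k)) ≤ V Y := by
    refine le_trans ?_ h1'
    apply one_div_le_one_div_of_le (by positivity)
    nlinarith
  have h4 : ε * (1 / (2 * ((B + 1) * Real.log k))) ≤ ε * V Y := mul_le_mul_of_nonneg_left h7 hε.le
  refine hp.hV2.trans (le_trans ?_ h4)
  rw [mul_one_div, div_le_div_iff₀ (by linarith) (by positivity)]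
  have h5 : Real.log k * (4 * (B + 1)) ≤ ε * k := by
    have := mul_le_mul_of_nonneg_right h2 (show (0 : ℝ) ≤ 4 * (B + 1) by positivity)
    have e : ε / (4 * ((B : ℝ) + 1)) * k * (4 * (B + 1)) = ε * k := by field_simp
    linarith
  linarith

theorem dB_small (B : ℕ) (ε : ℝ) (hε : 0 < ε) : ∀ᶠ k : ℕ in atTop, ∀ Y Z s : ℕ, Par B k Y Z s → dB k Y Z ≤ ε := by
  filter_upwards [vB_small B (ε / 3) (by positivity), eventually_ge_atTop 1] with k h1 h2
  intro Y Z s hp
  have h3 := h1 Y Z s hp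
  have hk : (1 : ℝ) ≤ k := by exact_mod_cast h2
  unfold dB
  have h4 : Real.exp (1 / (100 * (k : ℝ))) ≤ 3 := by
    have h5 : Real.exp (1 / (100 * (k : ℝ))) ≤ Real.exp 1 := by
      apply Real.exp_le_exp.2
      rw [div_le_one (by positivity)]
      linarith
    have := Real.exp_one_lt_d9
    linarith
  have h5 := vB_pos Y Z
  calc vB Y Z * Real.exp (1 / (100 * k)) ≤ ε / 3 * 3 := mul_le_mul h3 h4 (Real.exp_pos _).le (by positivity)
    _ = ε := by ring

variable {Ω : Type} [MeasurableSpace Ω] {P : Measure Ω} {a : ℕ → Ω → ℕ}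

/-- **Lower bound, for all large subsets of the primes.** -/
theorem low_all (h : Model P a) (B : ℕ) : ∀ᶠ k : ℕ in atTop, ∀ Y Z X s : ℕ, Par B k Y Z s → Nat.log 2 X ≤ 3 * k →
    ∀ L' ⊆ PI Y Z, (PI Y Z \ L').card ≤ s ^ 2 * Nat.log 2 X → ∀ U : Finset ℕ, U.card ≤ s →
      (∀ p ∈ L', Set.InjOn (fun u => u % p) U) → (1 - dB k Y Z) ^ U.card ≤ P.real (Kill a U L') := by
  filter_upwards [vB_small B (1 / 8) (by norm_num), dB_small B 1 (by norm_num), eventually_ge_atTop 10] with k hvs hds hk10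
  intro Y Z X s hp hX L' hL' hcard U hU hinj
  have hv8 := hvs Y Z s hp
  have hd1 := hds Y Z s hp
  have hk : (10 : ℝ) ≤ k := by exact_mod_cast hk10
  have hk0 : (0 : ℝ) < k := by linarith
  have hl : 1 ≤ Real.log k := by
    rw [Real.le_log_iff_exp_le hk0]
    have := Real.exp_one_lt_d9
    linarith
  have hs1 := hp.hs1
  have hs3 : (s : ℝ) ≤ (k : ℝ) ^ 2 := by exact_mod_cast hp.hs3
  have hsR : (4000 : ℝ) ≤ s := by
    refine le_trans ?_ hs1
    nlinarith
  have hs1N : 1 ≤ s := by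
    have : (1 : ℝ) ≤ s := by linarith
    exact_mod_cast this
  have hYR : (k : ℝ) ^ 20 ≤ Y := by exact_mod_cast hp.hYk
  have hY1 : 1 ≤ Y := le_trans (Nat.one_le_pow _ _ (by omega)) hp.hYk
  have hkY : (k : ℝ) ^ 5 * 2000 * (k : ℝ) ≤ (k : ℝ) ^ 20 := by
    have e : (k : ℝ) ^ 20 = (k : ℝ) ^ 5 * (k : ℝ) ^ 14 * k := by ring
    rw [e]
    have h14 : (2000 : ℝ) ≤ (k : ℝ) ^ 14 := by
      calc (2000 : ℝ) ≤ 10 ^ 14 := by norm_num
        _ ≤ (k : ℝ) ^ 14 := by gcongr
    gcongr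
  have hYpos : (0 : ℝ) < (k : ℝ) ^ 20 := by positivity
  -- sizes
  have hk25 : (k : ℝ) ^ 2 ≤ (k : ℝ) ^ 5 := by
    have : (k : ℝ) ^ 5 = (k : ℝ) ^ 2 * (k : ℝ) ^ 3 := by ring
    rw [this]
    have h3 : (1 : ℝ) ≤ (k : ℝ) ^ 3 := one_le_pow₀ (by linarith)
    nlinarith [sq_nonneg (k : ℝ)]
  have hk5 : (1 : ℝ) ≤ (k : ℝ) ^ 5 := one_le_pow₀ (by linarith)
  have hL2 : (((PI Y Z \ L').card : ℕ) : ℝ) ≤ 3 * (k : ℝ) ^ 5 := by
    have h1 : (((PI Y Z \ L').card : ℕ) : ℝ) ≤ ((s ^ 2 * Nat.log 2 X : ℕ) : ℝ) := by exact_mod_cast hcard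
    refine h1.trans ?_
    push_cast
    have h2 : ((Nat.log 2 X : ℕ) : ℝ) ≤ 3 * k := by exact_mod_cast hX
    calc (s : ℝ) ^ 2 * (Nat.log 2 X : ℕ) ≤ ((k : ℝ) ^ 2) ^ 2 * (3 * k) := by gcongr
      _ = 3 * (k : ℝ) ^ 5 := by ring
  have hLp : ∀ p ∈ PI Y Z, p.Prime := fun p hp => (mem_PI.1 hp).2
  have hpY : ∀ p ∈ PI Y Z, (k : ℝ) ^ 20 ≤ p := fun p hp => by
    refine hYR.trans ?_
    exact_mod_cast (mem_PI.1 hp).1.1.le
  -- the sum of the reciprocals
  set H' := ∑ p ∈ L', 1 / (p : ℝ) with hH'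
  set H := ∑ p ∈ PI Y Z, 1 / (p : ℝ) with hH
  have hHle : H ≤ Real.log (V Y / V Z) := recip_le (Y) Z hp.hYZ
  have hVY := V_pos (Y)
  have hVZ := V_pos Z
  have hVY1 := V_le_one (Y)
  have hH2k : H ≤ 2 * Real.log k := by
    refine hHle.trans ?_
    have h1 : V Y / V Z ≤ 2 * k := by
      rw [div_le_iff₀ hVZ]
      have h2 := hp.hV1
      rw [div_le_iff₀ (by positivity)] at h2
      linarith
    calc Real.log (V Y / V Z) ≤ Real.log ((k : ℝ) ^ 2) := Real.log_le_log (by positivity) (h1.trans (by nlinarith))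
      _ = 2 * Real.log k := by
        rw [Real.log_pow]
        norm_num
  have hHge : -Real.log (V Z / V Y) - 1 / (k : ℝ) ^ 20 ≤ H := by
    have h1 := recip_ge Y Z hY1 hp.hYZ
    rw [← hH] at h1
    have h2 : 1 / (Y : ℝ) ≤ 1 / (k : ℝ) ^ 20 := one_div_le_one_div_of_le (by positivity) hYR
    linarith
  have hH'H : H' ≤ H := sum_le_sum_of_subset_of_nonneg hL' fun p _ _ => by positivity
  have hHH' : H ≤ H' + 3 * (k : ℝ) ^ 5 / (k : ℝ) ^ 20 := by
    have h1 : H = ∑ p ∈ PI Y Z \ L', 1 / (p : ℝ) + H' := (sum_sdiff hL').symm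
    have h2 : ∑ p ∈ PI Y Z \ L', 1 / (p : ℝ) ≤ 3 * (k : ℝ) ^ 5 / (k : ℝ) ^ 20 := by
      calc ∑ p ∈ PI Y Z \ L', 1 / (p : ℝ) ≤ ∑ p ∈ PI Y Z \ L', 1 / (k : ℝ) ^ 20 := by
            refine sum_le_sum fun p hp' => ?_
            exact one_div_le_one_div_of_le hYpos (hpY p (Finset.mem_sdiff.1 hp').1)
        _ = (PI Y Z \ L').card * (1 / (k : ℝ) ^ 20) := by rw [sum_const, nsmul_eq_mul]
        _ ≤ 3 * (k : ℝ) ^ 5 * (1 / (k : ℝ) ^ 20) := by gcongr
        _ = _ := by ring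
    linarith
  have hlv : Real.log (V Z / V Y) ≤ -Real.log 8 := by
    rw [← Real.log_inv]
    apply Real.log_le_log (by positivity)
    have : V Z / V Y ≤ 1 / 8 := hv8
    rw [← one_div]
    exact this
  have hl8 : 2 ≤ Real.log 8 := by
    have : (8 : ℝ) = 2 ^ 3 := by norm_num
    rw [this, Real.log_pow]
    have := Real.log_two_gt_d9
    push_cast
    linarith
  have hsmall : ∀ c : ℝ, c ≤ 10 * (k : ℝ) ^ 5 → c / (k : ℝ) ^ 20 ≤ 1 / (100 * k) := by
    intro c hc
    rw [div_le_div_iff₀ hYpos (by positivity)]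
    have h1 : c * (100 * k) ≤ 10 * (k : ℝ) ^ 5 * (100 * k) := by gcongr
    linarith
  have h100 : 1 / (100 * (k : ℝ)) ≤ 1 / 2 := by
    rw [div_le_div_iff₀ (by positivity) (by norm_num)]
    linarith
  have hH'1 : 1 ≤ H' := by
    have h1 := hsmall (3 * (k : ℝ) ^ 5) (by linarith)
    have h2 := hsmall 1 (by linarith)
    linarith
  -- `L'` has many elements
  have hLcard : s ≤ L'.card := by
    have h1 : H' ≤ L'.card * (1 / (k : ℝ) ^ 20) := by
      calc H' ≤ ∑ p ∈ L', 1 / (k : ℝ) ^ 20 := sum_le_sum fun p hp' =>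
            one_div_le_one_div_of_le hYpos (hpY p (hL' hp'))
        _ = _ := by rw [sum_const, nsmul_eq_mul]
    have h2 : (k : ℝ) ^ 20 ≤ L'.card := by
      have h3 := h1.trans' hH'1
      rw [mul_one_div, le_div_iff₀ hYpos, one_mul] at h3
      exact h3
    have h3 : (s : ℝ) ≤ L'.card := by nlinarith
    exact_mod_cast h3
  have hkey := Kill_lower h L' (fun p hp' => hLp p (hL' hp')) s hs1N hLcard ((k : ℝ) ^ 20) (Z : ℝ)
    (one_le_pow₀ (by linarith)) (fun p hp' => ⟨hpY p (hL' hp'), by exact_mod_cast (mem_PI.1 (hL' hp')).1.2⟩)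
    (by
      rw [div_le_iff₀ hYpos]
      nlinarith) (dB k Y Z) hd1 ?_ U hU hinj
  · exact hkey
  · rw [← hH']
    unfold dB
    have hvp := vB_pos Y Z
    have e1 : vB Y Z = Real.exp (Real.log (V Z / V Y)) := (Real.exp_log hvp).symm
    rw [e1, ← Real.exp_add]
    apply Real.exp_le_exp.2
    have hs0 : (0 : ℝ) < s := by linarith
    have hlogZ := hp.hZ
    have h1 : (s : ℝ) / (k : ℝ) ^ 20 * (s * Real.log Z + Real.log 2) ≤ 3 * (k : ℝ) ^ 5 / (k : ℝ) ^ 20 := by
      rw [div_mul_eq_mul_div]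
      apply div_le_div_of_nonneg_right _ hYpos.le
      have h2 : Real.log 2 ≤ 1 := by
        have := Real.log_two_lt_d9
        linarith
      have h3 : (s : ℝ) * Real.log Z ≤ (k : ℝ) ^ 2 * (2 * k) := by gcongr
      calc (s : ℝ) * (s * Real.log Z + Real.log 2) ≤ (k : ℝ) ^ 2 * ((k : ℝ) ^ 2 * (2 * k) + 1) := by
            have h4 : 0 ≤ (k : ℝ) ^ 2 * (2 * k) + 1 := by positivity
            exact mul_le_mul hs3 (by linarith) (by
              have : 0 ≤ Real.log Z := Real.log_natCast_nonneg _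
              have : 0 ≤ Real.log 2 := Real.log_nonneg (by norm_num)
              positivity) (by positivity)
        _ = 2 * (k : ℝ) ^ 5 + (k : ℝ) ^ 2 := by ring
        _ ≤ 3 * (k : ℝ) ^ 5 := by linarith
    have h2 : (1 - 1 / (s : ℝ)) * (H' - s / (k : ℝ) ^ 20) ≥ H' - H' / s - s / (k : ℝ) ^ 20 := by
      have e : (1 - 1 / (s : ℝ)) * (H' - s / (k : ℝ) ^ 20) = H' - H' / s - s / (k : ℝ) ^ 20 + 1 / (k : ℝ) ^ 20 := by
        field_simp
        ring
      rw [e]
      have : 0 ≤ 1 / (k : ℝ) ^ 20 := by positivity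
      linarith
    have h3 : H' / s ≤ 1 / (200 * k) := by
      rw [div_le_div_iff₀ hs0 (by positivity)]
      have h4 : H' ≤ 2 * Real.log k := hH'H.trans hH2k
      calc H' * (200 * k) ≤ 2 * Real.log k * (200 * k) := by gcongr
        _ = 400 * k * Real.log k := by ring
        _ ≤ s := hs1
        _ = 1 * s := (one_mul _).symm
    have h4 : (s : ℝ) / (k : ℝ) ^ 20 ≤ (k : ℝ) ^ 5 / (k : ℝ) ^ 20 := by
      apply div_le_div_of_nonneg_right _ hYpos.le
      linarith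
    have h5 : 1 / (k : ℝ) ^ 20 ≤ (k : ℝ) ^ 5 / (k : ℝ) ^ 20 := by
      apply div_le_div_of_nonneg_right _ hYpos.le
      linarith
    have h6 : (8 : ℝ) * (k : ℝ) ^ 5 / (k : ℝ) ^ 20 ≤ 1 / (200 * k) := by
      rw [div_le_div_iff₀ hYpos (by positivity)]
      nlinarith
    have e7 : 3 * (k : ℝ) ^ 5 / (k : ℝ) ^ 20 + 3 * (k : ℝ) ^ 5 / (k : ℝ) ^ 20 + (k : ℝ) ^ 5 / (k : ℝ) ^ 20 +
        (k : ℝ) ^ 5 / (k : ℝ) ^ 20 = 8 * (k : ℝ) ^ 5 / (k : ℝ) ^ 20 := by ring
    have e8 : 1 / (200 * (k : ℝ)) + 1 / (200 * k) = 1 / (100 * k) := by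
      field_simp
      norm_num
    have h9 : -Real.log (V Z / V Y) - 1 / (k : ℝ) ^ 20 - 3 * (k : ℝ) ^ 5 / (k : ℝ) ^ 20 ≤ H' := by linarith
    linarith

/-- **The probabilities of neighbouring blocks.** -/
theorem ratio_all (B : ℕ) : ∀ᶠ k : ℕ in atTop, ∀ Y Z s : ℕ, Par B k Y Z s →
    ∀ n < s, (1 - vB Y Z) ^ n ≤ 2 * (1 - dB k Y Z) ^ (n + 1) := by
  filter_upwards [dB_small B (1 / 4) (by norm_num), eventually_ge_atTop 10] with k hds hk10
  intro Y Z s hp n hn
  have hd4 := hds Y Z s hp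
  have hk : (10 : ℝ) ≤ k := by exact_mod_cast hk10
  have hk0 : (0 : ℝ) < k := by linarith
  have hv0 := vB_pos Y Z
  have hd0 := dB_pos k Y Z
  have hvd := vB_le_dB k Y Z
  have h1d : 0 < 1 - dB k Y Z := by linarith
  have hdv : dB k Y Z - vB Y Z ≤ vB Y Z / (50 * k) := by
    have h1 := exp_quad (1 / (100 * (k : ℝ))) (by
      rw [abs_of_nonneg (by positivity), div_le_one (by positivity)]
      linarith)
    have h2 : (1 / (100 * (k : ℝ))) ^ 2 ≤ 1 / (100 * k) := by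
      have h3 : 1 / (100 * (k : ℝ)) ≤ 1 := by
        rw [div_le_one (by positivity)]
        linarith
      have h4 : 0 ≤ 1 / (100 * (k : ℝ)) := by positivity
      nlinarith
    unfold dB
    have e : vB Y Z / (50 * k) = vB Y Z * (1 / (100 * k) + 1 / (100 * k)) := by
      field_simp
      norm_num
    rw [e]
    have h5 : Real.exp (1 / (100 * (k : ℝ))) - 1 ≤ 1 / (100 * k) + 1 / (100 * k) := by linarith
    calc vB Y Z * Real.exp (1 / (100 * (k : ℝ))) - vB Y Z = vB Y Z * (Real.exp (1 / (100 * (k : ℝ))) - 1) := by ring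
      _ ≤ vB Y Z * (1 / (100 * k) + 1 / (100 * k)) := mul_le_mul_of_nonneg_left h5 hv0.le
  have hratio : (1 - vB Y Z) ≤ Real.exp (vB Y Z / (25 * k)) * (1 - dB k Y Z) := by
    have h1 := Real.add_one_le_exp (vB Y Z / (25 * k))
    have h2 : (vB Y Z / (25 * k) + 1) * (1 - dB k Y Z) ≤ Real.exp (vB Y Z / (25 * k)) * (1 - dB k Y Z) :=
      mul_le_mul_of_nonneg_right h1 h1d.le
    refine le_trans ?_ h2
    have h3 : vB Y Z / (25 * k) * (1 - dB k Y Z) ≥ vB Y Z / (50 * k) := by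
      have e : vB Y Z / (50 * (k : ℝ)) = vB Y Z / (25 * k) * (1 / 2) := by
        field_simp
        norm_num
      rw [e]
      apply mul_le_mul_of_nonneg_left _ (by positivity)
      linarith
    nlinarith
  have hns : (n : ℝ) ≤ s := by exact_mod_cast hn.le
  have hsv : (s : ℝ) * vB Y Z ≤ 4 * k := by
    have hVY := V_pos (Y)
    have hVZ := V_pos Z
    unfold vB
    calc (s : ℝ) * (V Z / V Y) ≤ 2 * (k ^ 2 * V Y) * (V Z / V Y) := by
          have := hp.hs2
          gcongr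
      _ = 2 * k ^ 2 * V Z := by field_simp
      _ ≤ 2 * k ^ 2 * (2 / k) := by
          have := hp.hV2
          gcongr
      _ = 4 * k := by
          field_simp
          norm_num
  have h1v : 0 ≤ 1 - vB Y Z := by linarith
  calc (1 - vB Y Z) ^ n ≤ (Real.exp (vB Y Z / (25 * k)) * (1 - dB k Y Z)) ^ n := pow_le_pow_left₀ h1v hratio n
    _ = Real.exp (n * (vB Y Z / (25 * k))) * (1 - dB k Y Z) ^ n := by
        rw [mul_pow, ← Real.exp_nat_mul]
    _ ≤ (3 / 2) * (1 - dB k Y Z) ^ n := by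
        apply mul_le_mul_of_nonneg_right _ (by positivity)
        have h2 : (n : ℝ) * (vB Y Z / (25 * k)) ≤ 4 / 25 := by
          calc (n : ℝ) * (vB Y Z / (25 * k)) ≤ s * (vB Y Z / (25 * k)) := by gcongr
            _ = (s * vB Y Z) / (25 * k) := by ring
            _ ≤ 4 * k / (25 * k) := by gcongr
            _ = 4 / 25 := by field_simp
        have h3 : Real.exp (4 / 25) ≤ 3 / 2 := by
          have := exp_quad (4 / 25) (by rw [abs_of_nonneg (by norm_num)]; norm_num)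
          refine this.trans ?_
          norm_num
        exact (Real.exp_le_exp.2 h2).trans h3
    _ ≤ 2 * (1 - dB k Y Z) ^ (n + 1) := by
        rw [pow_succ]
        have h2 : 0 ≤ (1 - dB k Y Z) ^ n := by positivity
        nlinarith

/-- the size of the lower bound -/
theorem low_exp (B : ℕ) (ε : ℝ) (hε : 0 < ε) : ∀ᶠ k : ℕ in atTop, ∀ Y Z s : ℕ, Par B k Y Z s →
    Real.exp (-((1 + ε) * (s * vB Y Z))) ≤ (1 - dB k Y Z) ^ s := by
  filter_upwards [dB_small B (min (1 / 4) (ε / 4)) (by positivity), eventually_ge_atTop 10,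
    (tendsto_natCast_atTop_atTop (R := ℝ)).eventually_ge_atTop (1 / ε)] with k hds hk10 hkε
  intro Y Z s hp
  have hd := hds Y Z s hp
  have hd4 := hd.trans (min_le_left _ _)
  have hdε := hd.trans (min_le_right _ _)
  have hk : (10 : ℝ) ≤ k := by exact_mod_cast hk10
  have hk0 : (0 : ℝ) < k := by linarith
  have hv0 := vB_pos Y Z
  have hd0 := dB_pos k Y Z
  have h1 : Real.exp (-(dB k Y Z + 2 * dB k Y Z ^ 2)) ≤ 1 - dB k Y Z := by
    have h14 : 1 ≤ Real.exp (dB k Y Z + 2 * dB k Y Z ^ 2) * (1 - dB k Y Z) := by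
      have h15 := Real.add_one_le_exp (dB k Y Z + 2 * dB k Y Z ^ 2)
      have h16 : (dB k Y Z + 2 * dB k Y Z ^ 2 + 1) * (1 - dB k Y Z) ≤ Real.exp (dB k Y Z + 2 * dB k Y Z ^ 2) * (1 - dB k Y Z) :=
        mul_le_mul_of_nonneg_right h15 (by linarith)
      refine le_trans ?_ h16
      have e : (dB k Y Z + 2 * dB k Y Z ^ 2 + 1) * (1 - dB k Y Z) = 1 + dB k Y Z ^ 2 * (1 - 2 * dB k Y Z) := by ring
      rw [e]
      have : 0 ≤ dB k Y Z ^ 2 * (1 - 2 * dB k Y Z) := mul_nonneg (sq_nonneg _) (by linarith)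
      linarith
    rw [Real.exp_neg, inv_le_iff_one_le_mul₀ (Real.exp_pos _)]
    linarith
  have h2 : dB k Y Z + 2 * dB k Y Z ^ 2 ≤ (1 + ε) * vB Y Z := by
    -- `exp (1 / (100 k)) ≤ 1 + ε / 8`
    have h3 : Real.exp (1 / (100 * (k : ℝ))) ≤ 1 + ε / 50 := by
      have h1 := exp_quad (1 / (100 * (k : ℝ))) (by
        rw [abs_of_nonneg (by positivity), div_le_one (by positivity)]
        linarith)
      have h2 : (1 / (100 * (k : ℝ))) ^ 2 ≤ 1 / (100 * k) := by
        have h3 : 1 / (100 * (k : ℝ)) ≤ 1 := by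
          rw [div_le_one (by positivity)]
          linarith
        have h4 : 0 ≤ 1 / (100 * (k : ℝ)) := by positivity
        nlinarith
      have h4 : 1 / (100 * (k : ℝ)) ≤ ε / 100 := by
        rw [div_le_div_iff₀ (by positivity) (by norm_num)]
        rw [div_le_iff₀ hε] at hkε
        linarith
      linarith
    have h4 : dB k Y Z ≤ vB Y Z * (1 + ε / 50) := by
      unfold dB
      exact mul_le_mul_of_nonneg_left h3 hv0.le
    have h5 : dB k Y Z ≤ 2 * vB Y Z := by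
      have h6 : Real.exp (1 / (100 * (k : ℝ))) ≤ 2 := by
        have h7 : Real.exp (1 / (100 * (k : ℝ))) ≤ Real.exp (1 / 1000) := by
          apply Real.exp_le_exp.2
          apply one_div_le_one_div_of_le (by norm_num)
          linarith
        have h8 := exp_quad (1 / 1000) (by rw [abs_of_nonneg (by norm_num)]; norm_num)
        refine h7.trans (h8.trans ?_)
        norm_num
      unfold dB
      nlinarith
    have h6 : 2 * dB k Y Z ^ 2 ≤ ε / 4 * 2 * (2 * vB Y Z) := by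
      calc 2 * dB k Y Z ^ 2 = dB k Y Z * 2 * dB k Y Z := by ring
        _ ≤ ε / 4 * 2 * (2 * vB Y Z) := by gcongr
    -- a better bound for the square
    have h7 : 2 * dB k Y Z ^ 2 ≤ ε / 2 * dB k Y Z := by nlinarith
    have h8 : ε / 2 * dB k Y Z ≤ ε / 2 * (vB Y Z * (1 + ε / 50)) := by gcongr
    have h9 : dB k Y Z ≤ 1 / 4 := hd4
    have h10 : ε / 2 * dB k Y Z ≤ ε / 2 * (3 / 2 * vB Y Z) := by
      have h11 : dB k Y Z ≤ 3 / 2 * vB Y Z := by
        have h6 : Real.exp (1 / (100 * (k : ℝ))) ≤ 3 / 2 := by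
          have h7 : Real.exp (1 / (100 * (k : ℝ))) ≤ Real.exp (1 / 1000) := by
            apply Real.exp_le_exp.2
            apply one_div_le_one_div_of_le (by norm_num)
            linarith
          have h8 := exp_quad (1 / 1000) (by rw [abs_of_nonneg (by norm_num)]; norm_num)
          refine h7.trans (h8.trans ?_)
          norm_num
        unfold dB
        nlinarith
      gcongr
    nlinarith
  calc Real.exp (-((1 + ε) * (s * vB Y Z))) = Real.exp (s * (-((1 + ε) * vB Y Z))) := by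
        congr 1
        ring
    _ = Real.exp (-((1 + ε) * vB Y Z)) ^ s := Real.exp_nat_mul _ _
    _ ≤ Real.exp (-(dB k Y Z + 2 * dB k Y Z ^ 2)) ^ s := by
        apply pow_le_pow_left₀ (Real.exp_pos _).le
        apply Real.exp_le_exp.2
        linarith
    _ ≤ (1 - dB k Y Z) ^ s := pow_le_pow_left₀ (Real.exp_pos _).le h1 s

end Pool.Agent.H531.GP
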