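import Pool.Agent.H531.GP.Tup
import Pool.Agent.H531.GP.Cnt2
import Pool.Agent.H531.GP.LowB

set_option autoImplicit false

/-!
# The primes between the first sieving limit and a power of `log X`
-/

open Finset MeasureTheory ProbabilityTheory Filter Topology

namespace Pool.Agent.H531.GP

open Pool.Agent.T2H31.HV Pool.Agent.H531.SI Pool.Agent.H531.MS
open Pool.Agent.H531.CP hiding pos Par low_all ratio_all low_exp
open Pool.Agent.T2H32.BF hiding PI pos

theorem wk_lower : ∀ᶠ k : ℕ in atTop, (k : ℝ) / (4 * Real.log k) ≤ wk k := by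
  have hlog : Tendsto (fun k : ℕ => Real.log k) atTop atTop := Real.tendsto_log_atTop.comp tendsto_natCast_atTop_atTop
  filter_upwards [hlog.eventually_ge_atTop 1, eventually_ge_atTop 2, log_small (1 / 8) (by norm_num)] with k h1 h2 h3
  have hk1 : (2 : ℝ) ≤ k := by exact_mod_cast h2
  obtain ⟨h4, h5⟩ := l1E k
  obtain ⟨h6, h7⟩ := l2E k (by omega)
  have hl0 : 0 < Real.log k := by linarith
  have h8 : l2 (E k) ≤ 2 * Real.log k := by
    have : 1 / (k : ℝ) ≤ 1 := by
      rw [div_le_one (by linarith)]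
      linarith
    linarith
  have h9 : (k : ℝ) / (2 * Real.log k) ≤ l1 (E k) / l2 (E k) := by
    apply div_le_div₀ (by linarith) h4 (by linarith) h8
  have h10 := Nat.lt_floor_add_one (l1 (E k) / l2 (E k))
  have h11 : l1 (E k) / l2 (E k) < wk k + 1 := h10
  have h12 : 1 ≤ (k : ℝ) / (4 * Real.log k) := by
    rw [le_div_iff₀ (by positivity)]
    linarith
  have e : (k : ℝ) / (2 * Real.log k) = 2 * (k / (4 * Real.log k)) := by
    field_simp
    norm_num
  linarith

/-- the exponents are large -/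
theorem wV_large (c : ℝ) (hc : 0 < c) (m : ℕ) : ∀ᶠ k : ℕ in atTop, m * Real.log k ≤ c * (wk k * V (wk k)) := by
  have hlog : Tendsto (fun k : ℕ => Real.log k) atTop atTop := Real.tendsto_log_atTop.comp tendsto_natCast_atTop_atTop
  have hg := gE_gt
  -- `log ^ 3` against `k`
  have h3 : ∀ᶠ k : ℕ in atTop, (m : ℝ) * Real.log k ^ 3 ≤ c / 16 * k := by
    have h1 : Tendsto (fun x : ℝ => Real.log x ^ 3 / x) atTop (𝓝 0) := by
      have := Real.tendsto_pow_log_div_mul_add_atTop 1 0 3 one_ne_zero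
      simpa using this
    have h2 := h1.comp tendsto_natCast_atTop_atTop
    have h4 : 0 < c / (16 * ((m : ℝ) + 1)) := by positivity
    filter_upwards [h2.eventually_lt_const h4, eventually_ge_atTop 2] with k h5 h6
    have hk0 : (0 : ℝ) < k := by exact_mod_cast (by omega : 0 < k)
    have hl0 : 0 ≤ Real.log k := Real.log_natCast_nonneg k
    simp only [Function.comp] at h5
    rw [div_lt_iff₀ hk0] at h5
    have h7 := mul_le_mul_of_nonneg_left h5.le (show (0 : ℝ) ≤ m + 1 by positivity)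
    have e : ((m : ℝ) + 1) * (c / (16 * (m + 1)) * k) = c / 16 * k := by field_simp
    have h8 : 0 ≤ Real.log k ^ 3 := by positivity
    nlinarith
  filter_upwards [h3, wk_lower, V_wk_ge (1 / 8) (by norm_num), hlog.eventually_ge_atTop 1, eventually_ge_atTop 2]
    with k h4 h5 h6 h7 h8
  have hk0 : (0 : ℝ) < k := by exact_mod_cast (by omega : 0 < k)
  have hl0 : 0 < Real.log k := by linarith
  have h9 : 1 / (4 * Real.log k) ≤ V (wk k) := by
    refine le_trans ?_ h6
    rw [div_le_div_iff₀ (by positivity) hl0]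
    nlinarith
  have h10 : (k : ℝ) / (4 * Real.log k) * (1 / (4 * Real.log k)) ≤ wk k * V (wk k) := by gcongr
  have h11 : c * ((k : ℝ) / (4 * Real.log k) * (1 / (4 * Real.log k))) ≤ c * (wk k * V (wk k)) := by gcongr
  refine le_trans ?_ h11
  have e : c * ((k : ℝ) / (4 * Real.log k) * (1 / (4 * Real.log k))) = c / 16 * k / Real.log k ^ 2 := by
    field_simp
    norm_num
  rw [e, le_div_iff₀ (by positivity)]
  calc (m : ℝ) * Real.log k * Real.log k ^ 2 = m * Real.log k ^ 3 := by ring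
    _ ≤ _ := h4

/-- the ratio of the densities -/
theorem rho_B (B : ℕ) (hB : 1 ≤ B) : ∀ᶠ k : ℕ in atTop, 1 / (4 * (B : ℝ)) * V (wk k) ≤ V (k ^ B) := by
  have hlog : Tendsto (fun k : ℕ => Real.log k) atTop atTop := Real.tendsto_log_atTop.comp tendsto_natCast_atTop_atTop
  obtain ⟨u0, hu0, hu⟩ := V_mul_le
  have hwtop : Tendsto wk atTop atTop := ww_nat.comp E_top
  -- `log w ≥ (1 / 2) log k`
  have hlw : ∀ᶠ k : ℕ in atTop, 1 / 2 * Real.log k ≤ Real.log (wk k) := by
    have h1 : Tendsto (fun x : ℝ => Real.log x / x ^ (1 / 2 : ℝ)) atTop (𝓝 0) :=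
      (isLittleO_log_rpow_atTop (by norm_num : (0 : ℝ) < 1 / 2)).tendsto_div_nhds_zero
    have h2 := h1.comp tendsto_natCast_atTop_atTop
    filter_upwards [h2.eventually_lt_const (show (0 : ℝ) < 1 / 4 by norm_num), wk_lower, hlog.eventually_ge_atTop 1,
      eventually_ge_atTop 2] with k h3 h4 h5 h6
    have hk0 : (0 : ℝ) < k := by exact_mod_cast (by omega : 0 < k)
    have hs : 0 < (k : ℝ) ^ (1 / 2 : ℝ) := Real.rpow_pos_of_pos hk0 _
    simp only [Function.comp] at h3
    rw [div_lt_iff₀ hs] at h3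
    have h7 : (k : ℝ) ^ (1 / 2 : ℝ) ≤ wk k := by
      refine le_trans ?_ h4
      rw [le_div_iff₀ (by positivity)]
      have e : (k : ℝ) ^ (1 / 2 : ℝ) * (k : ℝ) ^ (1 / 2 : ℝ) = k := by
        rw [← Real.rpow_add hk0]
        norm_num
      calc (k : ℝ) ^ (1 / 2 : ℝ) * (4 * Real.log k) ≤ (k : ℝ) ^ (1 / 2 : ℝ) * (4 * (1 / 4 * (k : ℝ) ^ (1 / 2 : ℝ))) := by
            gcongr
        _ = (k : ℝ) ^ (1 / 2 : ℝ) * (k : ℝ) ^ (1 / 2 : ℝ) := by ring
        _ = k := e
    have h8 := Real.log_le_log hs h7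
    rwa [Real.log_rpow hk0] at h8
  filter_upwards [hwtop.eventually_ge_atTop u0, wk_le, hlw, hlog.eventually_ge_atTop 1, eventually_ge_atTop 2]
    with k h1 h2 h3 h4 h5
  have hk0 : (0 : ℝ) < k := by exact_mod_cast (by omega : 0 < k)
  have hwk' : wk k ≤ k ^ B := h2.trans (Nat.le_self_pow (by omega) k)
  have h6 := hu (wk k) (k ^ B) h1 hwk'
  have hV := V_pos (k ^ B)
  have hVw := V_pos (wk k)
  have e : Real.log ((k ^ B : ℕ) : ℝ) = B * Real.log k := by
    push_cast
    rw [Real.log_pow]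
  rw [e] at h6
  have hB0 : (1 : ℝ) ≤ B := by exact_mod_cast hB
  have hl0 : 0 < Real.log k := by linarith
  have h7 : 1 / 2 * Real.log k * V (wk k) ≤ 2 * (B * Real.log k * V (k ^ B)) := by
    refine le_trans ?_ h6
    gcongr
  have h8 : Real.log k * (1 / (4 * (B : ℝ)) * V (wk k)) ≤ Real.log k * V (k ^ B) := by
    have e2 : Real.log k * (1 / (4 * (B : ℝ)) * V (wk k)) = (1 / 2 * Real.log k * V (wk k)) / (2 * B) := by
      field_simp
      norm_num
    rw [e2, div_le_iff₀ (by positivity)]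
    linarith
  exact le_of_mul_le_mul_left h8 hl0

theorem pow_fac (ν : ℕ) (p : ℕ) (hp : 2 ≤ p) (h : 2 * ν ≤ p) : (1 - 1 / (p : ℝ)) ^ (2 * ν) ≤ 1 - (ν : ℝ) / p := by
  have hp0 : (2 : ℝ) ≤ p := by exact_mod_cast hp
  have hp1 : (0 : ℝ) < p := by linarith
  have hνp : 2 * (ν : ℝ) ≤ p := by exact_mod_cast h
  set x : ℝ := 1 / (p : ℝ) with hx
  have hx0 : 0 < x := by positivity
  have hx1 : x ≤ 1 / 2 := by
    rw [hx]
    gcongr
  have h1 : 1 - x ≤ Real.exp (-x) := by
    have := Real.add_one_le_exp (-x)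
    linarith
  have h2 : (1 - x) ^ (2 * ν) ≤ Real.exp (-(2 * ν * x)) := by
    calc (1 - x) ^ (2 * ν) ≤ Real.exp (-x) ^ (2 * ν) := pow_le_pow_left₀ (by linarith) h1 _
      _ = Real.exp (-(2 * ν * x)) := by
          rw [← Real.exp_nat_mul]
          congr 1
          push_cast
          ring
  refine h2.trans ?_
  have e : (ν : ℝ) / p = ν * x := by rw [hx]; ring
  rw [e]
  set y : ℝ := ν * x with hy
  have hy0 : 0 ≤ y := by positivity
  have hy1 : y ≤ 1 / 2 := by
    rw [hy, hx, mul_one_div, div_le_iff₀ hp1]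
    linarith
  have h3 : 1 + 2 * y ≤ Real.exp (2 * y) := by
    have := Real.add_one_le_exp (2 * y)
    linarith
  have h4 : 1 ≤ (1 - y) * Real.exp (2 * y) := by
    calc 1 ≤ (1 - y) * (1 + 2 * y) := by nlinarith
      _ ≤ (1 - y) * Real.exp (2 * y) := mul_le_mul_of_nonneg_left h3 (by linarith)
  have e2 : Real.exp (-(2 * ν * x)) = (Real.exp (2 * y))⁻¹ := by
    rw [← Real.exp_neg]
    congr 1
    rw [hy]
    ring
  rw [e2, inv_le_iff_one_le_mul₀ (Real.exp_pos _)]
  exact h4

theorem prod_fac (ν : ℕ) (L : Finset ℕ) (hL : ∀ p ∈ L, p.Prime) (h : ∀ p ∈ L, 2 * ν ≤ p) :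
    (∏ p ∈ L, (1 - 1 / (p : ℝ))) ^ (2 * ν) ≤ ∏ p ∈ L, (1 - (ν : ℝ) / p) := by
  rw [← prod_pow]
  exact prod_le_prod (fun p hp => pow_nonneg (fac_pos (hL p hp)).le _) fun p hp => pow_fac ν p (hL p hp).two_le (h p hp)

/-- positions of one prime in the range of `j` -/
theorem J_card (H : Finset ℕ) (c q J p r : ℕ) (hJ : 1 ≤ J) (hq : 0 < q) (hp : 0 < p) (hpq : Nat.Coprime p q) :
    (((Ico J (2 * J)).filter fun j => ∃ h ∈ H, (c + q * j + h) % p = r).card : ℝ) ≤ H.card * ((J : ℝ) / p + 1) := by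
  have h1 : ∀ h : ℕ, ((Ico J (2 * J)).filter fun j => (c + q * j + h) % p = r).card ≤ J / p + 1 := by
    intro h
    have h2 := Wd_class (c + h + q * (J - 1)) q J p r hq hp hpq
    refine le_trans (le_of_eq ?_) h2
    have e : ((Ico J (2 * J)).filter fun j => (c + q * j + h) % p = r).image (fun j => c + h + q * j) =
        (Wd (c + h + q * (J - 1)) q J).filter fun t => t % p = r := by
      ext t
      rw [mem_image, mem_filter, mem_Wd]
      constructor
      · rintro ⟨j, hj, rfl⟩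
        rw [mem_filter, mem_Ico] at hj
        obtain ⟨⟨h3, h4⟩, h5⟩ := hj
        refine ⟨⟨j - (J - 1), ⟨by omega, by omega⟩, ?_⟩, ?_⟩
        · rw [add_assoc, ← mul_add]
          congr 2
          omega
        · rw [← h5]
          congr 1
          ring
      · rintro ⟨⟨m, hm, rfl⟩, h5⟩
        refine ⟨m + (J - 1), ?_, ?_⟩
        · rw [mem_filter, mem_Ico]
          refine ⟨⟨by omega, by omega⟩, ?_⟩
          rw [← h5]
          congr 1
          ring
        · ring
    rw [← e, card_image_of_injective _ (Wd_inj (c + h) q hq)]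
  have h2 : ((Ico J (2 * J)).filter fun j => ∃ h ∈ H, (c + q * j + h) % p = r) ⊆
      H.biUnion fun h => (Ico J (2 * J)).filter fun j => (c + q * j + h) % p = r := by
    intro j hj
    rw [mem_filter] at hj
    obtain ⟨hj1, h, hh, he⟩ := hj
    rw [mem_biUnion]
    exact ⟨h, hh, mem_filter.2 ⟨hj1, he⟩⟩
  have h3 := (card_le_card h2).trans (card_biUnion_le.trans (sum_le_sum fun h _ => h1 h))
  rw [sum_const, smul_eq_mul] at h3
  have h4 : (((Ico J (2 * J)).filter fun j => ∃ h ∈ H, (c + q * j + h) % p = r).card : ℝ) ≤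
      ((H.card * (J / p + 1) : ℕ) : ℝ) := by exact_mod_cast h3
  refine h4.trans ?_
  push_cast
  have h8 : ((J / p : ℕ) : ℝ) ≤ J / p := Nat.cast_div_le
  gcongr

end Pool.Agent.H531.GP
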