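import Pool.Agent.H531.GP.Ph1

set_option autoImplicit false

/-!
# The primes between the first sieving limit and a power of `log X`: most positions are good
-/

open Finset MeasureTheory ProbabilityTheory Filter Topology

namespace Pool.Agent.H531.GP

open Pool.Agent.T2H31.HV Pool.Agent.H531.SI Pool.Agent.H531.MS
open Pool.Agent.H531.CP hiding pos Par low_all ratio_all low_exp
open Pool.Agent.T2H32.BF hiding PI pos

/-- the number of survivors allowed after the first phase -/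
noncomputable def sB (ε : ℝ) (B k : ℕ) : ℕ := ⌊(1 - ε / 16) * (k ^ 2 * V (k ^ B))⌋₊

/-- sum of the reciprocals in the first phase -/
theorem recip_B (B k : ℕ) (hwY : wk k ≤ k ^ B) (hρ : 1 / (4 * (B : ℝ)) * V (wk k) ≤ V (k ^ B)) (hB : 1 ≤ B) :
    ∑ p ∈ PI (wk k) (k ^ B), 1 / (p : ℝ) ≤ 4 * B := by
  have hVw := V_pos (wk k)
  have hVY := V_pos (k ^ B)
  have hB0 : (1 : ℝ) ≤ B := by exact_mod_cast hB
  have h1 : ∑ p ∈ PI (wk k) (k ^ B), 1 / (p : ℝ) ≤ Real.log (V (wk k) / V (k ^ B)) := recip_le _ _ hwY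
  have h2 : V (wk k) / V (k ^ B) ≤ 4 * B := by
    rw [div_le_iff₀ hVY]
    have h3 := mul_le_mul_of_nonneg_left hρ (show 0 ≤ 4 * (B : ℝ) by positivity)
    have e : 4 * (B : ℝ) * (1 / (4 * B) * V (wk k)) = V (wk k) := by field_simp
    linarith
  have h3 := Real.log_le_sub_one_of_pos (show 0 < V (wk k) / V (k ^ B) by positivity)
  linarith

section prob

variable {Ω : Type} [MeasurableSpace Ω] {P : Measure Ω} {a : ℕ → Ω → ℕ}

/-- **One block.** -/
theorem bad_one (h : Model P a) (B : ℕ) (hB : 1 ≤ B) (ε : ℝ) (hε : 0 < ε) (hε1 : ε ≤ 1) (m : ℕ) :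
    ∀ᶠ k : ℕ in atTop, ∀ (T0 : Finset ℕ) (n G : ℕ), 1 ≤ n → T0 ⊆ range (G + 1) → (G : ℝ) ≤ 2 * k ^ 2 →
      (T0.card : ℝ) ≤ (1 - ε / 8) * (k ^ 2 * V (wk k)) →
      P.real {ω | sB ε B k < (Sw (T0.image fun t => n + t) (PI (wk k) (k ^ B)) fun p => a p ω).card} ≤
        2 * Real.exp (-(m * Real.log k)) := by
  have := prob h
  have hB0 : (1 : ℝ) ≤ B := by exact_mod_cast hB
  set θ : ℝ := ε / (256 * B * Real.exp 1) with hθ
  have he := Real.exp_pos 1
  have he1 : (1 : ℝ) ≤ Real.exp 1 := Real.one_le_exp (by norm_num)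
  have hθ0 : 0 < θ := by positivity
  have hθ1 : θ ≤ 1 := by
    rw [hθ, div_le_one (by positivity)]
    nlinarith
  set c3 : ℝ := θ * (3 * ε / (1024 * B)) with hc3
  have hc30 : 0 < c3 := by positivity
  have hwtop : Tendsto wk atTop atTop := ww_nat.comp E_top
  filter_upwards [wV_large c3 hc30 m, rho_B B hB, wk_le, hwtop.eventually_ge_atTop 4,
    eventually_ge_atTop (4 * B + 4)] with k hbig hρ hwk hw4 hkB
  intro T0 n G hn hT0 hG hT0c
  have hkR : (4 * (B : ℝ) + 4) ≤ k := by exact_mod_cast hkB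
  have hk0 : (0 : ℝ) < k := by linarith
  have hk4 : (4 : ℝ) ≤ k := by linarith
  set w := wk k with hw
  have hw4R : (4 : ℝ) ≤ w := by exact_mod_cast hw4
  have hw0 : (0 : ℝ) < w := by linarith
  have hwkR : (w : ℝ) ≤ k := by exact_mod_cast hwk
  have hwY : w ≤ k ^ B := hwk.trans (Nat.le_self_pow (by omega) k)
  have hVw := V_pos w
  have hVY := V_pos (k ^ B)
  set T := T0.image fun t => n + t with hT
  have hTc : T.card = T0.card := card_image_of_injective _ (add_right_injective n)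
  have hL : ∀ p ∈ PI w (k ^ B), p.Prime := fun p hp => (mem_PI.1 hp).2
  have hprod : ∏ p ∈ PI w (k ^ B), (1 - 1 / (p : ℝ)) = V (k ^ B) / V w := (V_ratio w (k ^ B) hwY).symm
  set l : ℝ := θ * w / (4 * k ^ 2) with hl
  have hl0 : 0 < l := by positivity
  set t : ℝ := ε / 16 * (k ^ 2 * V (k ^ B)) with ht
  have key := conc h T (PI w (k ^ B)) (fun p => ((G : ℝ) + 1) / p + 1) hL (fun p hp => by positivity)
    (fun p hp r => by
      have hpp := hL p hp
      have h6 := Wd_class (n - 1) 1 (G + 1) p r one_pos hpp.pos (Nat.coprime_one_right p)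
      have h5 : T ⊆ Wd (n - 1) 1 (G + 1) := by
        intro x hx
        rw [hT, mem_image] at hx
        obtain ⟨s, hs, rfl⟩ := hx
        have := mem_range.1 (hT0 hs)
        rw [mem_Wd]
        exact ⟨s + 1, ⟨by omega, by omega⟩, by omega⟩
      have h7 : ((T.filter fun t => t % p = r).card : ℝ) ≤ (((G + 1) / p + 1 : ℕ) : ℝ) := by
        exact_mod_cast (card_le_card (filter_subset_filter _ h5)).trans h6
      push_cast at h7
      have h8 : (((G + 1) / p : ℕ) : ℝ) ≤ ((G + 1 : ℕ) : ℝ) / p := Nat.cast_div_le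
      push_cast at h8
      linarith) 1 zero_le_one (fun p hp => by
      have h1 : (w : ℝ) ≤ p := by exact_mod_cast (mem_PI.1 hp).1.1.le
      have := Real.exp_one_lt_d9
      linarith) l hl0.le (fun p hp => by
      have hpw : (w : ℝ) ≤ p := by exact_mod_cast (mem_PI.1 hp).1.1.le
      have h6 : ((G : ℝ) + 1) / p + 1 ≤ 4 * k ^ 2 / w := by
        have h7 : ((G : ℝ) + 1) / p ≤ (2 * k ^ 2 + 1) / w := by gcongr
        have h8 : (2 * (k : ℝ) ^ 2 + 1) / w + 1 ≤ 4 * k ^ 2 / w := by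
          rw [div_add_one hw0.ne']
          apply div_le_div_of_nonneg_right _ hw0.le
          nlinarith
        linarith
      calc l * (((G : ℝ) + 1) / p + 1) ≤ l * (4 * k ^ 2 / w) := by gcongr
        _ = θ := by
            rw [hl]
            field_simp
        _ ≤ 1 := hθ1) t
  rw [hprod, hTc] at key
  have hsub : {ω | sB ε B k < (Sw T (PI w (k ^ B)) fun p => a p ω).card} ⊆
      {ω | t ≤ |((Sw T (PI w (k ^ B)) fun q => a q ω).card : ℝ) - T0.card * (V (k ^ B) / V w)|} := by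
    intro ω hω
    have hω : sB ε B k < (Sw T (PI w (k ^ B)) fun p => a p ω).card := hω
    show t ≤ |_|
    refine le_trans ?_ (le_abs_self _)
    have h1 : (1 - ε / 16) * (k ^ 2 * V (k ^ B)) < sB ε B k + 1 := Nat.lt_floor_add_one _
    have h2 : ((sB ε B k : ℕ) : ℝ) + 1 ≤ (Sw T (PI w (k ^ B)) fun p => a p ω).card := by exact_mod_cast hω
    have h3 : (T0.card : ℝ) * (V (k ^ B) / V w) ≤ (1 - ε / 8) * (k ^ 2 * V (k ^ B)) := by
      calc (T0.card : ℝ) * (V (k ^ B) / V w) ≤ (1 - ε / 8) * (k ^ 2 * V w) * (V (k ^ B) / V w) := by gcongr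
        _ = (1 - ε / 8) * (k ^ 2 * V (k ^ B)) := by field_simp
    have e : (1 - ε / 16) * ((k : ℝ) ^ 2 * V (k ^ B)) = (1 - ε / 8) * (k ^ 2 * V (k ^ B)) + t := by
      rw [ht]
      ring
    linarith
  refine (measureReal_mono hsub (measure_ne_top _ _)).trans (key.trans ?_)
  gcongr 2 * Real.exp ?_
  -- the exponent
  have hsum : ∑ p ∈ PI w (k ^ B), (((G : ℝ) + 1) / p + 1) / p ≤ 4 * k ^ 2 / w := by
    have e : ∀ p ∈ PI w (k ^ B), (((G : ℝ) + 1) / p + 1) / p = (G + 1) * (1 / (p : ℝ) ^ 2) + 1 / p := by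
      intro p hp
      have : (p : ℝ) ≠ 0 := by exact_mod_cast (hL p hp).ne_zero
      field_simp
    rw [sum_congr rfl e, sum_add_distrib, ← mul_sum]
    have h6 := sum_inv_sq_PI w (k ^ B) (by omega) hwY
    have h7 := recip_B B k hwY hρ hB
    have h8 : ((G : ℝ) + 1) * ∑ p ∈ PI w (k ^ B), 1 / (p : ℝ) ^ 2 ≤ (2 * k ^ 2 + 1) * (1 / w) := by
      apply mul_le_mul (by linarith) h6 (sum_nonneg fun p _ => by positivity) (by positivity)
    have h9 : (2 * (k : ℝ) ^ 2 + 1) * (1 / w) + 4 * B ≤ 4 * k ^ 2 / w := by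
      rw [mul_one_div, div_add' _ _ _ hw0.ne']
      apply div_le_div_of_nonneg_right _ hw0.le
      have h10 : 4 * (B : ℝ) * w ≤ (k - 4) * k := by
        apply mul_le_mul (by linarith) hwkR hw0.le (by linarith)
      nlinarith
    linarith
  have hT0c' : (T0.card : ℝ) ≤ k ^ 2 * V w := by
    refine hT0c.trans ?_
    have : 0 ≤ (k : ℝ) ^ 2 * V w := by positivity
    nlinarith
  have h1 : (T0.card : ℝ) * (l ^ 2 * Real.exp 1 * ∑ p ∈ PI w (k ^ B), (((G : ℝ) + 1) / p + 1) / p) ≤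
      θ * (ε / (1024 * B)) * (w * V w) := by
    have h2 : 0 ≤ ∑ p ∈ PI w (k ^ B), (((G : ℝ) + 1) / p + 1) / p := sum_nonneg fun p _ => by positivity
    calc (T0.card : ℝ) * (l ^ 2 * Real.exp 1 * ∑ p ∈ PI w (k ^ B), (((G : ℝ) + 1) / p + 1) / p)
        ≤ k ^ 2 * V w * (l ^ 2 * Real.exp 1 * (4 * k ^ 2 / w)) := by gcongr
      _ = θ * (ε / (1024 * B)) * (w * V w) := by
          rw [hl, hθ]
          field_simp
          norm_num
  have h2 : θ * (4 * ε / (1024 * B)) * (w * V w) ≤ l * t := by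
    have e : l * t = θ * (ε / 64) * (w * V (k ^ B)) := by
      rw [hl, ht]
      field_simp
      norm_num
    rw [e]
    have h3 : θ * (ε / 64) * (w * (1 / (4 * (B : ℝ)) * V w)) ≤ θ * (ε / 64) * (w * V (k ^ B)) := by gcongr
    refine le_trans (le_of_eq ?_) h3
    field_simp
    norm_num
  have h3 : θ * (ε / (1024 * B)) * (w * V w) - θ * (4 * ε / (1024 * B)) * (w * V w) = -(c3 * (w * V w)) := by
    rw [hc3]
    field_simp
    ring
  linarith

/-- **Many positions.** -/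
theorem surv_many (h : Model P a) (B ν : ℕ) (hB : 1 ≤ B) (hν : 1 ≤ ν) (m : ℕ) (c1 : ℝ)
    (hc1 : c1 = 1 / 4 * (1 / (4 * (B : ℝ))) ^ (2 * ν)) :
    ∀ᶠ k : ℕ in atTop, ∀ (H : Finset ℕ) (c J : ℕ), 1 ≤ H.card → H.card ≤ ν → k ^ 2 ≤ J →
      P.real {ω | ((ST H c (primorial (wk k)) (Ico J (2 * J)) (PI (wk k) (k ^ B)) fun p => a p ω).card : ℝ) ≤
        2 * c1 * J} ≤ Real.exp (-(m * Real.log k)) := by
  have := prob h
  have hB0 : (1 : ℝ) ≤ B := by exact_mod_cast hB
  have hν0 : (1 : ℝ) ≤ ν := by exact_mod_cast hν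
  have he := Real.exp_pos 1
  have he1 : (1 : ℝ) ≤ Real.exp 1 := Real.one_le_exp (by norm_num)
  have hc10 : 0 < c1 := by rw [hc1]; positivity
  have hb1 : 1 / (4 * (B : ℝ)) ≤ 1 := by
    rw [div_le_one (by positivity)]
    linarith
  have hc11 : c1 ≤ 1 / 4 := by
    rw [hc1]
    have : (1 / (4 * (B : ℝ))) ^ (2 * ν) ≤ 1 := pow_le_one₀ (by positivity) hb1
    linarith
  set θ : ℝ := c1 / (ν * Real.exp 1) with hθ
  have hθ0 : 0 < θ := by positivity
  have hθ1 : θ ≤ 1 := by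
    rw [hθ, div_le_one (by positivity)]
    nlinarith
  set c2 : ℝ := θ * c1 / (2 * ν) with hc2
  have hc20 : 0 < c2 := by positivity
  have hwtop : Tendsto wk atTop atTop := ww_nat.comp E_top
  filter_upwards [wV_large c2 hc20 m, rho_B B hB, wk_le, hwtop.eventually_ge_atTop (4 * ν),
    eventually_ge_atTop (4 * B + 4)] with k hbig hρ hwk hw4 hkB
  intro H c J hH1 hHν hkJ
  have hkR : (4 * (B : ℝ) + 4) ≤ k := by exact_mod_cast hkB
  have hk0 : (0 : ℝ) < k := by linarith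
  set w := wk k with hw
  have hw4R : 4 * (ν : ℝ) ≤ w := by exact_mod_cast hw4
  have hw0 : (0 : ℝ) < w := by linarith
  have hwkR : (w : ℝ) ≤ k := by exact_mod_cast hwk
  have hwY : w ≤ k ^ B := hwk.trans (Nat.le_self_pow (by omega) k)
  have hVw := V_pos w
  have hVw1 := V_le_one w
  have hVY := V_pos (k ^ B)
  have hJR : (k : ℝ) ^ 2 ≤ J := by exact_mod_cast hkJ
  have hJ0 : (0 : ℝ) < J := lt_of_lt_of_le (by positivity) hJR
  have hJ1 : 1 ≤ J := by
    have : 0 < J := by exact_mod_cast hJ0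
    omega
  set n : ℝ := (H.card : ℝ) with hn
  have hn1 : 1 ≤ n := by
    rw [hn]
    exact_mod_cast hH1
  have hnν : n ≤ ν := by
    rw [hn]
    exact_mod_cast hHν
  have hL : ∀ p ∈ PI w (k ^ B), p.Prime := fun p hp => (mem_PI.1 hp).2
  set l : ℝ := θ * w / (2 * ν * J) with hl
  have hl0 : 0 < l := by positivity
  have hwJ : (w : ℝ) ≤ J := by nlinarith
  have key := lower_T h H hH1 c (primorial w) (Ico J (2 * J)) (PI w (k ^ B)) (fun p => n * ((J : ℝ) / p + 1)) hL
    (fun p hp => by positivity) (fun p hp r => J_card H c (primorial w) J p r hJ1 (primorial_pos w) (hL p hp).pos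
      (coprime_primorial (hL p hp) (mem_PI.1 hp).1.1)) 1 (fun p hp => by
      have h1 : (w : ℝ) ≤ p := by exact_mod_cast (mem_PI.1 hp).1.1.le
      have h2 := Real.exp_one_lt_d9
      have h3 : n * (1 + 1 * Real.exp 1) ≤ ν * 4 := by
        apply mul_le_mul hnν (by linarith) (by positivity) (by positivity)
      linarith) l hl0.le (fun p hp => by
      have hpw : (w : ℝ) ≤ p := by exact_mod_cast (mem_PI.1 hp).1.1.le
      have h6 : (J : ℝ) / p + 1 ≤ 2 * J / w := by
        have h7 : (J : ℝ) / p ≤ J / w := by gcongr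
        have h8 : 1 ≤ (J : ℝ) / w := by
          rw [le_div_iff₀ hw0]
          linarith
        have e : 2 * (J : ℝ) / w = J / w + J / w := by ring
        linarith
      calc l * (n * ((J : ℝ) / p + 1)) ≤ l * (ν * (2 * J / w)) := by gcongr
        _ = θ := by
            rw [hl]
            field_simp
        _ ≤ 1 := hθ1) (2 * c1 * J)
  have hcard : ((Ico J (2 * J)).card : ℝ) = J := by
    rw [Nat.card_Ico]
    have : 2 * J - J = J := by omega
    rw [this]
  rw [hcard] at key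
  -- the product
  have hprod : 4 * c1 ≤ ∏ p ∈ PI w (k ^ B), (1 - n / (p : ℝ)) := by
    have h1 := prod_fac H.card (PI w (k ^ B)) hL (fun p hp => by
      have := (mem_PI.1 hp).1.1
      omega)
    have h2 : ∏ p ∈ PI w (k ^ B), (1 - 1 / (p : ℝ)) = V (k ^ B) / V w := (V_ratio w (k ^ B) hwY).symm
    rw [h2] at h1
    refine le_trans ?_ h1
    have h3 : 1 / (4 * (B : ℝ)) ≤ V (k ^ B) / V w := by
      rw [le_div_iff₀ hVw]
      exact hρ
    calc 4 * c1 = (1 / (4 * (B : ℝ))) ^ (2 * ν) := by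
          rw [hc1]
          ring
      _ ≤ (1 / (4 * (B : ℝ))) ^ (2 * H.card) := pow_le_pow_of_le_one (by positivity) hb1 (by omega)
      _ ≤ (V (k ^ B) / V w) ^ (2 * H.card) := pow_le_pow_left₀ (by positivity) h3 _
  refine le_trans (measureReal_mono ?_ (measure_ne_top _ _)) (key.trans ?_)
  · intro ω hω
    have hω : ((ST H c (primorial w) (Ico J (2 * J)) (PI w (k ^ B)) fun p => a p ω).card : ℝ) ≤ 2 * c1 * J := hω
    show ((ST H c (primorial w) (Ico J (2 * J)) (PI w (k ^ B)) fun p => a p ω).card : ℝ) ≤ _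
    refine hω.trans ?_
    have h1 := mul_le_mul_of_nonneg_left hprod hJ0.le
    linarith
  · apply Real.exp_le_exp.2
    have hsum : ∑ p ∈ PI w (k ^ B), (n * ((J : ℝ) / p + 1)) / p ≤ ν * (2 * J / w) := by
      have e : ∀ p ∈ PI w (k ^ B), (n * ((J : ℝ) / p + 1)) / p = n * (J * (1 / (p : ℝ) ^ 2) + 1 / p) := by
        intro p hp
        have : (p : ℝ) ≠ 0 := by exact_mod_cast (hL p hp).ne_zero
        field_simp
      rw [sum_congr rfl e, ← mul_sum, sum_add_distrib, ← mul_sum]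
      have h6 := sum_inv_sq_PI w (k ^ B) (by omega) hwY
      have h7 := recip_B B k hwY hρ hB
      have h8 : (J : ℝ) * ∑ p ∈ PI w (k ^ B), 1 / (p : ℝ) ^ 2 ≤ J * (1 / w) := by gcongr
      have h9 : (4 : ℝ) * B ≤ J / w := by
        rw [le_div_iff₀ hw0]
        have h10 : 4 * (B : ℝ) * w ≤ k * k := by
          apply mul_le_mul (by linarith) hwkR hw0.le hk0.le
        nlinarith
      have e2 : 2 * (J : ℝ) / w = J * (1 / w) + J / w := by ring
      have h10 : (J : ℝ) * ∑ p ∈ PI w (k ^ B), 1 / (p : ℝ) ^ 2 + ∑ p ∈ PI w (k ^ B), 1 / (p : ℝ) ≤ 2 * J / w := by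
        linarith
      have h11 : 0 ≤ (J : ℝ) * ∑ p ∈ PI w (k ^ B), 1 / (p : ℝ) ^ 2 + ∑ p ∈ PI w (k ^ B), 1 / (p : ℝ) := by positivity
      exact mul_le_mul hnν h10 h11 (by positivity)
    have h1 : (J : ℝ) * (l ^ 2 * (n * Real.exp 1) * ∑ p ∈ PI w (k ^ B), (n * ((J : ℝ) / p + 1)) / p) ≤
        c2 * w := by
      have h2 : 0 ≤ ∑ p ∈ PI w (k ^ B), (n * ((J : ℝ) / p + 1)) / p := sum_nonneg fun p _ => by positivity
      calc (J : ℝ) * (l ^ 2 * (n * Real.exp 1) * ∑ p ∈ PI w (k ^ B), (n * ((J : ℝ) / p + 1)) / p)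
          ≤ J * (l ^ 2 * (ν * Real.exp 1) * (ν * (2 * J / w))) := by gcongr
        _ = c2 * w := by
            rw [hl, hc2, hθ]
            field_simp
            try norm_num
    have h2 : l * (2 * c1 * J) = 2 * c2 * w := by
      rw [hl, hc2]
      field_simp
    have h3 : c2 * (w * V w) ≤ c2 * w := by
      apply mul_le_mul_of_nonneg_left _ hc20.le
      nlinarith
    linarith

end prob

end Pool.Agent.H531.GP
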