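import Pool.Agent.H531.GP.Cor
import Pool.Agent.H531.GP.Ph2

set_option autoImplicit false

/-!
# The large primes
-/

open Finset MeasureTheory ProbabilityTheory Filter Topology

namespace Pool.Agent.H531.GP

open Pool.Agent.T2H31.HV Pool.Agent.H531.SI Pool.Agent.H531.MS
open Pool.Agent.H531.CP hiding pos Par low_all ratio_all low_exp
open Pool.Agent.T2H32.BF hiding PI pos

theorem inj_Icc {n G p : ℕ} (hp : G < p) {S : Finset ℕ} (hS : S ⊆ Icc n (n + G)) :
    Set.InjOn (fun u => u % p) S := by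
  intro t ht t' ht' h
  have h1 := mem_Icc.1 (hS ht)
  have h2 := mem_Icc.1 (hS ht')
  have h3 : t ≡ t' [MOD p] := h
  rcases le_total t t' with h4 | h4
  · have h5 := (Nat.modEq_iff_dvd' h4).1 h3
    have h6 := Nat.eq_zero_of_dvd_of_lt h5 (by omega)
    omega
  · have h5 := (Nat.modEq_iff_dvd' h4).1 h3.symm
    have h6 := Nat.eq_zero_of_dvd_of_lt h5 (by omega)
    omega

section prob

variable {Ω : Type} [MeasurableSpace Ω] {P : Measure Ω} {a : ℕ → Ω → ℕ}

/-- survival of a small set -/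
theorem surv_ge (h : Model P a) (A L : Finset ℕ) (hL : ∀ p ∈ L, p.Prime) (ν : ℕ) (hA : A.card ≤ ν)
    (hν : ∀ p ∈ L, 2 * ν ≤ p) : (∏ p ∈ L, (1 - 1 / (p : ℝ))) ^ (2 * ν) ≤ P.real (Surv a L A) := by
  rw [Surv_prob h A L hL]
  refine (prod_fac ν L hL hν).trans (prod_le_prod (fun p hp => ?_) fun p hp => ?_)
  · have hp0 : (0 : ℝ) < p := by exact_mod_cast (hL p hp).pos
    have h1 : (ν : ℝ) ≤ p := by
      have := hν p hp
      exact_mod_cast (by omega : ν ≤ p)
    rw [sub_nonneg, div_le_one hp0]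
    exact h1
  · have hp0 : (0 : ℝ) < p := by exact_mod_cast (hL p hp).pos
    have h1 : ((A.image (fun u => u % p)).card : ℝ) ≤ ν := by exact_mod_cast card_image_le.trans hA
    have h2 : ((A.image (fun u => u % p)).card : ℝ) / p ≤ ν / p := by gcongr
    linarith

/-- **The second phase.** -/
theorem ph2_fixed (h : Model P a) (B ν : ℕ) : ∀ᶠ k : ℕ in atTop, ∀ Y Z X s : ℕ, Par B k Y Z s →
    Nat.log 2 X ≤ 3 * k → ∀ (H I : Finset ℕ) (T : ℕ → Finset ℕ) (n : ℕ → ℕ) (G : ℕ), H.card ≤ ν → G < Y →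
      (∀ j ∈ I, T j ⊆ Icc (n j) (n j + G)) → (∀ u ∈ H, u ≤ G) →
      (∀ j ∈ I, Disjoint (T j) (H.image fun u => n j + u)) →
      (∀ i ∈ I, ∀ j ∈ I, i ≠ j → Disjoint (Icc (n i) (n i + G)) (Icc (n j) (n j + G))) →
      (∀ j ∈ I, n j + G ≤ X) → (∀ j ∈ I, (T j).card + ν ≤ s) → 1 ≤ I.card →
      P.real {ω | cnt I (fun j => Kill a (T j) (PI Y Z) ∩ Surv a (PI Y Z) (H.image fun u => n j + u)) ω <
          vB Y Z ^ (2 * ν) / 2 * (I.card * (1 - dB k Y Z) ^ s)} ≤
        2 ^ ν * ((1 / (I.card * (1 - dB k Y Z) ^ s) + (Real.exp (s ^ 3 * Nat.log 2 X / Y) - 1)) /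
          (vB Y Z ^ (2 * ν) / 2 ^ (ν + 1)) ^ 2) := by
  classical
  have := prob h
  filter_upwards [low_all h B, ratio_all B, dB_small B (1 / 2) (by norm_num), eventually_ge_atTop (2 * ν + 1)]
    with k hlow hrat hds hkν
  intro Y Z X s hp hX H I T n G hH hGY hT hHG hTH hdisj hnX hTs hI
  have hd := hds Y Z s hp
  have hd0 := dB_pos k Y Z
  have hv0 := vB_pos Y Z
  have h1d : 0 < 1 - dB k Y Z := by linarith
  have hkY : k ≤ Y := (Nat.le_self_pow (by norm_num) k).trans hp.hYk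
  have hY0 : (0 : ℝ) < Y := by exact_mod_cast (by omega : 0 < Y)
  have hL : ∀ p ∈ PI Y Z, p.Prime := fun p hp1 => (mem_PI.1 hp1).2
  have hLY : ∀ p ∈ PI Y Z, Y < p := fun p hp1 => (mem_PI.1 hp1).1.1
  have hvk : vB Y Z = ∏ p ∈ PI Y Z, (1 - 1 / (p : ℝ)) := V_ratio _ _ hp.hYZ
  set ξ := Real.exp (s ^ 3 * Nat.log 2 X / Y) - 1 with hξ
  have hξ0 : 0 ≤ ξ := by
    have : 1 ≤ Real.exp ((s : ℝ) ^ 3 * Nat.log 2 X / Y) := Real.one_le_exp (by positivity)
    linarith
  set β := vB Y Z ^ (2 * ν) with hβ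
  have hβ0 : 0 < β := by positivity
  set θ := β / 2 ^ (ν + 1) with hθ
  have hθ0 : 0 < θ := by positivity
  have hI0 : (0 : ℝ) < I.card := by exact_mod_cast hI
  set m0 : ℝ := I.card * (1 - dB k Y Z) ^ s with hm0
  have hm00 : 0 < m0 := by positivity
  set Hj : ℕ → Finset ℕ → Finset ℕ := fun j S => S.image fun u => n j + u with hHj
  have hHjsub : ∀ j, ∀ S ⊆ H, Hj j S ⊆ Icc (n j) (n j + G) := by
    intro j S hS x hx
    simp only [hHj, mem_image] at hx
    obtain ⟨u, hu, rfl⟩ := hx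
    have := hHG u (hS hu)
    rw [mem_Icc]
    omega
  set U : ℕ → Finset ℕ → Finset ℕ := fun j S => T j ∪ Hj j S with hU
  have hUsub : ∀ j ∈ I, ∀ S ⊆ H, U j S ⊆ Icc (n j) (n j + G) := fun j hj S hS =>
    union_subset (hT j hj) (hHjsub j S hS)
  have hUcard : ∀ j ∈ I, ∀ S ⊆ H, (U j S).card ≤ s := by
    intro j hj S hS
    have h1 : (Hj j S).card ≤ ν := card_image_le.trans ((card_le_card hS).trans hH)
    have h2 := card_union_le (T j) (Hj j S)
    have h3 := hTs j hj
    have h4 : (U j S).card = (T j ∪ Hj j S).card := rfl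
    omega
  have hUinj : ∀ j ∈ I, ∀ S ⊆ H, ∀ p ∈ PI Y Z, Set.InjOn (fun u => u % p) (U j S) := fun j hj S hS p hp1 =>
    inj_Icc (hGY.trans (hLY p hp1)) (hUsub j hj S hS)
  set M := ∑ j ∈ I, P.real (Kill a (T j) (PI Y Z)) with hM
  have hTcard : ∀ j ∈ I, (T j).card ≤ s := fun j hj => by
    have := hTs j hj
    omega
  have hTinj : ∀ j ∈ I, ∀ p ∈ PI Y Z, Set.InjOn (fun u => u % p) (T j) := fun j hj p hp1 =>
    inj_Icc (hGY.trans (hLY p hp1)) (hT j hj)
  have hMm : m0 ≤ M := by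
    have h1 : ∀ j ∈ I, (1 - dB k Y Z) ^ s ≤ P.real (Kill a (T j) (PI Y Z)) := by
      intro j hj
      have h2 := hlow Y Z X s hp hX (PI Y Z) (subset_refl _) (by simp) (T j) (hTcard j hj) (hTinj j hj)
      refine le_trans ?_ h2
      exact pow_le_pow_of_le_one h1d.le (by linarith) (hTcard j hj)
    calc m0 = ∑ j ∈ I, (1 - dB k Y Z) ^ s := by rw [hm0, sum_const, nsmul_eq_mul]
      _ ≤ M := sum_le_sum h1
  have hM0 : 0 < M := lt_of_lt_of_le hm00 hMm
  have key := signed (P := P) I H (fun j => Kill a (T j) (PI Y Z) ∩ Surv a (PI Y Z) (H.image fun u => n j + u))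
    (fun S j => Kill a (T j ∪ S.image fun u => n j + u) (PI Y Z))
    (fun j _ => (Kill_meas h _ _).inter (Surv_meas h _ _)) (fun S j _ => Kill_meas h _ _)
    (fun j _ ω => ind_id a (T j) H (PI Y Z) (fun u => n j + u) ω) M ξ β θ hM0 hξ0 hθ0
    (fun S _ => sum_le_sum fun j _ => measureReal_mono (Kill_anti a _ _ _ subset_union_left) (measure_ne_top _ _))
    (by
      intro S hS i hi j hj hij
      rw [mem_powerset] at hS
      have h1 := pair_bound h (U i S) (U j S) (PI Y Z) hL (hUinj i hi S hS) (hUinj j hj S hS)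
        (disjoint_of_subset_left (hUsub i hi S hS) (disjoint_of_subset_right (hUsub j hj S hS) (hdisj i hi j hj hij)))
        X (by
          intro u hu
          rcases mem_union.1 hu with hu | hu
          · have h2 := (mem_Icc.1 (hUsub i hi S hS hu)).2
            exact h2.trans (hnX i hi)
          · have h2 := (mem_Icc.1 (hUsub j hj S hS hu)).2
            exact h2.trans (hnX j hj)) Y hY0 (fun p hp1 => by exact_mod_cast (hLY p hp1).le) s
        (hUcard i hi S hS) (hUcard j hj S hS) (vB Y Z) (dB k Y Z) hvk (hlow Y Z X s hp hX) (hrat Y Z s hp)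
      have e : 1 + ξ = Real.exp ((s : ℝ) ^ 3 * Nat.log 2 X / Y) := by
        rw [hξ]
        ring
      rw [e]
      exact h1)
    (by
      rw [hM, mul_sum]
      refine sum_le_sum fun j hj => ?_
      have h1 := kill_surv h (H.image fun u => n j + u) (PI Y Z) hL (T j) (by
        intro p hp1 t ht u hu he
        have h2 : t = u := inj_Icc (n := n j) (G := G) (hGY.trans (hLY p hp1)) (S := U j H) (hUsub j hj H (subset_refl _))
          (by exact_mod_cast mem_union_left _ ht) (by exact_mod_cast mem_union_right _ hu) he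
        exact disjoint_left.1 (hTH j hj) ht (h2 ▸ hu))
      have h2 := surv_ge h (H.image fun u => n j + u) (PI Y Z) hL ν (card_image_le.trans hH) (fun p hp1 => by
        have := hLY p hp1
        omega)
      rw [← hvk] at h2
      refine le_trans ?_ h1
      rw [mul_comm]
      exact mul_le_mul_of_nonneg_left h2 measureReal_nonneg)
  have h2pow : (2 : ℝ) ^ H.card ≤ 2 ^ ν := pow_le_pow_right₀ (by norm_num) hH
  have hhalf : β / 2 ≤ β - 2 ^ H.card * θ := by
    have h1 : (2 : ℝ) ^ H.card * θ ≤ 2 ^ ν * θ := by gcongr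
    have h2 : (2 : ℝ) ^ ν * θ = β / 2 := by
      rw [hθ, pow_succ]
      field_simp
    linarith
  refine le_trans (measureReal_mono ?_ (measure_ne_top _ _)) (key.trans ?_)
  · intro ω hω
    refine lt_of_lt_of_le (show _ < β / 2 * m0 from hω) ?_
    exact mul_le_mul hhalf hMm hm00.le (le_trans (by positivity) hhalf)
  · have h1 : (1 / M + ξ) / θ ^ 2 ≤ (1 / m0 + ξ) / θ ^ 2 := by
      apply div_le_div_of_nonneg_right _ (by positivity)
      have := one_div_le_one_div_of_le hm00 hMm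
      linarith
    have h0 : 0 ≤ (1 / M + ξ) / θ ^ 2 := by positivity
    exact mul_le_mul h2pow h1 h0 (by positivity)

end prob

end Pool.Agent.H531.GP
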