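import Pool.Agent.H531.GP.Ph3

set_option autoImplicit false

/-!
# The last primes: survival of one prescribed set
-/

open Finset MeasureTheory ProbabilityTheory Filter Topology

namespace Pool.Agent.H531.GP

open Pool.Agent.T2H31.HV Pool.Agent.H531.SI Pool.Agent.H531.MS
open Pool.Agent.H531.CP hiding pos Par low_all ratio_all low_exp
open Pool.Agent.T2H32.BF hiding PI pos

section prob

variable {Ω : Type} [MeasurableSpace Ω] {P : Measure Ω} {a : ℕ → Ω → ℕ}

omit [MeasurableSpace Ω] in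
theorem Surv_union (a : ℕ → Ω → ℕ) (L A A' : Finset ℕ) : Surv a L A ∩ Surv a L A' = Surv a L (A ∪ A') := by
  ext ω
  simp only [Surv, Set.mem_inter_iff, Set.mem_ofPred_eq, mem_union]
  constructor
  · rintro ⟨h1, h2⟩ p hp u (hu | hu)
    · exact h1 p hp u hu
    · exact h2 p hp u hu
  · intro h
    exact ⟨fun p hp u hu => h p hp u (Or.inl hu), fun p hp u hu => h p hp u (Or.inr hu)⟩

/-- **Survival of two sets.** -/
theorem surv_pair (h : Model P a) (A A' L : Finset ℕ) (hL : ∀ p ∈ L, p.Prime) (n : ℕ) (hA : A.card = n)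
    (hA' : A'.card = n) (hinj : ∀ p ∈ L, Set.InjOn (fun u => u % p) A) (hinj' : ∀ p ∈ L, Set.InjOn (fun u => u % p) A')
    (hd : Disjoint A A') (X : ℕ) (hX : ∀ u ∈ A ∪ A', u ≤ X) (Z0 : ℝ) (hZ0 : 0 < Z0) (hLZ : ∀ p ∈ L, Z0 ≤ p)
    (hn : ∀ p ∈ L, 2 * n ≤ p) :
    P.real (Surv a L A ∩ Surv a L A') ≤ Real.exp (2 * n ^ 3 * Nat.log 2 X / Z0) *
      (P.real (Surv a L A) * P.real (Surv a L A')) := by
  classical
  have := prob h
  rw [Surv_union, Surv_prob h _ L hL, Surv_prob h _ L hL, Surv_prob h _ L hL, ← prod_mul_distrib]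
  set L2 := L.filter (fun p => ∃ u ∈ A, ∃ u' ∈ A', u % p = u' % p) with hL2
  have hcardL2 : L2.card ≤ n ^ 2 * Nat.log 2 X := by
    have h1 : L2 ⊆ (A ×ˢ A').biUnion (fun z => L.filter (fun p => z.1 % p = z.2 % p)) := by
      intro p hp
      rw [hL2, mem_filter] at hp
      obtain ⟨hp1, u, hu, u', hu', he⟩ := hp
      rw [mem_biUnion]
      exact ⟨(u, u'), mem_product.2 ⟨hu, hu'⟩, mem_filter.2 ⟨hp1, he⟩⟩
    refine (card_le_card h1).trans (card_biUnion_le.trans ?_)
    calc ∑ z ∈ A ×ˢ A', (L.filter (fun p => z.1 % p = z.2 % p)).card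
        ≤ ∑ z ∈ A ×ˢ A', Nat.log 2 X := by
          refine sum_le_sum fun z hz => ?_
          rw [mem_product] at hz
          refine card_dvd_diff L hL z.1 z.2 X ?_ (hX _ (mem_union_left _ hz.1)) (hX _ (mem_union_right _ hz.2))
          intro he
          exact disjoint_left.1 hd hz.1 (he ▸ hz.2)
      _ = A.card * A'.card * Nat.log 2 X := by
          rw [sum_const, card_product, smul_eq_mul]
      _ = n ^ 2 * Nat.log 2 X := by
          rw [hA, hA', sq]
  have hterm : ∀ p ∈ L, 1 - (((A ∪ A').image (fun u => u % p)).card : ℝ) / p ≤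
      (if p ∈ L2 then Real.exp (2 * n / Z0) else 1) *
        ((1 - ((A.image (fun u => u % p)).card : ℝ) / p) * (1 - ((A'.image (fun u => u % p)).card : ℝ) / p)) := by
    intro p hp
    have hp0 : (0 : ℝ) < p := by exact_mod_cast (hL p hp).pos
    rw [card_image_of_injOn (hinj p hp), card_image_of_injOn (hinj' p hp), hA, hA']
    have h2n : 2 * (n : ℝ) ≤ p := by exact_mod_cast hn p hp
    have hx0 : 0 ≤ (n : ℝ) / p := by positivity
    have hx1 : (n : ℝ) / p ≤ 1 / 2 := by
      rw [div_le_div_iff₀ hp0 (by norm_num)]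
      linarith
    by_cases hp2 : p ∈ L2
    · rw [if_pos hp2]
      have h1 : (n : ℝ) ≤ (((A ∪ A').image (fun u => u % p)).card : ℝ) := by
        have h2 : (A.image (fun u => u % p)).card ≤ ((A ∪ A').image (fun u => u % p)).card :=
          card_le_card (image_subset_image subset_union_left)
        rw [card_image_of_injOn (hinj p hp), hA] at h2
        exact_mod_cast h2
      have h3 : 1 - (((A ∪ A').image (fun u => u % p)).card : ℝ) / p ≤ 1 - n / p := by
        have : (n : ℝ) / p ≤ (((A ∪ A').image (fun u => u % p)).card : ℝ) / p := by gcongr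
        linarith
      refine h3.trans ?_
      have h4 : 1 + 2 * ((n : ℝ) / p) ≤ Real.exp (2 * n / Z0) := by
        have h5 := Real.add_one_le_exp (2 * ((n : ℝ) / p))
        have h6 : 2 * ((n : ℝ) / p) ≤ 2 * n / Z0 := by
          rw [mul_div_assoc]
          have := hLZ p hp
          gcongr
        have h7 := Real.exp_le_exp.2 h6
        linarith
      have h8 : 0 ≤ (1 - (n : ℝ) / p) * (1 - n / p) := mul_self_nonneg _
      calc 1 - (n : ℝ) / p ≤ (1 + 2 * ((n : ℝ) / p)) * ((1 - n / p) * (1 - n / p)) := by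
            set x := (n : ℝ) / p
            have h9 : 0 ≤ (1 - x) * (x * (1 - 2 * x)) := mul_nonneg (by linarith) (mul_nonneg hx0 (by linarith))
            nlinarith
        _ ≤ _ := mul_le_mul_of_nonneg_right h4 h8
    · rw [if_neg hp2, one_mul]
      have hU : Set.InjOn (fun u => u % p) (A ∪ A' : Finset ℕ) := by
        intro u hu u' hu' he
        rw [coe_union] at hu hu'
        have hnot : ∀ u ∈ A, ∀ u' ∈ A', u % p ≠ u' % p := by
          intro u hu u' hu' he
          exact hp2 (mem_filter.2 ⟨hp, u, hu, u', hu', he⟩)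
        rcases hu with hu | hu <;> rcases hu' with hu' | hu'
        · exact hinj p hp hu hu' he
        · exact absurd he (hnot u (by exact_mod_cast hu) u' (by exact_mod_cast hu'))
        · exact absurd he.symm (hnot u' (by exact_mod_cast hu') u (by exact_mod_cast hu))
        · exact hinj' p hp hu hu' he
      rw [card_image_of_injOn hU, card_union_of_disjoint hd, hA, hA']
      push_cast
      have e : (1 - (n : ℝ) / p) * (1 - n / p) = 1 - (n + n) / p + (n / p) ^ 2 := by
        field_simp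
        ring
      rw [e]
      have := sq_nonneg ((n : ℝ) / p)
      linarith
  have hnn : ∀ p ∈ L, 0 ≤ 1 - (((A ∪ A').image (fun u => u % p)).card : ℝ) / p := by
    intro p hp
    have hp0 : (0 : ℝ) < p := by exact_mod_cast (hL p hp).pos
    rw [sub_nonneg, div_le_one hp0]
    have h1 : ((A ∪ A').image (fun u => u % p)).card ≤ 2 * n := by
      refine card_image_le.trans ((card_union_le _ _).trans ?_)
      omega
    have h2 := hn p hp
    exact_mod_cast h1.trans h2
  refine (prod_le_prod hnn hterm).trans ?_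
  rw [prod_mul_distrib]
  refine mul_le_mul_of_nonneg_right ?_ (prod_nonneg fun p hp => ?_)
  · rw [← prod_filter]
    have e : L.filter (fun p => p ∈ L2) = L2 := by
      ext p
      rw [mem_filter]
      exact ⟨fun h1 => h1.2, fun h1 => ⟨(mem_filter.1 h1).1, h1⟩⟩
    rw [e, prod_const]
    calc Real.exp (2 * n / Z0) ^ L2.card ≤ Real.exp (2 * n / Z0) ^ (n ^ 2 * Nat.log 2 X) :=
          pow_le_pow_right₀ (Real.one_le_exp (by positivity)) hcardL2
      _ = Real.exp (2 * n ^ 3 * Nat.log 2 X / Z0) := by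
          rw [← Real.exp_nat_mul]
          congr 1
          rw [Nat.cast_mul, Nat.cast_pow]
          ring
  · have hp0 : (0 : ℝ) < p := by exact_mod_cast (hL p hp).pos
    have h2n : 2 * (n : ℝ) ≤ p := by exact_mod_cast hn p hp
    rw [card_image_of_injOn (hinj p hp), card_image_of_injOn (hinj' p hp), hA, hA']
    exact mul_self_nonneg _

/-- **The third phase.** -/
theorem ph3_fixed (h : Model P a) (ν : ℕ) (Z Z' X : ℕ) (hZ : 1 ≤ Z) (hZZ : Z ≤ Z') (hνZ : 2 * ν ≤ Z)
    (H I : Finset ℕ) (n : ℕ → ℕ) (G : ℕ) (hH : H.card ≤ ν) (hG : G < Z) (hHG : ∀ u ∈ H, u ≤ G)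
    (hdisj : ∀ i ∈ I, ∀ j ∈ I, i ≠ j → Disjoint (Icc (n i) (n i + G)) (Icc (n j) (n j + G)))
    (hnX : ∀ j ∈ I, n j + G ≤ X) (m : ℝ) (hm : 0 < m) (hmI : m ≤ I.card) :
    P.real {ω | ∀ j ∈ I, ω ∉ Surv a (PI Z Z') (H.image fun u => n j + u)} ≤
      1 / (m * (V Z' / V Z) ^ (2 * ν)) + (Real.exp (2 * ν ^ 3 * Nat.log 2 X / Z) - 1) := by
  have := prob h
  have hVZ := V_pos Z
  have hVZ' := V_pos Z'
  have hZ0 : (0 : ℝ) < Z := by exact_mod_cast hZ
  have hL : ∀ p ∈ PI Z Z', p.Prime := fun p hp1 => (mem_PI.1 hp1).2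
  have hLZ : ∀ p ∈ PI Z Z', Z < p := fun p hp1 => (mem_PI.1 hp1).1.1
  have hsub : ∀ j, (H.image fun u => n j + u) ⊆ Icc (n j) (n j + G) := by
    intro j x hx
    rw [mem_image] at hx
    obtain ⟨u, hu, rfl⟩ := hx
    have := hHG u hu
    rw [mem_Icc]
    omega
  have hξ : 0 ≤ Real.exp (2 * (ν : ℝ) ^ 3 * Nat.log 2 X / Z) - 1 := by
    have : 1 ≤ Real.exp (2 * (ν : ℝ) ^ 3 * Nat.log 2 X / Z) := Real.one_le_exp (by positivity)
    linarith
  refine none_occurs (P := P) I (fun j => Surv a (PI Z Z') (H.image fun u => n j + u)) (fun j _ => Surv_meas h _ _)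
    _ _ hξ (by positivity) ?_ ?_
  · intro i hi j hj hij
    have hc : ∀ j, (H.image fun u => n j + u).card = H.card := fun j => card_image_of_injective _ (add_right_injective _)
    have h1 := surv_pair h (H.image fun u => n i + u) (H.image fun u => n j + u) (PI Z Z') hL H.card (hc i) (hc j)
      (fun p hp1 => inj_Icc (hG.trans (hLZ p hp1)) (hsub i)) (fun p hp1 => inj_Icc (hG.trans (hLZ p hp1)) (hsub j))
      (disjoint_of_subset_left (hsub i) (disjoint_of_subset_right (hsub j) (hdisj i hi j hj hij))) X (by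
        intro u hu
        rcases mem_union.1 hu with hu | hu
        · exact (mem_Icc.1 (hsub i hu)).2.trans (hnX i hi)
        · exact (mem_Icc.1 (hsub j hu)).2.trans (hnX j hj)) Z hZ0 (fun p hp1 => by exact_mod_cast (hLZ p hp1).le)
      (fun p hp1 => by
        have := hLZ p hp1
        omega)
    refine h1.trans ?_
    have e : 1 + (Real.exp (2 * (ν : ℝ) ^ 3 * Nat.log 2 X / Z) - 1) = Real.exp (2 * (ν : ℝ) ^ 3 * Nat.log 2 X / Z) := by
      ring
    rw [e]
    apply mul_le_mul_of_nonneg_right _ (mul_nonneg measureReal_nonneg measureReal_nonneg)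
    apply Real.exp_le_exp.2
    have : (H.card : ℝ) ≤ ν := by exact_mod_cast hH
    gcongr
  · have h1 : ∀ j ∈ I, (V Z' / V Z) ^ (2 * ν) ≤ P.real (Surv a (PI Z Z') (H.image fun u => n j + u)) := by
      intro j _
      have h2 := surv_ge h (H.image fun u => n j + u) (PI Z Z') hL ν (card_image_le.trans hH) (fun p hp1 => by
        have := hLZ p hp1
        omega)
      have h3 : ∏ p ∈ PI Z Z', (1 - 1 / (p : ℝ)) = V Z' / V Z := (V_ratio Z Z' hZZ).symm
      rwa [h3] at h2
    calc m * (V Z' / V Z) ^ (2 * ν) ≤ I.card * (V Z' / V Z) ^ (2 * ν) := by gcongr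
      _ = ∑ j ∈ I, (V Z' / V Z) ^ (2 * ν) := by rw [sum_const, nsmul_eq_mul]
      _ ≤ _ := sum_le_sum h1

end prob

end Pool.Agent.H531.GP
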