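import Pool.Agent.H531.CP.Win

set_option autoImplicit false

/-!
# Positions all of whose translates survive: exponential moments
-/

open Finset MeasureTheory ProbabilityTheory Filter Topology

namespace Pool.Agent.H531.GP

open Pool.Agent.T2H31.HV Pool.Agent.H531.SI Pool.Agent.H531.MS Pool.Agent.H531.CP
open Pool.Agent.T2H32.BF hiding PI

/-- the `j ∈ J` such that no `c + q j + h`, `h ∈ H`, is in a class `b p`, `p ∈ L` -/
def ST (H : Finset ℕ) (c q : ℕ) (J L : Finset ℕ) (b : ℕ → ℕ) : Finset ℕ :=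
  J.filter fun j => ∀ p ∈ L, ∀ h ∈ H, (c + q * j + h) % p ≠ b p

theorem ST_empty (H : Finset ℕ) (c q : ℕ) (J : Finset ℕ) (b : ℕ → ℕ) : ST H c q J ∅ b = J := by
  unfold ST
  simp

theorem ST_update (H : Finset ℕ) (c q : ℕ) (J L : Finset ℕ) (p : ℕ) (hp : p ∉ L) (b : ℕ → ℕ) (r : ℕ) :
    ((ST H c q J (insert p L) (Function.update b p r)).card : ℝ) =
      (ST H c q J L b).card - ((ST H c q J L b).filter fun j => ∃ h ∈ H, (c + q * j + h) % p = r).card := by
  have hnew : ST H c q J (insert p L) (Function.update b p r) =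
      (ST H c q J L b).filter fun j => ¬ ∃ h ∈ H, (c + q * j + h) % p = r := by
    ext t
    unfold ST
    rw [mem_filter, mem_filter, mem_filter]
    constructor
    · rintro ⟨h1, h2⟩
      refine ⟨⟨h1, fun q' hq => ?_⟩, ?_⟩
      · have := h2 q' (mem_insert_of_mem hq)
        rwa [Function.update_of_ne (fun h : q' = p => hp (h ▸ hq))] at this
      · have := h2 p (mem_insert_self _ _)
        rw [Function.update_self] at this
        rintro ⟨h, hh, he⟩
        exact this h hh he
    · rintro ⟨⟨h1, h2⟩, h3⟩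
      refine ⟨h1, fun q' hq => ?_⟩
      rcases mem_insert.1 hq with rfl | hq'
      · rw [Function.update_self]
        intro h hh he
        exact h3 ⟨h, hh, he⟩
      · rw [Function.update_of_ne (fun h : q' = p => hp (h ▸ hq'))]
        exact h2 q' hq'
  have hc := card_filter_add_card_filter_not (s := ST H c q J L b) (fun j => ∃ h ∈ H, (c + q * j + h) % p = r)
  rw [hnew]
  have : (((ST H c q J L b).filter fun j => ∃ h ∈ H, (c + q * j + h) % p = r).card : ℝ) +
      ((ST H c q J L b).filter fun j => ¬ ∃ h ∈ H, (c + q * j + h) % p = r).card = (ST H c q J L b).card := by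
    exact_mod_cast hc
  linarith

theorem ST_sum (H : Finset ℕ) (c q : ℕ) (U : Finset ℕ) (p : ℕ) (hp : 0 < p) :
    ∑ r ∈ range p, ((U.filter fun j => ∃ h ∈ H, (c + q * j + h) % p = r).card : ℝ) ≤ H.card * U.card := by
  have h1 : ∀ r, ((U.filter fun j => ∃ h ∈ H, (c + q * j + h) % p = r).card : ℝ) ≤
      ∑ h ∈ H, ((U.filter fun j => (c + q * j + h) % p = r).card : ℝ) := by
    intro r
    have h2 : (U.filter fun j => ∃ h ∈ H, (c + q * j + h) % p = r) ⊆
        H.biUnion fun h => U.filter fun j => (c + q * j + h) % p = r := by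
      intro j hj
      rw [mem_filter] at hj
      obtain ⟨hj1, h, hh, he⟩ := hj
      rw [mem_biUnion]
      exact ⟨h, hh, mem_filter.2 ⟨hj1, he⟩⟩
    have h3 := (card_le_card h2).trans card_biUnion_le
    exact_mod_cast h3
  refine (sum_le_sum fun r _ => h1 r).trans (le_of_eq ?_)
  rw [sum_comm]
  have h2 : ∀ h ∈ H, ∑ r ∈ range p, ((U.filter fun j => (c + q * j + h) % p = r).card : ℝ) = U.card := by
    intro h _
    have h3 := card_eq_sum_card_fiberwise (s := U) (t := range p) (f := fun j => (c + q * j + h) % p)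
      (fun j _ => mem_coe.2 (mem_range.2 (Nat.mod_lt _ hp)))
    rw [h3]
    push_cast
    rfl
  rw [sum_congr rfl h2, sum_const, nsmul_eq_mul]

theorem ST_step (H : Finset ℕ) (c q : ℕ) (J L : Finset ℕ) (p : ℕ) (hp : p ∉ L) (hpp : p.Prime) (K : ℝ) (hK0 : 0 < K)
    (hK : ∀ r, ((J.filter fun j => ∃ h ∈ H, (c + q * j + h) % p = r).card : ℝ) ≤ K) (x : ℝ) (hx : 0 ≤ x) (b : ℕ → ℕ) :
    (1 / (p : ℝ)) * ∑ r ∈ range p, Real.exp (-x * (ST H c q J (insert p L) (Function.update b p r)).card) ≤
      Real.exp (-(x - H.card * (Real.exp (x * K) - 1) / (p * K)) * (ST H c q J L b).card) := by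
  have hp0 : (0 : ℝ) < p := by exact_mod_cast hpp.pos
  set U := ST H c q J L b with hU
  have hUJ : U ⊆ J := by
    rw [hU]
    exact filter_subset _ _
  set g : ℕ → ℝ := fun r => ((U.filter fun j => ∃ h ∈ H, (c + q * j + h) % p = r).card : ℝ) with hg
  have hcK : ∀ r, g r ≤ K := by
    intro r
    refine le_trans ?_ (hK r)
    have : (U.filter fun j => ∃ h ∈ H, (c + q * j + h) % p = r).card ≤
        (J.filter fun j => ∃ h ∈ H, (c + q * j + h) % p = r).card :=
      card_le_card (filter_subset_filter _ hUJ)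
    simp only [hg]
    exact_mod_cast this
  have he1 : 1 ≤ Real.exp (x * K) := Real.one_le_exp (by positivity)
  have he0 : 0 ≤ (Real.exp (x * K) - 1) / K := div_nonneg (by linarith) hK0.le
  have h1 : ∀ r, Real.exp (-x * (ST H c q J (insert p L) (Function.update b p r)).card) ≤
      Real.exp (-x * U.card) * (1 + g r * ((Real.exp (x * K) - 1) / K)) := by
    intro r
    rw [ST_update H c q J L p hp b r]
    have e : -x * ((U.card : ℝ) - g r) = -x * U.card + x * g r := by ring
    rw [← hU]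
    show Real.exp (-x * ((U.card : ℝ) - g r)) ≤ _
    rw [e, Real.exp_add]
    apply mul_le_mul_of_nonneg_left _ (Real.exp_pos _).le
    exact exp_chord x _ K (Nat.cast_nonneg _) hK0 (hcK r)
  have h2 : ∑ r ∈ range p, Real.exp (-x * (ST H c q J (insert p L) (Function.update b p r)).card) ≤
      Real.exp (-x * U.card) * (p + (H.card * U.card) * ((Real.exp (x * K) - 1) / K)) := by
    refine (sum_le_sum fun r _ => h1 r).trans ?_
    rw [← mul_sum, sum_add_distrib, ← sum_mul]
    apply mul_le_mul_of_nonneg_left _ (Real.exp_pos _).le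
    have h3 := mul_le_mul_of_nonneg_right (ST_sum H c q U p hpp.pos) he0
    simp only [sum_const, card_range, nsmul_eq_mul, mul_one]
    linarith
  calc (1 / (p : ℝ)) * ∑ r ∈ range p, Real.exp (-x * (ST H c q J (insert p L) (Function.update b p r)).card)
      ≤ (1 / (p : ℝ)) * (Real.exp (-x * U.card) * (p + (H.card * U.card) * ((Real.exp (x * K) - 1) / K))) := by
        apply mul_le_mul_of_nonneg_left h2 (by positivity)
    _ = Real.exp (-x * U.card) * (H.card * (Real.exp (x * K) - 1) / (p * K) * U.card + 1) := by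
        field_simp
        ring
    _ ≤ Real.exp (-x * U.card) * Real.exp (H.card * (Real.exp (x * K) - 1) / (p * K) * U.card) := by
        apply mul_le_mul_of_nonneg_left (Real.add_one_le_exp _) (Real.exp_pos _).le
    _ = Real.exp (-(x - H.card * (Real.exp (x * K) - 1) / (p * K)) * U.card) := by
        rw [← Real.exp_add]
        congr 1
        ring

/-- **Negative parameters.** -/
theorem mgf_T (H : Finset ℕ) (hH : 1 ≤ H.card) (c q : ℕ) (J L : Finset ℕ) (K : ℕ → ℝ) (hL : ∀ p ∈ L, p.Prime)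
    (hK0 : ∀ p ∈ L, 0 < K p)
    (hK : ∀ p ∈ L, ∀ r, ((J.filter fun j => ∃ h ∈ H, (c + q * j + h) % p = r).card : ℝ) ≤ K p) (C : ℝ)
    (hLC : ∀ p ∈ L, H.card * (1 + C * Real.exp C) ≤ p) (l : ℝ) (hl : 0 ≤ l) (hlC : ∀ p ∈ L, l * K p ≤ C) :
    Ev L (fun b => Real.exp (-l * (ST H c q J L b).card)) ≤
      Real.exp (J.card * (-l * ∏ p ∈ L, (1 - (H.card : ℝ) / p) +
        l ^ 2 * (H.card * Real.exp C) * ∑ p ∈ L, K p / p)) := by
  induction L using Finset.induction_on generalizing l with
  | empty => simp [Ev_empty, ST_empty, mul_comm]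
  | insert p L hp ih =>
    have hpp := hL p (mem_insert_self _ _)
    have hp2 : (2 : ℝ) ≤ p := by exact_mod_cast hpp.two_le
    have hp0 : (0 : ℝ) < p := by linarith
    have hKp0 := hK0 p (mem_insert_self _ _)
    have hν1 : (1 : ℝ) ≤ H.card := by exact_mod_cast hH
    set ν : ℝ := (H.card : ℝ) with hν
    have hCe := Real.exp_pos C
    set l1 := l - ν * (Real.exp (l * K p) - 1) / (p * K p) with hl1
    have hstep : ∀ b, (1 / (p : ℝ)) * ∑ r ∈ range p,
        Real.exp (-l * (ST H c q J (insert p L) (Function.update b p r)).card) ≤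
        Real.exp (-l1 * (ST H c q J L b).card) := fun b =>
      ST_step H c q J L p hp hpp (K p) hKp0 (hK p (mem_insert_self _ _)) l hl b
    have hx : 0 ≤ l * K p := mul_nonneg hl hKp0.le
    have hxC := hlC p (mem_insert_self _ _)
    have he1 : 1 ≤ Real.exp (l * K p) := Real.one_le_exp hx
    have he2 := exp_bdd C (l * K p) hx hxC
    have hl1l : l1 ≤ l := by
      rw [hl1]
      have : 0 ≤ ν * (Real.exp (l * K p) - 1) / (p * K p) := div_nonneg (mul_nonneg (by linarith) (by linarith)) (by positivity)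
      linarith
    have hl1u : l * (1 - ν / p) - l ^ 2 * (ν * Real.exp C) * (K p / p) ≤ l1 := by
      rw [hl1]
      have h5 : ν * (Real.exp (l * K p) - 1) / (p * K p) ≤ ν * (l * K p + (l * K p) ^ 2 * Real.exp C) / (p * K p) := by
        apply div_le_div_of_nonneg_right _ (by positivity)
        apply mul_le_mul_of_nonneg_left _ (by linarith)
        linarith
      have e : ν * (l * K p + (l * K p) ^ 2 * Real.exp C) / (p * K p) =
          l * (ν / p) + l ^ 2 * (ν * Real.exp C) * (K p / p) := by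
        field_simp
      rw [e] at h5
      linarith
    have hl10 : 0 ≤ l1 := by
      refine le_trans ?_ hl1u
      have h6 := hLC p (mem_insert_self _ _)
      have e : l * (1 - ν / p) - l ^ 2 * (ν * Real.exp C) * (K p / p) =
          l * (1 - ν * (1 + l * K p * Real.exp C) / p) := by
        field_simp
        ring
      rw [e]
      apply mul_nonneg hl
      have h7 : ν * (1 + l * K p * Real.exp C) / p ≤ 1 := by
        rw [div_le_one hp0]
        have h8 : l * K p * Real.exp C ≤ C * Real.exp C := mul_le_mul_of_nonneg_right hxC hCe.le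
        have h9 : ν * (1 + l * K p * Real.exp C) ≤ ν * (1 + C * Real.exp C) :=
          mul_le_mul_of_nonneg_left (by linarith) (by linarith)
        linarith
      linarith
    have hfac : ∀ q' ∈ L, 0 ≤ 1 - ν / (q' : ℝ) ∧ 1 - ν / (q' : ℝ) ≤ 1 := by
      intro q' hq'
      have hq0 : (0 : ℝ) < q' := by exact_mod_cast (hL q' (mem_insert_of_mem hq')).pos
      have h6 := hLC q' (mem_insert_of_mem hq')
      have hC0 : 0 ≤ C := (mul_nonneg hl (hK0 q' (mem_insert_of_mem hq')).le).trans (hlC q' (mem_insert_of_mem hq'))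
      have h7 : ν ≤ q' := by
        have : 0 ≤ ν * (C * Real.exp C) := by positivity
        nlinarith
      have h8 : ν / q' ≤ 1 := (div_le_one hq0).2 h7
      have h9 : 0 ≤ ν / q' := by positivity
      exact ⟨by linarith, by linarith⟩
    rw [Ev_insert L p hp]
    refine (Ev_mono L _ _ fun b _ => hstep b).trans ?_
    refine (ih (fun q hq => hL q (mem_insert_of_mem hq)) (fun q hq => hK0 q (mem_insert_of_mem hq))
      (fun q hq => hK q (mem_insert_of_mem hq)) (fun q hq => hLC q (mem_insert_of_mem hq)) l1 hl10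
      (fun q hq => (mul_le_mul_of_nonneg_right hl1l (hK0 q (mem_insert_of_mem hq)).le).trans
        (hlC q (mem_insert_of_mem hq)))).trans ?_
    apply Real.exp_le_exp.2
    apply mul_le_mul_of_nonneg_left _ (by positivity)
    rw [prod_insert hp, sum_insert hp]
    have hρ0 : 0 ≤ ∏ p ∈ L, (1 - ν / (p : ℝ)) := prod_nonneg fun q hq => (hfac q hq).1
    have hρ1 : ∏ p ∈ L, (1 - ν / (p : ℝ)) ≤ 1 := prod_le_one (fun q hq => (hfac q hq).1) fun q hq => (hfac q hq).2
    set ρ := ∏ p ∈ L, (1 - ν / (p : ℝ)) with hρ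
    set S := ∑ p ∈ L, K p / (p : ℝ) with hS
    have hS0 : 0 ≤ S := sum_nonneg fun q hq => div_nonneg (hK0 q (mem_insert_of_mem hq)).le (Nat.cast_nonneg _)
    have h5 : 0 ≤ l ^ 2 * (ν * Real.exp C) * (K p / (p : ℝ)) := by positivity
    have h6 : l ^ 2 * (ν * Real.exp C) * (K p / p) * ρ ≤ l ^ 2 * (ν * Real.exp C) * (K p / p) :=
      mul_le_of_le_one_right h5 hρ1
    have h7 : l1 ^ 2 * (ν * Real.exp C) * S ≤ l ^ 2 * (ν * Real.exp C) * S := by gcongr
    have h8 : (l * (1 - ν / p) - l ^ 2 * (ν * Real.exp C) * (K p / p)) * ρ ≤ l1 * ρ :=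
      mul_le_mul_of_nonneg_right hl1u hρ0
    calc -l1 * ρ + l1 ^ 2 * (ν * Real.exp C) * S
        ≤ -((l * (1 - ν / p) - l ^ 2 * (ν * Real.exp C) * (K p / p)) * ρ) + l ^ 2 * (ν * Real.exp C) * S := by
          linarith
      _ = -l * ((1 - ν / p) * ρ) + l ^ 2 * (ν * Real.exp C) * (K p / p) * ρ + l ^ 2 * (ν * Real.exp C) * S := by ring
      _ ≤ -l * ((1 - ν / p) * ρ) + l ^ 2 * (ν * Real.exp C) * (K p / p + S) := by linarith

section prob

variable {Ω : Type} [MeasurableSpace Ω] {P : Measure Ω} {a : ℕ → Ω → ℕ}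

theorem ST_dep (H : Finset ℕ) (c q : ℕ) (J L : Finset ℕ) (φ : ℕ → ℝ) : Dep L fun b => φ (ST H c q J L b).card := by
  intro b b' hb
  have : ST H c q J L b = ST H c q J L b' := by
    unfold ST
    refine filter_congr fun t _ => forall_congr' fun p => forall_congr' fun hp => ?_
    rw [hb p hp]
  simp only [this]

/-- **The lower tail.** -/
theorem lower_T (h : Model P a) (H : Finset ℕ) (hH : 1 ≤ H.card) (c q : ℕ) (J L : Finset ℕ) (K : ℕ → ℝ)
    (hL : ∀ p ∈ L, p.Prime) (hK0 : ∀ p ∈ L, 0 < K p)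
    (hK : ∀ p ∈ L, ∀ r, ((J.filter fun j => ∃ h ∈ H, (c + q * j + h) % p = r).card : ℝ) ≤ K p) (C : ℝ)
    (hLC : ∀ p ∈ L, H.card * (1 + C * Real.exp C) ≤ p) (l : ℝ) (hl : 0 ≤ l) (hlC : ∀ p ∈ L, l * K p ≤ C) (t : ℝ) :
    P.real {ω | ((ST H c q J L fun p => a p ω).card : ℝ) ≤ J.card * ∏ p ∈ L, (1 - (H.card : ℝ) / p) - t} ≤
      Real.exp (J.card * (l ^ 2 * (H.card * Real.exp C) * ∑ p ∈ L, K p / p) - l * t) := by
  have := prob h
  set m : ℝ := J.card * ∏ p ∈ L, (1 - (H.card : ℝ) / p) with hm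
  have e1 := markov h L hL (fun b => Real.exp (-l * (ST H c q J L b).card)) (fun b => (Real.exp_pos _).le)
    (ST_dep H c q J L fun n => Real.exp (-l * n)) (Real.exp (-l * (m - t))) (Real.exp_pos _)
  have e2 := mgf_T H hH c q J L K hL hK0 hK C hLC l hl hlC
  have e3 : Ev L (fun b => Real.exp (-l * (ST H c q J L b).card)) / Real.exp (-l * (m - t)) ≤
      Real.exp (J.card * (l ^ 2 * (H.card * Real.exp C) * ∑ p ∈ L, K p / p) - l * t) := by
    rw [div_le_iff₀ (Real.exp_pos _), ← Real.exp_add]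
    refine e2.trans (Real.exp_le_exp.2 (le_of_eq ?_))
    rw [hm]
    ring
  refine le_trans (measureReal_mono ?_ (measure_ne_top _ _)) (e1.trans e3)
  intro ω hω
  simp only [Set.mem_ofPred_eq, Real.exp_le_exp] at hω ⊢
  have : l * ((ST H c q J L fun p => a p ω).card : ℝ) ≤ l * (m - t) := mul_le_mul_of_nonneg_left hω hl
  linarith

end prob

end Pool.Agent.H531.GP
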